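import Mathlib
import Pool.Agent.H541.SM.Exact2

/-!
# The configurations without saving: `lam = 4 / 3`
-/

namespace Pool.Agent.H541.SX

open Finset Pool.Agent.H785R2.ABC Pool.Agent.H541.SM

/-- the class of exponent two -/
def c2 : Fin (16 + 1) := ⟨1, by norm_num⟩

/-- for `lam = 4 / 3` the squares have mass `1 / 3` -/
theorem exact_43 {v w : Fin 3 → Fin (16 + 1) → ℝ} (hL : Lim 16 (4 / 3) v w)
    (hN : NoSave (4 / 3) v w) : v 1 c2 = 1 / 3 ∧ v 2 c2 = 1 / 3 := by
  classical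
  obtain ⟨c, hS⟩ := str_of hL hN (by norm_num) 3 (by norm_num) (by norm_num)
  have hc := hS.pos
  have key : ∀ j, j ≠ 0 → v j c2 = 1 / 3 := by
    intro j hj
    obtain ⟨h1, h2⟩ := cost_Hv hL hS hj (by norm_num)
    have s1 : cost v j (Hv v c j) = (Hv v c j).card * c := by
      unfold cost
      rw [sum_congr rfl (fun i hi => (mem_Hv.1 hi).2), sum_const, nsmul_eq_mul]
    have s2 : cost w j (Hv v c j) = (∑ i ∈ Hv v c j, (((i : ℕ) : ℝ) + 1)) * c := by
      unfold cost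
      rw [sum_mul]
      exact sum_congr rfl fun i hi => w_heavy hL hS hj (mem_Hv.1 hi).2
    have hle := hS.le j 0 hj
    -- `∑ (2 i - 1) ≤ 1`
    have h3 : (∑ i ∈ Hv v c j, (2 * ((i : ℕ) : ℝ) - 1)) * c ≤ 1 * c := by
      have e : ∑ i ∈ Hv v c j, (2 * ((i : ℕ) : ℝ) - 1) =
          2 * ∑ i ∈ Hv v c j, (((i : ℕ) : ℝ) + 1) - 3 * (Hv v c j).card := by
        rw [mul_sum, sum_sub_distrib]
        rw [sum_congr rfl (fun i _ => show 2 * (((i : Fin (16 + 1)) : ℕ) + 1 : ℝ) =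
          2 * ((i : ℕ) : ℝ) + 2 by ring), sum_add_distrib]
        simp only [sum_const, nsmul_eq_mul, mul_one]
        ring
      rw [e]
      nlinarith
    have h4 := le_of_mul_le_mul_right h3 hc
    have hall : ∀ i ∈ Hv v c j, i = c2 := by
      intro i hi
      have h5 : 2 * ((i : ℕ) : ℝ) - 1 ≤ ∑ i ∈ Hv v c j, (2 * ((i : ℕ) : ℝ) - 1) := by
        apply single_le_sum (f := fun i : Fin (16 + 1) => (2 * ((i : ℕ) : ℝ) - 1)) _ hi
        intro i hi
        have : (1 : ℝ) ≤ ((i : ℕ) : ℝ) := by exact_mod_cast (mem_Hv.1 hi).1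
        linarith
      have h6 : ((i : ℕ) : ℝ) ≤ 1 := by linarith
      have h7 : (i : ℕ) ≤ 1 := by exact_mod_cast h6
      have h8 := (mem_Hv.1 hi).1
      apply Fin.ext
      simp only [c2]
      omega
    obtain ⟨i0, hi1, hiK, hi0⟩ := hS.ex j hj
    have hmem : i0 ∈ Hv v c j := mem_Hv.2 ⟨hi1, hi0⟩
    have h0 := hall i0 hmem
    rw [h0] at hmem hi0
    have hHv : Hv v c j = {c2} := by
      ext i
      rw [mem_singleton]
      exact ⟨hall i, fun h => h ▸ hmem⟩
    rw [hHv] at h1 h2 s1 s2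
    rw [card_singleton] at s1
    rw [sum_singleton] at s2
    have hc2v : (((c2 : Fin (16 + 1)) : ℕ) : ℝ) = 1 := by simp [c2]
    rw [hc2v] at s2
    push_cast at s1
    rw [hi0]
    linarith
  exact ⟨key 1 (by decide), key 2 (by decide)⟩

end Pool.Agent.H541.SX
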