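import Mathlib
import Pool.Agent.H541.SX.Exact43
import Pool.Agent.H541.SM.TypeCell2
import Pool.Graph.R_seed8.H510R2.Div
import Pool.Graph.R_pool_sql_team_seeded_3997aac3.Results.MP_070445_nt.SmallValues

/-!
# Cells near the configuration `h + M x ^ 2 = M' y ^ 2`, all variables about `c ^ (1 / 3)`
-/

namespace Pool.Agent.H541.SX

open Finset Pool.Agent.H785R2.ABC Pool.Agent.H541.SM

lemma sq_eq {n : ℕ} (hn : 1 ≤ n) : part 16 n {c2}ᶜ * rd 16 n {c2} ^ 2 = n := by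
  have h1 := basics.part_mul 16 n {c2} hn
  have h2 := basics.part_single 16 n c2 (by simp [c2])
  have h3 : (c2 : Fin (16 + 1)).val + 1 = 2 := rfl
  rw [h3] at h2
  rw [← h2, mul_comm]
  exact h1

/-- at most one solution for given coefficients -/
lemma inj_aux {M N x y x' y' a a' : ℕ} (hx : 0 < x) (hx' : 0 < x') (hy : 0 < y)
    (h1 : a + M * x ^ 2 = N * y ^ 2) (h2 : a' + M * x' ^ 2 = N * y' ^ 2)
    (hc : Nat.Coprime x y) (hc' : Nat.Coprime x' y')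
    (k1 : a * x' < N * y) (k2 : a' * x < N * y') : x = x' ∧ y = y' := by
  have key : (N : ℤ) * ((y * x') ^ 2 - (y' * x) ^ 2) = a * x' ^ 2 - a' * x ^ 2 := by
    have e1 : (a : ℤ) + M * x ^ 2 = N * y ^ 2 := by exact_mod_cast h1
    have e2 : (a' : ℤ) + M * x' ^ 2 = N * y' ^ 2 := by exact_mod_cast h2
    linear_combination (-(x' : ℤ) ^ 2) * e1 + (x : ℤ) ^ 2 * e2
  have kk1 : (a : ℤ) * x' < N * y := by exact_mod_cast k1
  have kk2 : (a' : ℤ) * x < N * y' := by exact_mod_cast k2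
  have px : (0 : ℤ) < x := by exact_mod_cast hx
  have px' : (0 : ℤ) < x' := by exact_mod_cast hx'
  have py : (0 : ℤ) ≤ y := Nat.cast_nonneg _
  have py' : (0 : ℤ) ≤ y' := Nat.cast_nonneg _
  have pN : (0 : ℤ) ≤ N := Nat.cast_nonneg _
  have pa : (0 : ℤ) ≤ a := Nat.cast_nonneg _
  have pa' : (0 : ℤ) ≤ a' := Nat.cast_nonneg _
  have heq : (y : ℤ) * x' = y' * x := by
    rcases lt_trichotomy ((y : ℤ) * x') (y' * x) with h | h | h
    · exfalso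
      have g1 : (N : ℤ) * (y' * x) ≤ N * ((y' * x) ^ 2 - (y * x') ^ 2) := by
        apply mul_le_mul_of_nonneg_left _ pN
        have : 0 ≤ (y : ℤ) * x' := by positivity
        nlinarith
      have g2 : (N : ℤ) * ((y' * x) ^ 2 - (y * x') ^ 2) ≤ a' * x ^ 2 := by
        have : 0 ≤ (a : ℤ) * x' ^ 2 := by positivity
        linarith
      have g3 : (N : ℤ) * (y' * x) ≤ a' * x ^ 2 := g1.trans g2
      have g4 : (a' : ℤ) * x * x < N * y' * x := mul_lt_mul_of_pos_right kk2 px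
      have g5 : (N : ℤ) * (y' * x) = N * y' * x := by ring
      have g6 : (a' : ℤ) * x ^ 2 = a' * x * x := by ring
      linarith
    · exact h
    · exfalso
      have g1 : (N : ℤ) * (y * x') ≤ N * ((y * x') ^ 2 - (y' * x) ^ 2) := by
        apply mul_le_mul_of_nonneg_left _ pN
        have : 0 ≤ (y' : ℤ) * x := by positivity
        nlinarith
      have g2 : (N : ℤ) * ((y * x') ^ 2 - (y' * x) ^ 2) ≤ a * x' ^ 2 := by
        have : 0 ≤ (a' : ℤ) * x ^ 2 := by positivity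
        linarith
      have g3 : (N : ℤ) * (y * x') ≤ a * x' ^ 2 := g1.trans g2
      have g4 : (a : ℤ) * x' * x' < N * y * x' := mul_lt_mul_of_pos_right kk1 px'
      have g5 : (N : ℤ) * (y * x') = N * y * x' := by ring
      have g6 : (a : ℤ) * x' ^ 2 = a * x' * x' := by ring
      linarith
  have heq' : y * x' = y' * x := by exact_mod_cast heq
  have d1 : x ∣ x' := by
    have : x ∣ y * x' := heq' ▸ Dvd.intro_left _ rfl
    exact hc.dvd_of_dvd_mul_left this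
  have d2 : x' ∣ x := by
    have : x' ∣ y' * x := heq' ▸ Dvd.intro_left _ rfl
    exact hc'.dvd_of_dvd_mul_left this
  have hxx : x = x' := Nat.dvd_antisymm d1 d2
  refine ⟨hxx, ?_⟩
  rw [hxx] at heq'
  exact Nat.eq_of_mul_eq_mul_right hx' heq'

open Pool.Agent.Results.MP_070445_nt.SmallValues in
theorem cell43 : ∃ c0 D : ℝ, 0 < D ∧ ∀ T : Finset (ℕ × ℕ × ℕ), Cell 16 T → ∀ s ∈ T,
    c0 ≤ (s.2.2 : ℝ) →
    |expV 16 s 1 c2 - 1 / 3| ≤ 1 / 100000 → |expV 16 s 2 c2 - 1 / 3| ≤ 1 / 100000 →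
    (∀ t ∈ T, (t.1 : ℝ) ≤ (t.2.2 : ℝ) ^ (1 / 20000 : ℝ)) →
    (T.card : ℝ) ≤ D * (s.2.2 : ℝ) ^ (2 / 3 - 3 / 10000 : ℝ) := by
  classical
  obtain ⟨M0, hM0⟩ := result 1 le_rfl
  obtain ⟨Cd, hCd, hdiv0⟩ := Pool.Agent.H510R2.divisor_bound (1 / 16000) (by norm_num)
  refine ⟨((2 : ℝ) ^ 2000) ^ 100000, Cd * (|M0| + 1), by positivity, ?_⟩
  intro T hT s hs hc0 hv1 hv2 ha
  set X : ℝ := (s.2.2 : ℝ) with hX
  have habc := hT.abc s hs
  have hX2 : (2 : ℝ) ≤ X := by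
    have := Bridge.two_le_c habc
    rw [hX]; exact_mod_cast this
  have hX0 : 0 < X := lt_of_lt_of_le two_pos hX2
  have hX1 : 1 < X := lt_of_lt_of_le one_lt_two hX2
  have hlogX : 0 < Real.log X := Real.log_pos hX1
  have hbig : (2 : ℝ) ^ 2000 ≤ X ^ (1 / 100000 : ℝ) := by
    have h1 : ((2 : ℝ) ^ 2000) = (((2 : ℝ) ^ 2000) ^ 100000) ^ (1 / 100000 : ℝ) := by
      rw [← Real.rpow_natCast ((2 : ℝ) ^ 2000) 100000, ← Real.rpow_mul (by positivity)]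
      norm_num
    rw [h1]
    exact Real.rpow_le_rpow (by positivity) hc0 (by norm_num)
  clear hc0
  have hmul : ∀ a b : ℝ, X ^ a * X ^ b = X ^ (a + b) := fun a b => (Real.rpow_add hX0 a b).symm
  have hdiv : ∀ a b : ℝ, X ^ a / X ^ b = X ^ (a - b) := fun a b => (Real.rpow_sub hX0 a b).symm
  have hmono : ∀ a b : ℝ, a ≤ b → X ^ a ≤ X ^ b := fun a b hab =>
    Real.rpow_le_rpow_of_exponent_le hX1.le hab
  have hpos : ∀ a : ℝ, 0 < X ^ a := fun a => Real.rpow_pos_of_pos hX0 a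
  -- the constant
  set τ : ℝ := Real.log (2 ^ 17) / Real.log X with hτ
  have hτX : X ^ τ = 2 ^ 17 := by
    rw [hτ]
    exact Bridge.rpow_log_div hX1 (show (0 : ℝ) < 2 ^ 17 by positivity)
  have hτ0 : 0 ≤ τ := div_nonneg (Real.log_nonneg (by norm_num)) hlogX.le
  have hτ1 : τ ≤ 1 / 1000000 := by
    rw [hτ, div_le_iff₀ hlogX]
    have h1 : Real.log ((2 : ℝ) ^ 170) ≤ Real.log (X ^ (1 / 100000 : ℝ)) := by
      apply Real.log_le_log (by positivity)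
      exact (pow_le_pow_right₀ (by norm_num) (by norm_num : 170 ≤ 2000)).trans hbig
    rw [Real.log_rpow hX0, Real.log_pow] at h1
    rw [Real.log_pow]
    push_cast at h1 ⊢
    linarith
  -- exponents
  have ex_of : ∀ a : ℝ, 0 < a → a = X ^ (Real.log a / Real.log X) := fun a ha =>
    (Bridge.rpow_log_div hX1 ha).symm
  have size : ∀ j : Fin 3, (rd 16 (num s j) {c2} : ℝ) = X ^ expV 16 s j c2 := by
    intro j
    have hpos : (0 : ℝ) < (rd 16 (num s j) {c2} : ℝ) := by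
      exact_mod_cast basics.rd_pos 16 (num s j) {c2}
    rw [expV, Bridge.rpow_log_div hX1 hpos]
  have x1 := size 1
  have y1 := size 2
  have n1 : num s 1 = s.2.1 := rfl
  have n2 : num s 2 = s.2.2 := rfl
  rw [n1] at x1
  rw [n2] at y1
  obtain ⟨ha0, hb0, hcc0, hab, hco1, hco2, hco3⟩ := habc
  have hle := hT.le s hs
  have eb : (part 16 s.2.1 {c2}ᶜ : ℝ) * (rd 16 s.2.1 {c2} : ℝ) ^ 2 = s.2.1 := by
    exact_mod_cast sq_eq hb0
  have ec : (part 16 s.2.2 {c2}ᶜ : ℝ) * (rd 16 s.2.2 {c2} : ℝ) ^ 2 = s.2.2 := by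
    exact_mod_cast sq_eq hcc0
  set v1 : ℝ := expV 16 s 1 c2 with hv1d
  set v2 : ℝ := expV 16 s 2 c2 with hv2d
  set xs : ℝ := (rd 16 s.2.1 {c2} : ℝ) with hxs
  set ys : ℝ := (rd 16 s.2.2 {c2} : ℝ) with hys
  set Ms : ℝ := (part 16 s.2.1 {c2}ᶜ : ℝ) with hMs
  set Ns : ℝ := (part 16 s.2.2 {c2}ᶜ : ℝ) with hNs
  have hMs0 : 0 < Ms := by
    rw [hMs]; exact_mod_cast basics.part_pos 16 s.2.1 {c2}ᶜ
  have hNs0 : 0 < Ns := by
    rw [hNs]; exact_mod_cast basics.part_pos 16 s.2.2 {c2}ᶜ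
  obtain ⟨m1, hm1⟩ : ∃ m : ℝ, Ms = X ^ m := ⟨_, ex_of Ms hMs0⟩
  obtain ⟨m2, hm2⟩ : ∃ m : ℝ, Ns = X ^ m := ⟨_, ex_of Ns hNs0⟩
  have hb1 : (s.2.1 : ℝ) ≤ X := by
    rw [hX]; exact_mod_cast (by omega : s.2.1 ≤ s.2.2)
  have sq' : ∀ v : ℝ, (X ^ v) ^ 2 = X ^ (2 * v) := fun v => by
    rw [← Real.rpow_natCast, ← Real.rpow_mul hX0.le]
    congr 1
    push_cast; ring
  have hpowle : ∀ a b : ℝ, X ^ a ≤ X ^ b → a ≤ b := fun a b h =>
    (Real.rpow_le_rpow_left_iff hX1).1 h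
  have e1 : m1 + 2 * v1 ≤ 1 := by
    apply hpowle
    rw [← hmul, ← sq', ← hm1, ← x1, eb, Real.rpow_one]
    exact hb1
  have e2 : m2 + 2 * v2 = 1 := by
    apply le_antisymm
    · apply hpowle
      rw [← hmul, ← sq', ← hm2, ← y1, ec, Real.rpow_one]
    · apply hpowle
      rw [← hmul, ← sq', ← hm2, ← y1, ec, Real.rpow_one]
  obtain ⟨a1, a2⟩ := abs_le.1 hv1
  obtain ⟨b1, b2⟩ := abs_le.1 hv2
  -- the small member
  have hh : ∀ t ∈ T, (t.1 : ℝ) ≤ X ^ (6 / 100000 : ℝ) := by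
    intro t ht
    have h1 : (t.2.2 : ℝ) ≤ 2 ^ 17 * X := by
      have h2 := hT.part_le t ht s hs 2 univ
      have h3 : 1 ≤ num t 2 := Bridge.num_pos (hT.abc t ht) 2
      rw [basics.part_univ 16 _ h3, basics.part_univ 16 _ (by rw [n2]; exact hcc0)] at h2
      have h4 : num t 2 = t.2.2 := rfl
      rw [h4, n2] at h2
      rw [hX]
      exact_mod_cast h2
    calc (t.1 : ℝ) ≤ (t.2.2 : ℝ) ^ (1 / 20000 : ℝ) := ha t ht
      _ ≤ (2 ^ 17 * X) ^ (1 / 20000 : ℝ) :=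
          Real.rpow_le_rpow (Nat.cast_nonneg _) h1 (by norm_num)
      _ = (X ^ (τ + 1)) ^ (1 / 20000 : ℝ) := by rw [← hτX, ← hmul, Real.rpow_one]
      _ = X ^ ((τ + 1) * (1 / 20000)) := by rw [← Real.rpow_mul hX0.le]
      _ ≤ X ^ (6 / 100000 : ℝ) := hmono _ _ (by linarith)
  -- the variables of a triple
  have hvar : ∀ t ∈ T, ((rd 16 t.2.1 {c2} : ℕ) : ℝ) ≤ X ^ (v1 + τ) ∧
      ((rd 16 t.2.2 {c2} : ℕ) : ℝ) ≤ X ^ (v2 + τ) ∧ X ^ (v2 - τ) ≤ ((rd 16 t.2.2 {c2} : ℕ) : ℝ) ∧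
      ((part 16 t.2.1 {c2}ᶜ : ℕ) : ℝ) ≤ X ^ (m1 + τ) ∧
      ((part 16 t.2.2 {c2}ᶜ : ℕ) : ℝ) ≤ X ^ (m2 + τ) ∧
      X ^ (m2 - τ) ≤ ((part 16 t.2.2 {c2}ᶜ : ℕ) : ℝ) := by
    intro t ht
    have r1 := hT.rd_le t ht s hs 1 {c2}
    have r3 := hT.rd_le t ht s hs 2 {c2}
    have r4 := hT.rd_le s hs t ht 2 {c2}
    have r5 := hT.part_le t ht s hs 1 {c2}ᶜ
    have r7 := hT.part_le t ht s hs 2 {c2}ᶜ
    have r8 := hT.part_le s hs t ht 2 {c2}ᶜ
    have m1' : num t 1 = t.2.1 := rfl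
    have m2' : num t 2 = t.2.2 := rfl
    rw [m1', n1] at r1 r5
    rw [m2', n2] at r3 r4 r7 r8
    have up : ∀ (a b : ℕ) (e : ℝ), (b : ℝ) = X ^ e → a ≤ 2 ^ (16 + 1) * b →
        (a : ℝ) ≤ X ^ (e + τ) := by
      intro a b e he hab
      have h1 : (a : ℝ) ≤ 2 ^ (16 + 1) * b := by exact_mod_cast hab
      rw [← hmul, hτX, ← he]
      calc (a : ℝ) ≤ 2 ^ (16 + 1) * b := h1
        _ = b * 2 ^ 17 := by ring
    have lo : ∀ (a b : ℕ) (e : ℝ), (b : ℝ) = X ^ e → b ≤ 2 ^ (16 + 1) * a →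
        X ^ (e - τ) ≤ (a : ℝ) := by
      intro a b e he hab
      have h1 : (b : ℝ) ≤ 2 ^ (16 + 1) * a := by exact_mod_cast hab
      rw [← hdiv, hτX, ← he, div_le_iff₀ (by positivity)]
      calc (b : ℝ) ≤ 2 ^ (16 + 1) * a := h1
        _ = a * 2 ^ 17 := by ring
    exact ⟨up _ _ _ x1 r1, up _ _ _ y1 r3, lo _ _ _ y1 r4, up _ _ _ hm1 r5, up _ _ _ hm2 r7,
      lo _ _ _ hm2 r8⟩
  -- equations
  have heqs : ∀ t ∈ T, t.1 + part 16 t.2.1 {c2}ᶜ * rd 16 t.2.1 {c2} ^ 2 =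
      part 16 t.2.2 {c2}ᶜ * rd 16 t.2.2 {c2} ^ 2 ∧
      Nat.Coprime (rd 16 t.2.1 {c2}) (rd 16 t.2.2 {c2}) := by
    intro t ht
    obtain ⟨ta, tb, tc, tabc, tco1, tco2, tco3⟩ := hT.abc t ht
    constructor
    · rw [sq_eq tb, sq_eq tc]
      omega
    · have d1 : rd 16 t.2.1 {c2} ∣ t.2.1 :=
        (dvd_pow_self _ (by norm_num : 2 ≠ 0)).trans (Dvd.intro_left _ (sq_eq tb))
      have d2 : rd 16 t.2.2 {c2} ∣ t.2.2 :=
        (dvd_pow_self _ (by norm_num : 2 ≠ 0)).trans (Dvd.intro_left _ (sq_eq tc))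
      exact Nat.Coprime.coprime_dvd_left d1 (Nat.Coprime.coprime_dvd_right d2 tco3)
  -- injectivity
  have hinj : ∀ t ∈ T, ∀ t' ∈ T, part 16 t.2.1 {c2}ᶜ = part 16 t'.2.1 {c2}ᶜ →
      part 16 t.2.2 {c2}ᶜ = part 16 t'.2.2 {c2}ᶜ → t = t' := by
    intro t ht t' ht' h1 h2
    obtain ⟨p1, p2⟩ := heqs t ht
    obtain ⟨q1, q2⟩ := heqs t' ht'
    have big : ∀ u ∈ T, ∀ u' ∈ T,
        u.1 * rd 16 u'.2.1 {c2} < part 16 u.2.2 {c2}ᶜ * rd 16 u.2.2 {c2} := by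
      intro u hu u' hu'
      obtain ⟨-, -, w3, -, -, w6⟩ := hvar u hu
      obtain ⟨z1, -⟩ := hvar u' hu'
      have g : (u.1 : ℝ) * (rd 16 u'.2.1 {c2} : ℕ) <
          (part 16 u.2.2 {c2}ᶜ : ℕ) * (rd 16 u.2.2 {c2} : ℕ) := by
        calc (u.1 : ℝ) * (rd 16 u'.2.1 {c2} : ℕ) ≤ X ^ (6 / 100000 : ℝ) * X ^ (v1 + τ) :=
              mul_le_mul (hh u hu) z1 (Nat.cast_nonneg _) (hpos _).le
          _ = X ^ (6 / 100000 + (v1 + τ)) := hmul _ _
          _ < X ^ ((m2 - τ) + (v2 - τ)) := by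
              apply Real.rpow_lt_rpow_of_exponent_lt hX1
              linarith
          _ = X ^ (m2 - τ) * X ^ (v2 - τ) := (hmul _ _).symm
          _ ≤ _ := mul_le_mul w6 w3 (hpos _).le (Nat.cast_nonneg _)
      exact_mod_cast g
    have k1 := big t ht t' ht'
    have k2 := big t' ht' t ht
    rw [← h1, ← h2] at q1
    rw [← h2] at k2
    obtain ⟨g1, g2⟩ := inj_aux (basics.rd_pos 16 t.2.1 {c2}) (basics.rd_pos 16 t'.2.1 {c2})
      (basics.rd_pos 16 t.2.2 {c2}) p1 q1 p2 q2 k1 k2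
    have tb := sq_eq (hT.abc t ht).2.1
    have tc := sq_eq (hT.abc t ht).2.2.1
    have tb' := sq_eq (hT.abc t' ht').2.1
    have tc' := sq_eq (hT.abc t' ht').2.2.1
    rw [← h1, ← g1, tb] at tb'
    rw [← h2, ← g2, tc] at tc'
    have s1 := (hT.abc t ht).2.2.2.1
    have s2 := (hT.abc t' ht').2.2.2.1
    refine Prod.ext ?_ (Prod.ext tb' tc')
    omega
  -- the exceptional set
  set Y : ℝ := X ^ (2 / 3 + 5 / 100000 : ℝ) with hY
  have hY1 : 1 ≤ Y := Real.one_le_rpow hX1.le (by norm_num)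
  have hY0 : 0 < Y := by linarith
  have hex := (hM0 Y hY1).1
  set ES : Set ℤ := {D : ℤ | 1 ≤ D ∧ (D : ℝ) ≤ Y ∧
      SmallValue D (Y ^ 1) (Y ^ (1 / (128 * (4 * ((1 : ℕ) : ℝ) + 1) ^ 2)))} with hES
  have hESfin : ES.Finite := (fin_box Y).subset fun D hD => ⟨hD.1, hD.2.1⟩
  have hYpow : ∀ e : ℝ, Y ^ e = X ^ ((2 / 3 + 5 / 100000) * e) := fun e => by
    rw [hY, ← Real.rpow_mul hX0.le]
  have hDle : ∀ t ∈ T, ((part 16 t.2.1 {c2}ᶜ * part 16 t.2.2 {c2}ᶜ : ℕ) : ℝ) ≤ Y := by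
    intro t ht
    obtain ⟨-, -, -, w4, w5, -⟩ := hvar t ht
    push_cast
    calc ((part 16 t.2.1 {c2}ᶜ : ℕ) : ℝ) * (part 16 t.2.2 {c2}ᶜ : ℕ) ≤
          X ^ (m1 + τ) * X ^ (m2 + τ) := mul_le_mul w4 w5 (Nat.cast_nonneg _) (hpos _).le
      _ = X ^ ((m1 + τ) + (m2 + τ)) := hmul _ _
      _ ≤ Y := hmono _ _ (by linarith)
  have hmem : ∀ t ∈ T, ((part 16 t.2.1 {c2}ᶜ * part 16 t.2.2 {c2}ᶜ : ℕ) : ℤ) ∈ ES := by
    intro t ht
    obtain ⟨w1, w2, w3, w4, w5, w6⟩ := hvar t ht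
    obtain ⟨p1, p2⟩ := heqs t ht
    have pM := basics.part_pos 16 t.2.1 {c2}ᶜ
    have pN := basics.part_pos 16 t.2.2 {c2}ᶜ
    have px := basics.rd_pos 16 t.2.1 {c2}
    have py := basics.rd_pos 16 t.2.2 {c2}
    have hax := hh t ht
    have hta := (hT.abc t ht).1
    have hD := hDle t ht
    revert w1 w2 w3 w4 w5 w6 p1 p2 pM pN px py hD
    generalize part 16 t.2.1 {c2}ᶜ = M
    generalize part 16 t.2.2 {c2}ᶜ = N
    generalize rd 16 t.2.1 {c2} = x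
    generalize rd 16 t.2.2 {c2} = y
    intro w1 w2 w3 w4 w5 w6 p1 p2 pM pN px py hD
    have q1 : (t.1 : ℤ) = N * y ^ 2 - M * x ^ 2 := by
      have : (t.1 : ℤ) + M * x ^ 2 = N * y ^ 2 := by exact_mod_cast p1
      linarith
    have hval : ((N : ℤ) * y ^ 2 + M * x ^ 2) ^ 2 - ((M * N : ℕ) : ℤ) * (2 * x * y) ^ 2 =
        (t.1 : ℤ) ^ 2 := by
      rw [q1]; push_cast; ring
    refine ⟨?_, ?_, (N : ℤ) * y ^ 2 + M * x ^ 2, 2 * x * y, ?_, ?_, ?_, ?_⟩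
    · exact_mod_cast Nat.mul_pos pM pN
    · exact_mod_cast hD
    · have : 1 ≤ 2 * x * y := Nat.mul_pos (Nat.mul_pos two_pos px) py
      exact_mod_cast this
    · rw [pow_one]
      push_cast
      calc 2 * (x : ℝ) * y ≤ X ^ τ * X ^ (v1 + τ) * X ^ (v2 + τ) := by
            have : (2 : ℝ) ≤ X ^ τ := by rw [hτX]; norm_num
            gcongr
        _ = X ^ (τ + (v1 + τ) + (v2 + τ)) := by rw [hmul, hmul]
        _ ≤ Y := hmono _ _ (by linarith)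
    · intro h0
      rw [h0, sub_self] at hval
      have : (t.1 : ℤ) = 0 := by
        have := pow_eq_zero_iff (two_ne_zero) |>.1 hval.symm
        exact this
      omega
    · rw [hval]
      push_cast
      rw [abs_of_nonneg (by positivity), hYpow]
      calc (t.1 : ℝ) ^ 2 ≤ (X ^ (6 / 100000 : ℝ)) ^ 2 := by gcongr
        _ = X ^ (2 * (6 / 100000) : ℝ) := sq' _
        _ ≤ _ := hmono _ _ (by norm_num)
  -- the count
  have hcard : T.card ≤ ⌊Cd * Y ^ (1 / 16000 : ℝ)⌋₊ * hESfin.toFinset.card := by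
    apply card_le_mul_card_image_of_maps_to
      (f := fun t : ℕ × ℕ × ℕ => ((part 16 t.2.1 {c2}ᶜ * part 16 t.2.2 {c2}ᶜ : ℕ) : ℤ))
    · intro t ht
      rw [Set.Finite.mem_toFinset]
      exact hmem t ht
    · intro D hD
      rw [Set.Finite.mem_toFinset] at hD
      apply Nat.le_floor
      obtain ⟨hD1, hDY, -⟩ := hD
      obtain ⟨n, rfl⟩ : ∃ n : ℕ, D = n := ⟨D.toNat, (Int.toNat_of_nonneg (by omega)).symm⟩
      have hn1 : 1 ≤ n := by exact_mod_cast hD1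
      have hnY : (n : ℝ) ≤ Y := by exact_mod_cast hDY
      have hfib : (T.filter fun t =>
          ((part 16 t.2.1 {c2}ᶜ * part 16 t.2.2 {c2}ᶜ : ℕ) : ℤ) = (n : ℤ)).card ≤
          n.divisors.card := by
        apply card_le_card_of_injOn (fun t => part 16 t.2.1 {c2}ᶜ)
        · intro t ht
          rw [mem_coe, mem_filter] at ht
          have h1 : part 16 t.2.1 {c2}ᶜ * part 16 t.2.2 {c2}ᶜ = n := by exact_mod_cast ht.2
          rw [mem_coe, Nat.mem_divisors]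
          exact ⟨Dvd.intro _ h1, by omega⟩
        · intro t ht t' ht' h
          rw [mem_coe, mem_filter] at ht ht'
          have h1 : part 16 t.2.1 {c2}ᶜ * part 16 t.2.2 {c2}ᶜ = n := by exact_mod_cast ht.2
          have h2 : part 16 t'.2.1 {c2}ᶜ * part 16 t'.2.2 {c2}ᶜ = n := by exact_mod_cast ht'.2
          have h' : part 16 t.2.1 {c2}ᶜ = part 16 t'.2.1 {c2}ᶜ := h
          refine hinj t ht.1 t' ht'.1 h' ?_
          rw [← h1, ← h'] at h2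
          exact (Nat.eq_of_mul_eq_mul_left (basics.part_pos 16 t.2.1 {c2}ᶜ) h2).symm
      calc (((T.filter fun t =>
          ((part 16 t.2.1 {c2}ᶜ * part 16 t.2.2 {c2}ᶜ : ℕ) : ℤ) = (n : ℤ)).card : ℕ) : ℝ) ≤
            (n.divisors.card : ℝ) := by exact_mod_cast hfib
        _ ≤ Cd * (n : ℝ) ^ (1 / 16000 : ℝ) := hdiv0 n hn1
        _ ≤ Cd * Y ^ (1 / 16000 : ℝ) := by gcongr
  rw [← Set.ncard_eq_toFinset_card ES hESfin] at hcard
  have hES1 : (ES.ncard : ℝ) ≤ (|M0| + 1) * Y ^ (1 - 1 / (64 * (4 * ((1 : ℕ) : ℝ) + 1) ^ 2)) := by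
    refine hex.trans (mul_le_mul_of_nonneg_right ?_ (Real.rpow_nonneg hY0.le _))
    have := le_abs_self M0
    linarith
  calc (T.card : ℝ) ≤ (⌊Cd * Y ^ (1 / 16000 : ℝ)⌋₊ : ℝ) * (ES.ncard : ℝ) := by
        exact_mod_cast hcard
    _ ≤ (Cd * Y ^ (1 / 16000 : ℝ)) *
        ((|M0| + 1) * Y ^ (1 - 1 / (64 * (4 * ((1 : ℕ) : ℝ) + 1) ^ 2))) := by
        apply mul_le_mul (Nat.floor_le (by positivity)) hES1 (Nat.cast_nonneg _) (by positivity)
    _ = Cd * (|M0| + 1) * (X ^ ((2 / 3 + 5 / 100000) * (1 / 16000) +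
        (2 / 3 + 5 / 100000) * (1 - 1 / (64 * (4 * ((1 : ℕ) : ℝ) + 1) ^ 2)))) := by
        rw [hYpow, hYpow, ← hmul]; ring
    _ ≤ Cd * (|M0| + 1) * X ^ (2 / 3 - 3 / 10000 : ℝ) := by
        apply mul_le_mul_of_nonneg_left (hmono _ _ (by norm_num)) (by positivity)

end Pool.Agent.H541.SX
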