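import Mathlib
import Pool.Agent.H541.SX.CompactG
import Pool.Agent.H541.SX.Cell43
import Pool.Agent.H541.SM.Cnt

/-!
# The number of abc-triples with a tiny member: `lam = 4 / 3`
-/

namespace Pool.Agent.H541.SX

open Finset Pool.Agent.H785R2.ABC Pool.Agent.H785R2.ABC.Fin1 Pool.Agent.H541.SM

/-- the bound for all cells of triples with a tiny member -/
theorem cell_bound43 : ∃ (κ D c0 : ℝ), 0 < κ ∧ κ ≤ 1 / 1000 ∧ κ ≤ (4 / 3 : ℝ) / 4 ∧ 0 < D ∧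
    2 ≤ c0 ∧ ∀ T : Finset (ℕ × ℕ × ℕ), Cell 16 T →
      (∀ t ∈ T, (t.1 : ℝ) ≤ (t.2.2 : ℝ) ^ κ ∧
        (rad (t.1 * t.2.1 * t.2.2) : ℝ) ≤ (t.2.2 : ℝ) ^ (4 / 3 + κ)) →
      ∀ s ∈ T, c0 ≤ (s.2.2 : ℝ) → (T.card : ℝ) ≤ D * (s.2.2 : ℝ) ^ ((4 / 3 : ℝ) / 2 - κ) := by
  obtain ⟨κ, hκ, H⟩ := compactG (K := 16) (lam := 4 / 3) c2 (1 / 3) (1 / 100000) (by norm_num)
    (fun v w hL hN => exact_43 hL hN)
  obtain ⟨D, hD, HM⟩ := mbound 16 (κ / 2) (by positivity)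
  obtain ⟨cA, DA, hDA, HA⟩ := cell43
  refine ⟨min (κ / 2) (1 / 20000), 2 * D + DA,
    max (max 2 cA) (Real.exp (Real.log 2 / κ)), by positivity,
    (min_le_right _ _).trans (by norm_num), (min_le_right _ _).trans (by norm_num), by positivity,
    (le_max_left _ _).trans (le_max_left _ _), ?_⟩
  set κ' : ℝ := min (κ / 2) (1 / 20000) with hκ'
  have k1 : κ' ≤ κ / 2 := min_le_left _ _
  have k2 : κ' ≤ 1 / 20000 := min_le_right _ _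
  intro T hT hP s hs hc0
  have habc := hT.abc s hs
  have hc2 : (2 : ℝ) ≤ s.2.2 := by exact_mod_cast Bridge.two_le_c habc
  have hc1 : (1 : ℝ) ≤ s.2.2 := by linarith
  have hc : (0 : ℝ) < s.2.2 := by linarith
  have hlog : 0 < Real.log s.2.2 := Real.log_pos (by linarith)
  have hlogc : Real.log 2 / Real.log s.2.2 ≤ κ := by
    have h3 : Real.exp (Real.log 2 / κ) ≤ s.2.2 := (le_max_right _ _).trans hc0
    have h4 := (Real.le_log_iff_exp_le hc).2 h3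
    rw [div_le_iff₀ hκ] at h4
    rw [div_le_iff₀ hlog]
    linarith
  obtain ⟨ha, hr⟩ := hP s hs
  have hpoly0 := Pool.Agent.H705R2.ABC.PO.stmtPoly_of basics 16 (4 / 3 + κ') s habc
    (hT.le s hs) hr
  have hpoly : Poly 16 (4 / 3 + κ) κ (expV 16 s) (expW 16 s) :=
    poly_mono hpoly0 (by linarith) hlogc
  have hcost : cost (expW 16 s) 0 univ ≤ κ := by
    have hn0 : num s 0 = s.1 := rfl
    rw [Pool.Agent.H705R2.ABC.PO.cost_expW basics 16 s 0 (by rw [hn0]; exact habc.1), hn0,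
      div_le_iff₀ hlog]
    have hpos : (0 : ℝ) < s.1 := by exact_mod_cast habc.1
    calc Real.log s.1 ≤ Real.log ((s.2.2 : ℝ) ^ κ') := Real.log_le_log hpos ha
      _ = κ' * Real.log s.2.2 := Real.log_rpow hc _
      _ ≤ κ * Real.log s.2.2 := by
          apply mul_le_mul_of_nonneg_right _ hlog.le
          linarith
  have hpos' : 0 < (s.2.2 : ℝ) ^ ((4 / 3 : ℝ) / 2 - κ') := Real.rpow_pos_of_pos hc _
  rcases H _ _ hpoly hcost with ⟨b, hb, f1, f2⟩ | ⟨t1, t2⟩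
  · have hb' := HM T hT s hs b hb
    calc (T.card : ℝ) ≤ D * (s.2.2 : ℝ) ^ (κ / 2) *
          ((s.2.2 : ℝ) ^ b.f1 (expV 16 s) + (s.2.2 : ℝ) ^ b.f2 (expV 16 s) (expW 16 s)) := hb'
      _ ≤ D * (s.2.2 : ℝ) ^ (κ / 2) *
          ((s.2.2 : ℝ) ^ ((4 / 3 : ℝ) / 2 - κ) + (s.2.2 : ℝ) ^ ((4 / 3 : ℝ) / 2 - κ)) := by
          apply mul_le_mul_of_nonneg_left _ (by positivity)
          exact add_le_add (Real.rpow_le_rpow_of_exponent_le hc1 f1)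
            (Real.rpow_le_rpow_of_exponent_le hc1 f2)
      _ = 2 * D * ((s.2.2 : ℝ) ^ (κ / 2) * (s.2.2 : ℝ) ^ ((4 / 3 : ℝ) / 2 - κ)) := by ring
      _ = 2 * D * (s.2.2 : ℝ) ^ ((4 / 3 : ℝ) / 2 - κ / 2) := by
          rw [← Real.rpow_add hc]; congr 2; ring
      _ ≤ 2 * D * (s.2.2 : ℝ) ^ ((4 / 3 : ℝ) / 2 - κ') := by
          apply mul_le_mul_of_nonneg_left _ (by positivity)
          exact Real.rpow_le_rpow_of_exponent_le hc1 (by linarith)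
      _ ≤ (2 * D + DA) * (s.2.2 : ℝ) ^ ((4 / 3 : ℝ) / 2 - κ') := by
          apply mul_le_mul_of_nonneg_right _ hpos'.le
          linarith
  · have hA := HA T hT s hs (((le_max_right _ _).trans (le_max_left _ _)).trans hc0) t1 t2
      (fun t ht => by
        obtain ⟨hat, -⟩ := hP t ht
        have : (1 : ℝ) ≤ t.2.2 := by
          have := Bridge.two_le_c (hT.abc t ht)
          exact_mod_cast (by omega : 1 ≤ t.2.2)
        exact hat.trans (Real.rpow_le_rpow_of_exponent_le this k2))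
    calc (T.card : ℝ) ≤ DA * (s.2.2 : ℝ) ^ (2 / 3 - 3 / 10000 : ℝ) := hA
      _ ≤ DA * (s.2.2 : ℝ) ^ ((4 / 3 : ℝ) / 2 - κ') := by
          apply mul_le_mul_of_nonneg_left _ hDA.le
          exact Real.rpow_le_rpow_of_exponent_le hc1 (by linarith)
      _ ≤ (2 * D + DA) * (s.2.2 : ℝ) ^ ((4 / 3 : ℝ) / 2 - κ') := by
          apply mul_le_mul_of_nonneg_right _ hpos'.le
          linarith

/-- from a bound for cells to the count -/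
theorem count_of_cell (lam : ℝ) (K : ℕ) (κ D c0 : ℝ) (hκ : 0 < κ) (hκ1 : κ ≤ 1 / 1000)
    (hκ2 : κ ≤ lam / 4) (hD : 0 < D)
    (H : ∀ T : Finset (ℕ × ℕ × ℕ), Cell K T →
      (∀ t ∈ T, (t.1 : ℝ) ≤ (t.2.2 : ℝ) ^ κ ∧
        (rad (t.1 * t.2.1 * t.2.2) : ℝ) ≤ (t.2.2 : ℝ) ^ (lam + κ)) →
      ∀ s ∈ T, c0 ≤ (s.2.2 : ℝ) → (T.card : ℝ) ≤ D * (s.2.2 : ℝ) ^ (lam / 2 - κ)) :
    ∃ δ : ℝ, 0 < δ ∧ δ ≤ lam / 4 ∧ δ ≤ 1 / 1000 ∧ ∃ C : ℝ, 0 < C ∧ ∀ X : ℕ, 1 ≤ X →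
      ((Tiny lam δ X).ncard : ℝ) ≤ C * (X : ℝ) ^ (lam / 2 - δ) := by
  classical
  set c1 : ℕ := ⌈c0⌉₊ + 4 with hc1
  obtain ⟨C, hC, HC⟩ := assemble K (fun t => IsABCTriple t.1 t.2.1 t.2.2 ∧ t.1 ≤ t.2.1 ∧
      c1 ≤ t.2.2 ∧ (t.1 : ℝ) ≤ (t.2.2 : ℝ) ^ κ ∧
      (rad (t.1 * t.2.1 * t.2.2) : ℝ) ≤ (t.2.2 : ℝ) ^ (lam + κ)) D c0 (lam / 2 - κ) hD
    (by linarith)
    (fun t ht => ⟨ht.1, ht.2.1, by
      have h3 : c0 ≤ (⌈c0⌉₊ : ℝ) := Nat.le_ceil c0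
      have h4 : ((⌈c0⌉₊ + 4 : ℕ) : ℝ) ≤ (t.2.2 : ℝ) := by exact_mod_cast ht.2.2.1
      push_cast at h4
      linarith⟩)
    (fun T hT hP s hs => H T hT (fun t ht => (hP t ht).2.2.2) s hs (by
      have ht := hP s hs
      have h3 : c0 ≤ (⌈c0⌉₊ : ℝ) := Nat.le_ceil c0
      have h4 : ((⌈c0⌉₊ + 4 : ℕ) : ℝ) ≤ (s.2.2 : ℝ) := by exact_mod_cast ht.2.2.1
      push_cast at h4
      linarith)) (κ / 2) (by positivity)
  set δ : ℝ := κ / 2 with hδ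
  refine ⟨δ, by positivity, by linarith, by linarith,
    C + ((Tiny lam δ c1).ncard : ℝ), by positivity, ?_⟩
  intro X hX
  have hX1 : (1 : ℝ) ≤ X := by exact_mod_cast hX
  have hθ0 : 0 ≤ lam / 2 - δ := by linarith
  -- large triples
  set B : Set (ℕ × ℕ × ℕ) := {t | t ∈ Tiny lam δ X ∧ c1 ≤ t.2.2} with hB
  have hBfin : B.Finite := (tiny_finite lam δ X).subset fun t ht => ht.1
  have hsub : Tiny lam δ X ⊆ B ∪ Tiny lam δ c1 := by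
    intro t ht
    by_cases h : c1 ≤ t.2.2
    · exact Or.inl ⟨ht, h⟩
    · right
      push Not at h
      exact ⟨ht.1, h.le, ht.2.2⟩
  have h1 : ((Tiny lam δ X).ncard : ℝ) ≤ (B.ncard : ℝ) + ((Tiny lam δ c1).ncard : ℝ) := by
    have h3 := Set.ncard_le_ncard hsub (hBfin.union (tiny_finite lam δ c1))
    have h4 := Set.ncard_union_le B (Tiny lam δ c1)
    exact_mod_cast h3.trans h4
  have h3 : (B.ncard : ℝ) ≤ C * (X : ℝ) ^ (lam / 2 - κ + κ / 2) := by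
    have h4 := HC X hX hBfin.toFinset (by
      intro t ht
      rw [Set.Finite.mem_toFinset] at ht
      obtain ⟨⟨hab, hcX, hta, htr⟩, hc⟩ := ht
      have hcpos : 4 ≤ t.2.2 := by omega
      have hc1' : (1 : ℝ) ≤ (t.2.2 : ℝ) := by exact_mod_cast (by omega : 1 ≤ t.2.2)
      refine ⟨⟨hab, ?_, hc, ?_, ?_⟩, hcX⟩
      · have h5 : (t.1 : ℝ) ≤ (t.2.2 : ℝ) / 2 := by
          calc (t.1 : ℝ) ≤ (t.2.2 : ℝ) ^ δ := hta
            _ ≤ (t.2.2 : ℝ) ^ (1 / 2 : ℝ) :=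
                Real.rpow_le_rpow_of_exponent_le hc1' (by linarith)
            _ = Real.sqrt t.2.2 := by rw [Real.sqrt_eq_rpow]
            _ ≤ (t.2.2 : ℝ) / 2 := by
                rw [Real.sqrt_le_left (by positivity)]
                have : (4 : ℝ) ≤ (t.2.2 : ℝ) := by exact_mod_cast hcpos
                nlinarith
        have h6 : 2 * t.1 ≤ t.2.2 := by
          have : 2 * (t.1 : ℝ) ≤ (t.2.2 : ℝ) := by linarith
          exact_mod_cast this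
        have h7 := hab.2.2.2.1
        omega
      · exact hta.trans (Real.rpow_le_rpow_of_exponent_le hc1' (by linarith))
      · exact htr.trans (Real.rpow_le_rpow_of_exponent_le hc1' (by linarith)))
    rwa [← Set.ncard_eq_toFinset_card B hBfin] at h4
  have e : lam / 2 - κ + κ / 2 = lam / 2 - δ := by rw [hδ]; ring
  rw [e] at h3
  have h4 : ((Tiny lam δ c1).ncard : ℝ) ≤
      ((Tiny lam δ c1).ncard : ℝ) * (X : ℝ) ^ (lam / 2 - δ) :=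
    le_mul_of_one_le_right (Nat.cast_nonneg _) (Real.one_le_rpow hX1 hθ0)
  calc ((Tiny lam δ X).ncard : ℝ) ≤ (B.ncard : ℝ) + ((Tiny lam δ c1).ncard : ℝ) := h1
    _ ≤ _ := by
        rw [add_mul]
        exact add_le_add h3 h4

theorem count43 : ∃ δ : ℝ, 0 < δ ∧ δ ≤ (4 / 3 : ℝ) / 4 ∧ δ ≤ 1 / 1000 ∧ ∃ C : ℝ, 0 < C ∧
    ∀ X : ℕ, 1 ≤ X → ((Tiny (4 / 3) δ X).ncard : ℝ) ≤ C * (X : ℝ) ^ ((4 / 3 : ℝ) / 2 - δ) := by
  obtain ⟨κ, D, c0, h1, h2, h3, h4, h5, H⟩ := cell_bound43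
  exact count_of_cell (4 / 3) 16 κ D c0 h1 h2 h3 h4 H

end Pool.Agent.H541.SX
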