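import Mathlib
import Pool.Agent.H541.SM.Count
import Pool.Graph.R_seed8.H785R2.ABC.Basics
import Pool.Graph.R_seed8.H785R2.ABC.Bridge

/-!
# Cells of triples `h + M x ^ 3 = M' y ^ 3`, real exponents
-/

namespace Pool.Agent.H541.SX

open Finset Pool.Agent.H541.SM

/-- all the conditions in terms of real exponents -/
theorem card_R (X : ℝ) (hX1 : 1 < X) (hbig : (2 : ℝ) ^ 2000 ≤ X ^ (1 / 100000 : ℝ))
    (ex ey em en : ℝ) (h : ℕ) (hh : (h : ℝ) ≤ X ^ (11 / 100000 : ℝ))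
    (hm1 : 1 - 4 / 100000 ≤ em + 3 * ex) (hm2 : em + 3 * ex ≤ 1 + 4 / 100000)
    (hn1 : 1 - 4 / 100000 ≤ en + 3 * ey) (hn2 : en + 3 * ey ≤ 1 + 4 / 100000)
    (hs : 4917 / 10000 ≤ ex + ey) (hx : ex ≤ 2545 / 10000) (hy : ey ≤ 2545 / 10000)
    (T : Finset (ℕ × ℕ × ℕ × ℕ))
    (hT : ∀ u ∈ T, Dat (2 ^ 34) (X ^ ex) (X ^ ey) (X ^ em) (X ^ en) h u) :
    (T.card : ℝ) ≤ X ^ (4918 / 10000 + 3 / 100000 : ℝ) := by
  have hX0 : 0 < X := by linarith
  have hmul : ∀ a b : ℝ, X ^ a * X ^ b = X ^ (a + b) := fun a b => (Real.rpow_add hX0 a b).symm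
  have hpow : ∀ (a : ℝ) (n : ℕ), (X ^ a) ^ n = X ^ (a * n) := fun a n => by
    rw [← Real.rpow_natCast, ← Real.rpow_mul hX0.le]
  have hdiv : ∀ a b : ℝ, X ^ a / X ^ b = X ^ (a - b) := fun a b => (Real.rpow_sub hX0 a b).symm
  have hmono : ∀ a b : ℝ, a ≤ b → X ^ a ≤ X ^ b := fun a b hab =>
    Real.rpow_le_rpow_of_exponent_le hX1.le hab
  have hlt : ∀ a b : ℝ, a < b → X ^ a < X ^ b := fun a b hab =>
    Real.rpow_lt_rpow_of_exponent_lt hX1 hab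
  have hpos : ∀ a : ℝ, 0 < X ^ a := fun a => Real.rpow_pos_of_pos hX0 a
  have hzero : X ^ (0 : ℝ) = 1 := Real.rpow_zero X
  set e : ℝ := 1 / 100000 with he
  have hQ : ∀ n : ℕ, n ≤ 2000 → (2 : ℝ) ^ n ≤ X ^ e := fun n hn =>
    (pow_le_pow_right₀ (by norm_num) hn).trans hbig
  clear hbig
  -- constants
  have k1 : (240 : ℝ) * (2 ^ 34) ^ 28 ≤ X ^ e := by
    refine le_trans ?_ (hQ 960 (by norm_num))
    calc (240 : ℝ) * (2 ^ 34) ^ 28 ≤ 2 ^ 8 * (2 ^ 34) ^ 28 := by gcongr; norm_num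
      _ = 2 ^ 960 := by rw [← pow_mul, ← pow_add]
  have k2 : (2 : ℝ) * 2 ^ 34 * (174 * (2 ^ 34) ^ 34) ≤ X ^ e := by
    refine le_trans ?_ (hQ (1 + 34 + (8 + 34 * 34)) (by norm_num))
    calc (2 : ℝ) * 2 ^ 34 * (174 * (2 ^ 34) ^ 34) ≤ 2 * 2 ^ 34 * (2 ^ 8 * (2 ^ 34) ^ 34) := by
          gcongr; norm_num
      _ = 2 ^ 1 * 2 ^ 34 * (2 ^ 8 * 2 ^ (34 * 34)) := by rw [← pow_mul, pow_one]
      _ = 2 ^ (1 + 34 + (8 + 34 * 34)) := by rw [← pow_add, ← pow_add, ← pow_add]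
  have k3 : (174 : ℝ) * (2 ^ 34) ^ 34 ≤ X ^ e := by
    refine le_trans ?_ k2
    have : (0 : ℝ) ≤ 174 * (2 ^ 34) ^ 34 := by positivity
    nlinarith
  have k4 : (2 : ℝ) ^ 34 ≤ X ^ e := hQ 34 (by norm_num)
  have k5 : ((2 : ℝ) ^ 34) ^ 3 ≤ X ^ e := by
    rw [← pow_mul]
    exact hQ _ (by norm_num)
  have k6 : (4 : ℝ) * (2 ^ 34) ^ 4 ≤ X ^ e := by
    refine le_trans ?_ (hQ 138 (by norm_num))
    norm_num
  have k7 : (8 : ℝ) ≤ X ^ e := le_trans (by norm_num) (hQ 3 (by norm_num))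
  clear hQ
  set ρ : ℝ := X ^ (-(4918 / 10000) : ℝ) with hρ
  have hρ0 : 0 < ρ := hpos _
  have hρ1 : ρ ≤ 1 := by rw [hρ, ← hzero]; exact hmono _ _ (by norm_num)
  have P0 : X ^ em * X ^ en * X ^ ex * X ^ ey = X ^ (em + en + ex + ey) := by
    rw [hmul, hmul, hmul]
  have P2 : (X ^ em * X ^ en * X ^ ex * X ^ ey) ^ 2 = X ^ ((em + en + ex + ey) * 2) := by
    rw [P0, hpow]; norm_num
  have r2 : ρ ^ 2 = X ^ (-(9836 / 10000) : ℝ) := by rw [hρ, hpow]; norm_num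
  have r3 : ρ ^ 3 = X ^ (-(14754 / 10000) : ℝ) := by rw [hρ, hpow]; norm_num
  have r5 : ρ ^ 5 = X ^ (-(24590 / 10000) : ℝ) := by rw [hρ, hpow]; norm_num
  -- exponents of the box sizes
  let a : Fin 4 → ℝ := ![em + ey, em + ex, en + ey, en + ex]
  have hA : ∀ j, A (X ^ ex) (X ^ ey) (X ^ em) (X ^ en) j = X ^ a j := by
    intro j
    fin_cases j <;>
      simp only [A, a, Fin.zero_eta, Fin.mk_one, Fin.reduceFinMk, Matrix.cons_val] <;>
      rw [hmul]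
  let c : Fin 4 → ℝ := fun j => e + (em + en + ex + ey) * 2 - 14754 / 10000 - a j
  have hCC : ∀ j, CC (2 ^ 34) (X ^ ex) (X ^ ey) (X ^ em) (X ^ en) ρ j ≤ X ^ c j := by
    intro j
    unfold CC
    rw [hA j, P2, r3, div_le_iff₀ (hpos _)]
    calc 174 * (2 ^ 34) ^ 34 * X ^ ((em + en + ex + ey) * 2) * X ^ (-(14754 / 10000) : ℝ)
        ≤ X ^ e * X ^ ((em + en + ex + ey) * 2) * X ^ (-(14754 / 10000) : ℝ) := by gcongr
      _ = X ^ c j * X ^ a j := by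
          rw [hmul, hmul, hmul]; congr 1; simp only [c]; ring
  set ck : ℝ := e + (em + en + 2 * ex + 2 * ey) - 14754 / 10000 with hck
  have hCK : CK (2 ^ 34) (X ^ ex) (X ^ ey) (X ^ em) (X ^ en) ρ ≤ X ^ ck := by
    unfold CK
    have e1 : 2 * 2 ^ 34 * (174 * (2 ^ 34) ^ 34 * (X ^ em * X ^ en * X ^ ex * X ^ ey) ^ 2 * ρ ^ 3) /
        (X ^ em * X ^ en) =
        (2 * 2 ^ 34 * (174 * (2 ^ 34) ^ 34)) * (X ^ em * X ^ en * (X ^ ex) ^ 2 * (X ^ ey) ^ 2) *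
          ρ ^ 3 := by
      have h1 := (hpos em).ne'
      have h2 := (hpos en).ne'
      field_simp
    rw [e1, r3]
    calc (2 * 2 ^ 34 * (174 * (2 ^ 34) ^ 34)) * (X ^ em * X ^ en * (X ^ ex) ^ 2 * (X ^ ey) ^ 2) *
          X ^ (-(14754 / 10000) : ℝ) ≤
        X ^ e * (X ^ em * X ^ en * (X ^ ex) ^ 2 * (X ^ ey) ^ 2) * X ^ (-(14754 / 10000) : ℝ) := by
          gcongr
      _ = X ^ ck := by
          rw [hpow, hpow, hmul, hmul, hmul, hmul, hmul]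
          congr 1
          rw [hck]; push_cast; ring
  have hCK0 := CK_nonneg (l := (2 : ℝ) ^ 34) (x0 := X ^ ex) (y0 := X ^ ey) (hpos em) (hpos en)
    (by norm_num) hρ0.le
  have main := card_all (l := (2 : ℝ) ^ 34) (h := h) (by norm_num) (hpos ex) (hpos ey) (hpos em)
    (hpos en) hρ0 hρ1
    (by
      rw [r2, hpow, hmul, hmul]
      refine hh.trans (hmono _ _ ?_)
      push_cast
      linarith)
    (by
      rw [P2, r5]
      calc 240 * (2 ^ 34) ^ 28 * X ^ ((em + en + ex + ey) * 2) * X ^ (-(24590 / 10000) : ℝ)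
          ≤ X ^ e * X ^ ((em + en + ex + ey) * 2) * X ^ (-(24590 / 10000) : ℝ) := by gcongr
        _ = X ^ (e + (em + en + ex + ey) * 2 + -(24590 / 10000)) := by rw [hmul, hmul]
        _ < X ^ (0 : ℝ) := hlt _ _ (by rw [he]; linarith)
        _ = 1 := hzero)
    (by
      calc 2 ^ 34 * X ^ em ≤ X ^ e * X ^ em := by gcongr
        _ = X ^ (e + em) := hmul _ _
        _ < X ^ (ey * (3 : ℕ)) := hlt _ _ (by rw [he]; push_cast; linarith)
        _ = (X ^ ey) ^ 3 := (hpow _ _).symm)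
    (by
      calc (h : ℝ) * (2 ^ 34) ^ 3 * X ^ ey ≤ X ^ (11 / 100000 : ℝ) * X ^ e * X ^ ey := by gcongr
        _ = X ^ (11 / 100000 + e + ey) := by rw [hmul, hmul]
        _ < X ^ (em + ex * (2 : ℕ)) := hlt _ _ (by rw [he]; push_cast; linarith)
        _ = 1 * (X ^ em * (X ^ ex) ^ 2) := by rw [hpow, hmul, one_mul]
        _ ≤ 3 * (X ^ em * (X ^ ex) ^ 2) := by
            have := mul_pos (hpos em) (pow_pos (hpos ex) 2)
            linarith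
        _ = 3 * X ^ em * (X ^ ex) ^ 2 := by ring)
    (by
      calc CK (2 ^ 34) (X ^ ex) (X ^ ey) (X ^ em) (X ^ en) ρ * h ≤
          X ^ ck * X ^ (11 / 100000 : ℝ) := by
            gcongr
        _ = X ^ (ck + 11 / 100000) := hmul _ _
        _ < X ^ (ex * (4 : ℕ)) := hlt _ _ (by rw [hck, he]; push_cast; linarith)
        _ = (X ^ ex) ^ 4 := (hpow _ _).symm)
    T hT
  refine main.trans ?_
  have t1 : 2 * (((2 : ℝ) ^ 34) ^ 4 / ρ + 1) ≤ X ^ (e + 4918 / 10000) := by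
    have e1 : ((2 : ℝ) ^ 34) ^ 4 / ρ = (2 ^ 34) ^ 4 * X ^ (4918 / 10000 : ℝ) := by
      rw [hρ, Real.rpow_neg hX0.le, div_inv_eq_mul]
    rw [e1]
    have h1 : (1 : ℝ) ≤ (2 ^ 34) ^ 4 * X ^ (4918 / 10000 : ℝ) := by
      have a1 : (1 : ℝ) ≤ (2 ^ 34) ^ 4 := by norm_num
      have b1 : (1 : ℝ) ≤ X ^ (4918 / 10000 : ℝ) := by
        rw [← hzero]; exact hmono _ _ (by norm_num)
      nlinarith
    calc 2 * (((2 : ℝ) ^ 34) ^ 4 * X ^ (4918 / 10000 : ℝ) + 1) ≤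
          (4 * (2 ^ 34) ^ 4) * X ^ (4918 / 10000 : ℝ) := by linarith
      _ ≤ X ^ e * X ^ (4918 / 10000 : ℝ) := by gcongr
      _ = _ := hmul _ _
  have hplus : ∀ (C z : ℝ), 0 ≤ C → C ≤ X ^ z → 2 * C + 1 ≤ X ^ (e + max z 0) := by
    intro C z hC hCz
    have h1 : C ≤ X ^ max z 0 := hCz.trans (hmono _ _ (le_max_left _ _))
    have h2 : (1 : ℝ) ≤ X ^ max z 0 := by rw [← hzero]; exact hmono _ _ (le_max_right _ _)
    calc 2 * C + 1 ≤ 8 * X ^ max z 0 := by linarith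
      _ ≤ X ^ e * X ^ max z 0 := by gcongr
      _ = _ := hmul _ _
  have hCC0 : ∀ j, 0 ≤ CC (2 ^ 34) (X ^ ex) (X ^ ey) (X ^ em) (X ^ en) ρ j := fun j =>
    CC_nonneg (hpos ex) (hpos ey) (hpos em) (hpos en) (by norm_num) hρ0.le j
  have t2 : ∏ j, (2 * CC (2 ^ 34) (X ^ ex) (X ^ ey) (X ^ em) (X ^ en) ρ j + 1) ≤
      X ^ (∑ j, (e + max (c j) 0)) := by
    rw [Real.rpow_sum_of_pos hX0]
    apply prod_le_prod
    · intro j _
      have := hCC0 j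
      linarith
    · exact fun j _ => hplus _ _ (hCC0 j) (hCC j)
  have t3 : 2 * CK (2 ^ 34) (X ^ ex) (X ^ ey) (X ^ em) (X ^ en) ρ + 1 ≤ X ^ (e + max ck 0) :=
    hplus _ _ hCK0 hCK
  have t4 : 2 ^ 34 * X ^ ex ≤ X ^ (e + ex) := by
    calc 2 ^ 34 * X ^ ex ≤ X ^ e * X ^ ex := by gcongr
      _ = _ := hmul _ _
  have t5 : 4 * ((∏ j, (2 * CC (2 ^ 34) (X ^ ex) (X ^ ey) (X ^ em) (X ^ en) ρ j + 1)) *
      ((2 * CK (2 ^ 34) (X ^ ex) (X ^ ey) (X ^ em) (X ^ en) ρ + 1) * (2 ^ 34 * X ^ ex))) ≤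
      X ^ (4918 / 10000 + 2 / 100000 : ℝ) := by
    calc 4 * ((∏ j, (2 * CC (2 ^ 34) (X ^ ex) (X ^ ey) (X ^ em) (X ^ en) ρ j + 1)) *
      ((2 * CK (2 ^ 34) (X ^ ex) (X ^ ey) (X ^ em) (X ^ en) ρ + 1) * (2 ^ 34 * X ^ ex))) ≤
        X ^ e * (X ^ (∑ j, (e + max (c j) 0)) * (X ^ (e + max ck 0) * X ^ (e + ex))) := by
          have n1 : 0 ≤ ∏ j, (2 * CC (2 ^ 34) (X ^ ex) (X ^ ey) (X ^ em) (X ^ en) ρ j + 1) :=
            prod_nonneg fun j _ => by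
              have := hCC0 j
              linarith
          have n2 : 0 ≤ 2 * CK (2 ^ 34) (X ^ ex) (X ^ ey) (X ^ em) (X ^ en) ρ + 1 := by linarith
          have n3 : (4 : ℝ) ≤ X ^ e := by linarith
          gcongr
      _ = X ^ (e + (∑ j, (e + max (c j) 0) + (e + max ck 0 + (e + ex)))) := by
          rw [hmul, hmul, hmul]
      _ ≤ _ := by
          apply hmono
          have hsum : ∑ j, (e + max (c j) 0) = (e + max (c 0) 0) + (e + max (c 1) 0) +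
              (e + max (c 2) 0) + (e + max (c 3) 0) := by
            rw [Fin.sum_univ_four]
          rw [hsum]
          have c0 : c 0 = e + (em + en + ex + ey) * 2 - 14754 / 10000 - (em + ey) := rfl
          have c1 : c 1 = e + (em + en + ex + ey) * 2 - 14754 / 10000 - (em + ex) := rfl
          have c2 : c 2 = e + (em + en + ex + ey) * 2 - 14754 / 10000 - (en + ey) := rfl
          have c3' : c 3 = e + (em + en + ex + ey) * 2 - 14754 / 10000 - (en + ex) := rfl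
          rcases max_choice (c 0) 0 with m0 | m0 <;> rcases max_choice (c 1) 0 with m1 | m1 <;>
            rcases max_choice (c 2) 0 with m2 | m2 <;> rcases max_choice (c 3) 0 with m3 | m3 <;>
            rcases max_choice ck 0 with m4 | m4 <;>
            (rw [m0, m1, m2, m3, m4]; linarith)
  calc _ ≤ X ^ (e + 4918 / 10000) + X ^ (4918 / 10000 + 2 / 100000 : ℝ) := add_le_add t1 t5
    _ ≤ X ^ (4918 / 10000 + 2 / 100000 : ℝ) + X ^ (4918 / 10000 + 2 / 100000 : ℝ) := by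
        have := hmono (e + 4918 / 10000) (4918 / 10000 + 2 / 100000 : ℝ) (by rw [he]; norm_num)
        linarith
    _ = 2 * X ^ (4918 / 10000 + 2 / 100000 : ℝ) := by ring
    _ ≤ X ^ e * X ^ (4918 / 10000 + 2 / 100000 : ℝ) := by
        have n3 : (2 : ℝ) ≤ X ^ e := by linarith
        gcongr
    _ = X ^ (4918 / 10000 + 3 / 100000 : ℝ) := by
        rw [hmul, he]; congr 1; norm_num

end Pool.Agent.H541.SX
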