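import Mathlib
import Pool.Agent.H541.SX.RCell
import Pool.Agent.H541.SM.TypeCell2

/-!
# Cells with two large classes of exponent three: explicit bound
-/

namespace Pool.Agent.H541.SX

open Finset Pool.Agent.H785R2.ABC Pool.Agent.H541.SM

theorem cellX : ∃ c0 : ℝ, ∀ T : Finset (ℕ × ℕ × ℕ), Cell 16 T → ∀ s ∈ T, c0 ≤ (s.2.2 : ℝ) →
    49175 / 100000 ≤ expV 16 s 1 c3 + expV 16 s 2 c3 →
    expV 16 s 1 c3 ≤ 2542 / 10000 → expV 16 s 2 c3 ≤ 2542 / 10000 →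
    (∀ t ∈ T, (t.1 : ℝ) ≤ (t.2.2 : ℝ) ^ (1 / 10000 : ℝ)) →
    (T.card : ℝ) ≤ (s.2.2 : ℝ) ^ (49195 / 100000 : ℝ) := by
  classical
  refine ⟨((2 : ℝ) ^ 2000) ^ 100000, ?_⟩
  intro T hT s hs hc0 hsum hv1 hv2 ha
  set X : ℝ := (s.2.2 : ℝ) with hX
  have habc := hT.abc s hs
  have hX2 : (2 : ℝ) ≤ X := by
    have := Bridge.two_le_c habc
    rw [hX]; exact_mod_cast this
  have hX0 : 0 < X := lt_of_lt_of_le two_pos hX2
  have hX1 : 1 < X := lt_of_lt_of_le one_lt_two hX2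
  have hlogX : 0 < Real.log X := Real.log_pos hX1
  have hbig : (2 : ℝ) ^ 2000 ≤ X ^ (1 / 100000 : ℝ) := by
    have h1 : ((2 : ℝ) ^ 2000) = (((2 : ℝ) ^ 2000) ^ 100000) ^ (1 / 100000 : ℝ) := by
      rw [← Real.rpow_natCast ((2 : ℝ) ^ 2000) 100000, ← Real.rpow_mul (by positivity)]
      norm_num
    rw [h1]
    exact Real.rpow_le_rpow (by positivity) hc0 (by norm_num)
  clear hc0
  have hmul : ∀ a b : ℝ, X ^ a * X ^ b = X ^ (a + b) := fun a b => (Real.rpow_add hX0 a b).symm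
  have hdiv : ∀ a b : ℝ, X ^ a / X ^ b = X ^ (a - b) := fun a b => (Real.rpow_sub hX0 a b).symm
  have hmono : ∀ a b : ℝ, a ≤ b → X ^ a ≤ X ^ b := fun a b hab =>
    Real.rpow_le_rpow_of_exponent_le hX1.le hab
  have hpos : ∀ a : ℝ, 0 < X ^ a := fun a => Real.rpow_pos_of_pos hX0 a
  -- the constant
  set τ : ℝ := Real.log (2 ^ 17) / Real.log X with hτ
  have hτX : X ^ τ = 2 ^ 17 := by
    rw [hτ]
    exact Bridge.rpow_log_div hX1 (show (0 : ℝ) < 2 ^ 17 by positivity)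
  have hτ0 : 0 ≤ τ := div_nonneg (Real.log_nonneg (by norm_num)) hlogX.le
  have hτ1 : τ ≤ 1 / 1000000 := by
    rw [hτ, div_le_iff₀ hlogX]
    have h1 : Real.log ((2 : ℝ) ^ 170) ≤ Real.log (X ^ (1 / 100000 : ℝ)) := by
      apply Real.log_le_log (by positivity)
      exact (pow_le_pow_right₀ (by norm_num) (by norm_num : 170 ≤ 2000)).trans hbig
    rw [Real.log_rpow hX0, Real.log_pow] at h1
    rw [Real.log_pow]
    push_cast at h1 ⊢
    linarith
  -- exponents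
  have ex_of : ∀ a : ℝ, 0 < a → a = X ^ (Real.log a / Real.log X) := fun a ha =>
    (Bridge.rpow_log_div hX1 ha).symm
  have size : ∀ j : Fin 3, (rd 16 (num s j) {c3} : ℝ) = X ^ expV 16 s j c3 := by
    intro j
    have hpos : (0 : ℝ) < (rd 16 (num s j) {c3} : ℝ) := by
      exact_mod_cast basics.rd_pos 16 (num s j) {c3}
    rw [expV, Bridge.rpow_log_div hX1 hpos]
  have x1 := size 1
  have y1 := size 2
  have n1 : num s 1 = s.2.1 := rfl
  have n2 : num s 2 = s.2.2 := rfl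
  rw [n1] at x1
  rw [n2] at y1
  obtain ⟨ha0, hb0, hcc0, hab, hco1, hco2, hco3⟩ := habc
  have hle := hT.le s hs
  have eb : (part 16 s.2.1 {c3}ᶜ : ℝ) * (rd 16 s.2.1 {c3} : ℝ) ^ 3 = s.2.1 := by
    exact_mod_cast quad_eq hb0
  have ec : (part 16 s.2.2 {c3}ᶜ : ℝ) * (rd 16 s.2.2 {c3} : ℝ) ^ 3 = s.2.2 := by
    exact_mod_cast quad_eq hcc0
  set v1 : ℝ := expV 16 s 1 c3 with hv1d
  set v2 : ℝ := expV 16 s 2 c3 with hv2d
  set xs : ℝ := (rd 16 s.2.1 {c3} : ℝ) with hxs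
  set ys : ℝ := (rd 16 s.2.2 {c3} : ℝ) with hys
  set Ms : ℝ := (part 16 s.2.1 {c3}ᶜ : ℝ) with hMs
  set Ns : ℝ := (part 16 s.2.2 {c3}ᶜ : ℝ) with hNs
  have hMs0 : 0 < Ms := by
    rw [hMs]; exact_mod_cast basics.part_pos 16 s.2.1 {c3}ᶜ
  have hNs0 : 0 < Ns := by
    rw [hNs]; exact_mod_cast basics.part_pos 16 s.2.2 {c3}ᶜ
  obtain ⟨m1, hm1⟩ : ∃ m : ℝ, Ms = X ^ m := ⟨_, ex_of Ms hMs0⟩
  obtain ⟨m2, hm2⟩ : ∃ m : ℝ, Ns = X ^ m := ⟨_, ex_of Ns hNs0⟩
  have hb1 : (s.2.1 : ℝ) ≤ X := by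
    rw [hX]; exact_mod_cast (by omega : s.2.1 ≤ s.2.2)
  have hb2 : X ≤ 2 * (s.2.1 : ℝ) := by
    rw [hX]; exact_mod_cast (by omega : s.2.2 ≤ 2 * s.2.1)
  have cube : ∀ v : ℝ, (X ^ v) ^ 3 = X ^ (3 * v) := fun v => by
    rw [← Real.rpow_natCast, ← Real.rpow_mul hX0.le]
    congr 1
    push_cast; ring
  have hpowle : ∀ a b : ℝ, X ^ a ≤ X ^ b → a ≤ b := fun a b h =>
    (Real.rpow_le_rpow_left_iff hX1).1 h
  have e1 : m1 + 3 * v1 ≤ 1 := by
    apply hpowle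
    rw [← hmul, ← cube, ← hm1, ← x1, eb, Real.rpow_one]
    exact hb1
  have e1' : 1 - τ ≤ m1 + 3 * v1 := by
    apply hpowle
    rw [← hmul m1, ← cube, ← hm1, ← x1, eb, ← hdiv, Real.rpow_one, hτX, div_le_iff₀ (by positivity)]
    have : (0 : ℝ) ≤ s.2.1 := Nat.cast_nonneg _
    linarith
  have e2 : m2 + 3 * v2 = 1 := by
    apply le_antisymm
    · apply hpowle
      rw [← hmul, ← cube, ← hm2, ← y1, ec, Real.rpow_one]
    · apply hpowle
      rw [← hmul, ← cube, ← hm2, ← y1, ec, Real.rpow_one]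
  -- the small member
  have hh : ∀ t ∈ T, (t.1 : ℝ) ≤ X ^ (11 / 100000 : ℝ) := by
    intro t ht
    have h1 : (t.2.2 : ℝ) ≤ 2 ^ 17 * X := by
      have h2 := hT.part_le t ht s hs 2 univ
      have h3 : 1 ≤ num t 2 := Bridge.num_pos (hT.abc t ht) 2
      rw [basics.part_univ 16 _ h3, basics.part_univ 16 _ (by rw [n2]; exact hcc0)] at h2
      have h4 : num t 2 = t.2.2 := rfl
      rw [h4, n2] at h2
      rw [hX]
      exact_mod_cast h2
    calc (t.1 : ℝ) ≤ (t.2.2 : ℝ) ^ (1 / 10000 : ℝ) := ha t ht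
      _ ≤ (2 ^ 17 * X) ^ (1 / 10000 : ℝ) :=
          Real.rpow_le_rpow (Nat.cast_nonneg _) h1 (by norm_num)
      _ = (X ^ (τ + 1)) ^ (1 / 10000 : ℝ) := by rw [← hτX, ← hmul, Real.rpow_one]
      _ = X ^ ((τ + 1) * (1 / 10000)) := by rw [← Real.rpow_mul hX0.le]
      _ ≤ X ^ (11 / 100000 : ℝ) := hmono _ _ (by linarith)
  -- the box
  have bx : xs / 2 ^ 17 = X ^ (v1 - τ) := by rw [← hdiv, ← x1, hτX]
  have by' : ys / 2 ^ 17 = X ^ (v2 - τ) := by rw [← hdiv, ← y1, hτX]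
  have bM : Ms / 2 ^ 17 = X ^ (m1 - τ) := by rw [← hdiv, ← hm1, hτX]
  have bN : Ns / 2 ^ 17 = X ^ (m2 - τ) := by rw [← hdiv, ← hm2, hτX]
  -- the points
  have hdat : ∀ t ∈ T, Dat (2 ^ 34) (X ^ (v1 - τ)) (X ^ (v2 - τ)) (X ^ (m1 - τ)) (X ^ (m2 - τ)) t.1
      (quad t) := by
    intro t ht
    rw [← bx, ← by', ← bM, ← bN]
    obtain ⟨ta, tb, tc, tabc, tco1, tco2, tco3⟩ := hT.abc t ht
    have r1 := hT.rd_le t ht s hs 1 {c3}
    have r2 := hT.rd_le s hs t ht 1 {c3}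
    have r3 := hT.rd_le t ht s hs 2 {c3}
    have r4 := hT.rd_le s hs t ht 2 {c3}
    have r5 := hT.part_le t ht s hs 1 {c3}ᶜ
    have r6 := hT.part_le s hs t ht 1 {c3}ᶜ
    have r7 := hT.part_le t ht s hs 2 {c3}ᶜ
    have r8 := hT.part_le s hs t ht 2 {c3}ᶜ
    have m1 : num t 1 = t.2.1 := rfl
    have m2 : num t 2 = t.2.2 := rfl
    rw [m1, n1] at r1 r2 r5 r6
    rw [m2, n2] at r3 r4 r7 r8
    have up : ∀ a b : ℕ, a ≤ 2 ^ (16 + 1) * b → (a : ℝ) ≤ 2 ^ 34 * ((b : ℝ) / 2 ^ 17) := by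
      intro a b hab
      have h1 : (a : ℝ) ≤ 2 ^ (16 + 1) * b := by exact_mod_cast hab
      calc (a : ℝ) ≤ 2 ^ (16 + 1) * b := h1
        _ = 2 ^ 34 * ((b : ℝ) / 2 ^ 17) := by ring
    have lo : ∀ a b : ℕ, b ≤ 2 ^ (16 + 1) * a → (b : ℝ) / 2 ^ 17 ≤ a := by
      intro a b hab
      have h1 : (b : ℝ) ≤ 2 ^ (16 + 1) * a := by exact_mod_cast hab
      rw [div_le_iff₀ (by positivity)]
      calc (b : ℝ) ≤ 2 ^ (16 + 1) * a := h1
        _ = a * 2 ^ 17 := by ring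
    refine ⟨?_, ?_, ?_, lo _ _ r6, up _ _ r5, lo _ _ r2, up _ _ r1, lo _ _ r8, up _ _ r7,
      lo _ _ r4, up _ _ r3⟩
    · simp only [quad]
      rw [quad_eq tb, quad_eq tc]
      omega
    · simp only [quad]
      exact Nat.Coprime.coprime_dvd_left (basics.part_dvd 16 _ _ tb)
        (Nat.Coprime.coprime_dvd_right (basics.part_dvd 16 _ _ tc) tco3)
    · simp only [quad]
      have d1 : rd 16 t.2.1 {c3} ∣ t.2.1 :=
        (dvd_pow_self _ (by norm_num : 3 ≠ 0)).trans (Dvd.intro_left _ (quad_eq tb))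
      have d2 : rd 16 t.2.2 {c3} ∣ t.2.2 :=
        (dvd_pow_self _ (by norm_num : 3 ≠ 0)).trans (Dvd.intro_left _ (quad_eq tc))
      exact Nat.Coprime.coprime_dvd_left d1 (Nat.Coprime.coprime_dvd_right d2 tco3)
  set F : ℝ := 4918 / 10000 + 3 / 100000 with hF
  have hcard : T.card ≤ ⌊X ^ F⌋₊ * (Icc 1 ⌊X ^ (11 / 100000 : ℝ)⌋₊).card := by
    apply card_le_mul_card_image_of_maps_to (f := fun t => t.1)
    · intro t ht
      rw [mem_Icc]
      exact ⟨(hT.abc t ht).1, Nat.le_floor (hh t ht)⟩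
    · intro h hh'
      apply Nat.le_floor
      rcases (T.filter fun t => t.1 = h).eq_empty_or_nonempty with h0 | ⟨t0, ht0⟩
      · rw [h0]
        simp only [card_empty, Nat.cast_zero]
        positivity
      · have hinj : Set.InjOn quad ((T.filter fun t => t.1 = h : Finset (ℕ × ℕ × ℕ)) :
            Set (ℕ × ℕ × ℕ)) := by
          intro t ht t' ht' he
          rw [mem_coe, mem_filter] at ht ht'
          have b1 := quad_eq (hT.abc t ht.1).2.1
          have b2 := quad_eq (hT.abc t' ht'.1).2.1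
          have d1 := quad_eq (hT.abc t ht.1).2.2.1
          have d2 := quad_eq (hT.abc t' ht'.1).2.2.1
          simp only [quad, Prod.mk.injEq] at he
          obtain ⟨g1, g2, g3, g4⟩ := he
          rw [g1, g2] at b1
          rw [g3, g4] at d1
          refine Prod.ext (ht.2.trans ht'.2.symm) (Prod.ext (b1.symm.trans b2) (d1.symm.trans d2))
        have hcq := card_R X hX1 hbig (v1 - τ) (v2 - τ) (m1 - τ) (m2 - τ) h
          (by
            have := mem_filter.1 ht0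
            rw [← this.2]
            exact hh t0 this.1)
          (by linarith) (by linarith) (by linarith) (by linarith) (by linarith) (by linarith)
          (by linarith)
          ((T.filter fun t => t.1 = h).image quad)
          (by
            intro u hu
            rw [mem_image] at hu
            obtain ⟨t, ht, rfl⟩ := hu
            rw [mem_filter] at ht
            have := hdat t ht.1
            rw [ht.2] at this
            exact this)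
        rwa [card_image_of_injOn hinj] at hcq
  have hc1 : (T.card : ℝ) ≤ (⌊X ^ F⌋₊ : ℝ) *
      ((Icc 1 ⌊X ^ (11 / 100000 : ℝ)⌋₊).card : ℝ) := by
    exact_mod_cast hcard
  rw [Nat.card_Icc, Nat.add_sub_cancel] at hc1
  calc (T.card : ℝ) ≤ (⌊X ^ F⌋₊ : ℝ) * (⌊X ^ (11 / 100000 : ℝ)⌋₊ : ℝ) := hc1
    _ ≤ X ^ F * X ^ (11 / 100000 : ℝ) := by
        gcongr
        · exact Nat.floor_le (hpos _).le
        · exact Nat.floor_le (hpos _).le
    _ = X ^ (F + 11 / 100000) := hmul _ _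
    _ ≤ X ^ (49195 / 100000 : ℝ) := hmono _ _ (by rw [hF]; norm_num)

end Pool.Agent.H541.SX
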