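import Mathlib
import Pool.Agent.H541.SM.Exact2
import Pool.Agent.H541.SM.TypeCell2

/-!
# The configurations without a saving of `0.00825`, for `lam = 1`: an explicit form
-/

namespace Pool.Agent.H541.SX

open Finset Pool.Agent.H785R2.ABC Pool.Agent.H541.SM

/-- only configurations with two large classes of exponent three have no saving -/
theorem cls {v w : Fin 3 → Fin (16 + 1) → ℝ} (hP : Poly 16 (1 + 1 / 10000) (1 / 10000) v w)
    (hw0 : cost w 0 univ ≤ 1 / 10000)
    (hN : ∀ b : Par 16, b.Valid → 49175 / 100000 < b.f1 v ∨ 49175 / 100000 < b.f2 v w) :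
    49175 / 100000 < v 1 c3 + v 2 c3 ∧ v 1 c3 ≤ 2542 / 10000 ∧ v 2 c3 ≤ 2542 / 10000 := by
  classical
  have hnn := hP.v_nonneg
  have wge : ∀ (j : Fin 3) (i : Fin (16 + 1)), (((i : ℕ) : ℝ) + 1) * v j i ≤ w j i := by
    intro j i
    by_cases hi : (i : ℕ) < 16
    · exact (hP.w_eq j i hi).ge
    · have : i = Fin.last 16 := by
        apply Fin.ext
        have := i.isLt
        simp only [Fin.val_last]
        omega
      subst this
      simpa using hP.w_last j
  have wnn : ∀ j i, 0 ≤ w j i := fun j i => le_trans (mul_nonneg (by positivity) (hnn j i)) (wge j i)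
  have W0 : 0 ≤ cost w 0 univ := sum_nonneg fun i _ => wnn 0 i
  have V0 : 0 ≤ cost v 0 univ := sum_nonneg fun i _ => hnn 0 i
  have htot := hP.tot
  have hW : ∀ j : Fin 3, j ≠ 0 → cost w j univ ≤ 1 ∧ 1 - 1 / 10000 ≤ cost w j univ := by
    intro j hj
    fin_cases j
    · exact absurd rfl hj
    · exact ⟨hP.w1, hP.w1'⟩
    · exact ⟨hP.w2, hP.w2'⟩
  -- the trivial bound
  have triv : ∀ p q : Fin 3, p ≠ q → p ≠ 0 → q ≠ 0 → 49165 / 100000 < cost v q univ := by
    intro p q hpq hp hq
    have h := hN ⟨p, q, 0, 1, univ, ∅, ∅⟩ ⟨hpq, hq, hp, le_rfl, by simp, good_one _, good_one _⟩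
    have h1 := (hW p hp).1
    simp only [Par.f1, Par.f2, thn, cost_compl, cost_empty, if_true, Nat.cast_one, cost_empty] at h
    rcases h with h | h <;> linarith
  have mu1 := triv 2 1 (by decide) (by decide) (by decide)
  have mu2 := triv 1 2 (by decide) (by decide) (by decide)
  have hmu : ∀ p q : Fin 3, p ≠ q → p ≠ 0 → q ≠ 0 →
      cost v 0 univ + cost v p univ + cost v q univ ≤ 1 + 1 / 10000 := by
    intro p q hpq hp hq
    fin_cases p <;> fin_cases q <;>
      simp only [Fin.zero_eta, Fin.mk_one, Fin.reduceFinMk, ne_eq, not_true_eq_false] at * <;>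
      linarith
  -- roots
  have root' : ∀ p q : Fin 3, p ≠ q → p ≠ 0 → q ≠ 0 → ∀ i : Fin (16 + 1), (i : ℕ) < 16 →
      ∀ F : Finset (Fin (16 + 1)),
      v p i < cost v q F + 167 / 10000 ∨ cost w q F - cost v q F < 167 / 10000 := by
    intro p q hpq hp hq i hi F
    have h := hN ⟨p, 0, q, (i : ℕ) + 1, {i}, ∅, F⟩
      ⟨hp, hq.symm, hpq, by simp, by show (i : ℕ) + 1 ≤ 16 + 1; omega, good_single i hi, good_empty _⟩
    have e : w p i / (((i : ℕ) : ℝ) + 1) = v p i := by
      rw [hP.w_eq p i hi]
      field_simp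
    have h1 := hmu p q hpq hp hq
    have h2 := triv p q hpq hp hq
    simp only [Par.f1, Par.f2, thn, cost_compl, cost_empty, cost_single, if_neg hq,
      Nat.cast_add, Nat.cast_one, add_zero, e] at h
    rcases h with h | h
    · left; linarith
    · right; linarith
  -- the decomposition
  let R : Finset (Fin (16 + 1)) := univ.filter fun i => 4 ≤ (i : ℕ)
  have hRc : (univ.filter fun i : Fin (16 + 1) => ¬ 4 ≤ (i : ℕ)) = {0, 1, 2, 3} := by decide
  have dec : ∀ (f : Fin 3 → Fin (16 + 1) → ℝ) (j : Fin 3),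
      cost f j univ = cost f j R + (f j 0 + (f j 1 + (f j 2 + f j 3))) := by
    intro f j
    unfold cost
    rw [← sum_filter_add_sum_filter_not univ (fun i : Fin (16 + 1) => 4 ≤ (i : ℕ)) (f j), hRc]
    congr 1
    rw [sum_insert (by decide), sum_insert (by decide), sum_insert (by decide), sum_singleton]
  have hw : ∀ j : Fin 3, w j 0 = v j 0 ∧ w j 1 = 2 * v j 1 ∧ w j 2 = 3 * v j 2 ∧
      w j 3 = 4 * v j 3 := by
    intro j
    have g0 := hP.w_eq j 0 (by decide)
    have g1 := hP.w_eq j 1 (by decide)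
    have g2 := hP.w_eq j 2 (by decide)
    have g3 := hP.w_eq j 3 (by decide)
    have n0 : (((0 : Fin (16 + 1)) : ℕ) : ℝ) = 0 := by norm_num
    have n1 : (((1 : Fin (16 + 1)) : ℕ) : ℝ) = 1 := by norm_num
    have n2 : (((2 : Fin (16 + 1)) : ℕ) : ℝ) = 2 := by
      have : ((2 : Fin (16 + 1)) : ℕ) = 2 := rfl
      rw [this]; norm_num
    have n3 : (((3 : Fin (16 + 1)) : ℕ) : ℝ) = 3 := by
      have : ((3 : Fin (16 + 1)) : ℕ) = 3 := rfl
      rw [this]; norm_num
    rw [n0] at g0; rw [n1] at g1; rw [n2] at g2; rw [n3] at g3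
    refine ⟨by linarith, by linarith, by linarith, by linarith⟩
  have hRv : ∀ j : Fin 3, 0 ≤ cost v j R ∧ 5 * cost v j R ≤ cost w j R := by
    intro j
    refine ⟨sum_nonneg fun i _ => hnn j i, ?_⟩
    unfold cost
    rw [mul_sum]
    apply sum_le_sum
    intro i hi
    have h4 : 4 ≤ (i : ℕ) := (mem_filter.1 hi).2
    have h4' : (4 : ℝ) ≤ ((i : ℕ) : ℝ) := by exact_mod_cast h4
    have := wge j i
    have := hnn j i
    nlinarith
  have wmv : ∀ (j : Fin 3) (F : Finset (Fin (16 + 1))), (∀ i ∈ F, 1 ≤ (i : ℕ)) →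
      cost v j F ≤ cost w j F - cost v j F := by
    intro j F hF
    have : 2 * cost v j F ≤ cost w j F := by
      unfold cost
      rw [mul_sum]
      apply sum_le_sum
      intro i hi
      have h1 : (1 : ℝ) ≤ ((i : ℕ) : ℝ) := by exact_mod_cast hF i hi
      have := wge j i
      have := hnn j i
      nlinarith
    linarith
  -- the mass of the first classes
  have mass' : ∀ p q : Fin 3, p ≠ q → p ≠ 0 → q ≠ 0 →
      9666 / 10000 < 3 * v q 0 + 2 * v q 1 + v q 2 := by
    intro p q hpq hp hq
    have h1 := triv p q hpq hp hq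
    have h2 := (hW q hq).1
    have h3 := dec v q
    have h4 := dec w q
    obtain ⟨g0, g1, g2, g3⟩ := hw q
    obtain ⟨r0, r1⟩ := hRv q
    rw [g0, g1, g2, g3] at h4
    have := hnn q 3
    linarith
  -- there is a large class
  have big : ∀ p q : Fin 3, p ≠ q → p ≠ 0 → q ≠ 0 →
      ∃ i : Fin (16 + 1), (i : ℕ) < 16 ∧ 16 / 100 < v q i := by
    intro p q hpq hp hq
    have h1 := mass' p q hpq hp hq
    by_contra hcon
    push Not at hcon
    have a0 := hcon 0 (by decide)
    have a1 := hcon 1 (by decide)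
    have a2 := hcon 2 (by decide)
    linarith
  -- light classes
  have light : ∀ p q : Fin 3, p ≠ q → p ≠ 0 → q ≠ 0 → ∀ F : Finset (Fin (16 + 1)),
      (∀ i ∈ F, 1 ≤ (i : ℕ) ∧ w q i - v q i < 167 / 10000) →
      cost w q F - cost v q F < 167 / 10000 := by
    intro p q hpq hp hq F
    obtain ⟨k, hk, hkv⟩ := big q p hpq.symm hq hp
    induction F using Finset.induction_on with
    | empty =>
      intro _
      rw [cost_empty, cost_empty]
      norm_num
    | insert a F ha ih =>
      intro h
      have h1 := ih fun i hi => h i (mem_insert_of_mem hi)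
      have h2 := h a (mem_insert_self a F)
      have e1 : cost w q (insert a F) = w q a + cost w q F := by
        unfold cost; rw [sum_insert ha]
      have e2 : cost v q (insert a F) = v q a + cost v q F := by
        unfold cost; rw [sum_insert ha]
      have h3 := wmv q (insert a F) fun i hi => (h i hi).1
      rcases root' p q hpq hp hq k hk (insert a F) with h4 | h4
      · exfalso
        linarith
      · exact h4
  have rest : ∀ p q : Fin 3, p ≠ q → p ≠ 0 → q ≠ 0 →
      cost w q R - cost v q R < 167 / 10000 := by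
    intro p q hpq hp hq
    obtain ⟨k, hk, hkv⟩ := big q p hpq.symm hq hp
    apply light p q hpq hp hq
    intro i hi
    have h4 : 4 ≤ (i : ℕ) := (mem_filter.1 hi).2
    refine ⟨by omega, ?_⟩
    rcases root' p q hpq hp hq k hk {i} with h5 | h5
    · exfalso
      rw [cost_single] at h5
      have h4' : (4 : ℝ) ≤ ((i : ℕ) : ℝ) := by exact_mod_cast h4
      have h6 : w q i - v q i ≤ cost w q univ - cost v q univ := by
        have e1 : cost w q univ - cost v q univ = ∑ x, (w q x - v q x) := by
          unfold cost; rw [sum_sub_distrib]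
        rw [e1]
        apply single_le_sum (f := fun x => w q x - v q x) _ (mem_univ i)
        intro x _
        have a1 := wge q x
        have a2 := hnn q x
        have a3 : (0 : ℝ) ≤ ((x : ℕ) : ℝ) := Nat.cast_nonneg _
        show 0 ≤ w q x - v q x
        nlinarith
      have h7 := wge q i
      have h8 := hnn q i
      have h9 : 4 * v q i ≤ w q i - v q i := by nlinarith
      have h10 := (hW q hq).1
      have h11 := triv p q hpq hp hq
      linarith
    · rwa [cost_single, cost_single] at h5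
  -- the dichotomy
  have dich : ∀ p q : Fin 3, p ≠ q → p ≠ 0 → q ≠ 0 → ∀ j : Fin (16 + 1), (j : ℕ) < 16 →
      (((j : ℕ) : ℝ) * v q j < 167 / 10000) ∨ (v p 0 < v q j + 167 / 10000 ∧
        v p 1 < v q j + 167 / 10000 ∧ v p 2 < v q j + 167 / 10000 ∧
        v p 3 < v q j + 167 / 10000) := by
    intro p q hpq hp hq j hj
    by_cases h : ((j : ℕ) : ℝ) * v q j < 167 / 10000
    · exact Or.inl h
    · right
      have e : w q j - v q j = ((j : ℕ) : ℝ) * v q j := by rw [hP.w_eq q j hj]; ring
      have key : ∀ i : Fin (16 + 1), (i : ℕ) < 16 → v p i < v q j + 167 / 10000 := by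
        intro i hi
        rcases root' p q hpq hp hq i hi {j} with h1 | h1
        · rwa [cost_single] at h1
        · rw [cost_single, cost_single, e] at h1
          exact absurd h1 h
      exact ⟨key 0 (by decide), key 1 (by decide), key 2 (by decide), key 3 (by decide)⟩
  -- Pell
  have pell' : v 1 1 + v 2 1 < 5084 / 10000 := by
    have h := hN ⟨1, 2, 0, 2, {1}, {1}, ∅⟩
      ⟨show (1 : Fin 3) ≠ 2 by decide, show (2 : Fin 3) ≠ 0 by decide,
        show (1 : Fin 3) ≠ 0 by decide, by norm_num, by norm_num,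
        by intro j hj; rw [mem_singleton] at hj; subst hj; exact Or.inr ⟨by decide, by decide⟩,
        by intro j hj; rw [mem_singleton] at hj; subst hj; exact Or.inr ⟨by decide, by decide⟩⟩
    have e1 := (hw 1).2.1
    have e2 := (hw 2).2.1
    simp only [Par.f1, Par.f2, thn, cost_compl, cost_empty, cost_single, if_true, e1, e2] at h
    push_cast at h
    have a1 := hnn 1 1
    have a2 := hnn 2 1
    rcases h with h | h <;> linarith
  -- Chinese remainder theorem
  have crt' : 49175 / 100000 < v 1 2 + v 2 2 ∨ 2 * (v 1 2 + v 2 2) < 5084 / 10000 := by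
    have h := hN ⟨1, 2, 0, 1, {2}ᶜ, {2}ᶜ, ∅⟩
      ⟨show (1 : Fin 3) ≠ 2 by decide, show (2 : Fin 3) ≠ 0 by decide,
        show (1 : Fin 3) ≠ 0 by decide, by simp, by simp, good_one _, good_one _⟩
    have e1 := (hw 1).2.2.1
    have e2 := (hw 2).2.2.1
    have W1 := (hW 1 (by decide)).1
    have W2 := (hW 2 (by decide)).1
    simp only [Par.f1, Par.f2, thn, compl_compl, cost_empty, cost_compl w, cost_single, if_true,
      Nat.cast_one, e1, e2] at h
    rcases h with h | h
    · left; linarith
    · right; linarith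
  have i2 : (c3 : Fin (16 + 1)) = 2 := rfl
  rw [i2]
  have s1 := dec v 1
  have s2 := dec v 2
  have s3 := dec w 1
  have s4 := dec w 2
  obtain ⟨a0, a1, a2, a3⟩ := hw 1
  obtain ⟨b0, b1, b2, b3⟩ := hw 2
  rw [a0, a1, a2, a3] at s3
  rw [b0, b1, b2, b3] at s4
  obtain ⟨r1, r1'⟩ := hRv 1
  obtain ⟨r2, r2'⟩ := hRv 2
  obtain ⟨W1, W1'⟩ := hW 1 (by decide)
  obtain ⟨W2, W2'⟩ := hW 2 (by decide)
  have p0 := hnn 1 0
  have p1 := hnn 1 1
  have p2 := hnn 1 2
  have p3 := hnn 1 3
  have q0 := hnn 2 0
  have q1 := hnn 2 1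
  have q2 := hnn 2 2
  have q3 := hnn 2 3
  refine ⟨?_, by linarith, by linarith⟩
  by_contra hcon
  rcases crt' with h | h
  · exact hcon h
  have m1 := mass' 2 1 (by decide) (by decide) (by decide)
  have m2 := mass' 1 2 (by decide) (by decide) (by decide)
  have t1 := rest 2 1 (by decide) (by decide) (by decide)
  have t2 := rest 1 2 (by decide) (by decide) (by decide)
  have n1 : (((1 : Fin (16 + 1)) : ℕ) : ℝ) = 1 := by norm_num
  have n2 : (((2 : Fin (16 + 1)) : ℕ) : ℝ) = 2 := by
    have : ((2 : Fin (16 + 1)) : ℕ) = 2 := rfl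
    rw [this]; norm_num
  have n3 : (((3 : Fin (16 + 1)) : ℕ) : ℝ) = 3 := by
    have : ((3 : Fin (16 + 1)) : ℕ) = 3 := rfl
    rw [this]; norm_num
  have d11 := dich 2 1 (by decide) (by decide) (by decide) 1 (by decide)
  have d12 := dich 2 1 (by decide) (by decide) (by decide) 2 (by decide)
  have d13 := dich 2 1 (by decide) (by decide) (by decide) 3 (by decide)
  have d21 := dich 1 2 (by decide) (by decide) (by decide) 1 (by decide)
  have d22 := dich 1 2 (by decide) (by decide) (by decide) 2 (by decide)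
  have d23 := dich 1 2 (by decide) (by decide) (by decide) 3 (by decide)
  rw [n1] at d11 d21
  rw [n2] at d12 d22
  rw [n3] at d13 d23
  clear hN root' dec hw hRv wmv mass' big light rest dich triv hmu wge wnn hW hcon
  rcases d11 with d11 | ⟨x1, x2, x3, x4⟩ <;> rcases d12 with d12 | ⟨y1, y2, y3, y4⟩ <;>
    rcases d13 with d13 | ⟨z1, z2, z3, z4⟩ <;>
    first
      | linarith
      | (rcases d21 with d21 | ⟨x1', x2', x3', x4'⟩ <;> rcases d22 with d22 | ⟨y1', y2', y3', y4'⟩ <;>
          rcases d23 with d23 | ⟨z1', z2', z3', z4'⟩ <;> linarith)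

end Pool.Agent.H541.SX
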