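import Mathlib
import Pool.Agent.H541.SM.Exact2

/-!
# Exponents of triples `a + b = c` with `a` about `c ^ α`, `0 < α ≤ 1 / 13`: no configuration without
# a saving compared with `(1 + α) / 2`
-/

namespace Pool.Agent.H541.SX

open Finset Pool.Agent.H785R2.ABC Pool.Agent.H541.SM

/-- limit of exponents of triples -/
structure LimA (K : ℕ) (v w : Fin 3 → Fin (K + 1) → ℝ) : Prop where
  v_nonneg : ∀ j i, 0 ≤ v j i
  w_eq : ∀ (j : Fin 3) (i : Fin (K + 1)), (i : ℕ) < K → w j i = (((i : ℕ) : ℝ) + 1) * v j i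
  w_last : ∀ j : Fin 3, ((K : ℝ) + 1) * v j (Fin.last K) ≤ w j (Fin.last K)
  w0lo : 1 / 20000 ≤ cost w 0 univ
  w0hi : cost w 0 univ ≤ 1 / 13
  w1 : ∀ j, j ≠ 0 → cost w j univ = 1
  tot : cost v 0 univ + cost v 1 univ + cost v 2 univ ≤ 1

/-- no bound saves anything -/
def NoSaveA {K : ℕ} (v w : Fin 3 → Fin (K + 1) → ℝ) : Prop :=
  ∀ b : Par K, b.Valid → (1 + cost w 0 univ) / 2 ≤ b.f1 v ∨ (1 + cost w 0 univ) / 2 ≤ b.f2 v w

variable {K : ℕ} {v w : Fin 3 → Fin (K + 1) → ℝ}

lemma wA_ge (hL : LimA K v w) (j : Fin 3) (i : Fin (K + 1)) :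
    (((i : ℕ) : ℝ) + 1) * v j i ≤ w j i := by
  by_cases hi : (i : ℕ) < K
  · exact (hL.w_eq j i hi).ge
  · have : i = Fin.last K := by
      apply Fin.ext
      have := i.isLt
      simp only [Fin.val_last]
      omega
    subst this
    simpa using hL.w_last j

lemma wA_nonneg (hL : LimA K v w) (j : Fin 3) (i : Fin (K + 1)) : 0 ≤ w j i :=
  le_trans (mul_nonneg (by positivity) (hL.v_nonneg j i)) (wA_ge hL j i)

lemma v0_le (hL : LimA K v w) : cost v 0 univ ≤ cost w 0 univ := by
  apply sum_le_sum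
  intro i _
  have h1 := wA_ge hL 0 i
  have h2 := hL.v_nonneg 0 i
  have h3 : (0 : ℝ) ≤ ((i : ℕ) : ℝ) := Nat.cast_nonneg _
  nlinarith

/-- the trivial bound -/
lemma trivA (hL : LimA K v w) (hN : NoSaveA v w) {p q : Fin 3} (hpq : p ≠ q) (hp : p ≠ 0)
    (hq : q ≠ 0) : (1 + cost w 0 univ) / 2 ≤ cost v q univ + cost v 0 univ := by
  have h := hN ⟨p, q, 0, 1, univ, ∅, univ⟩ ⟨hpq, hq, hp, le_rfl, by simp, good_one _, good_one _⟩
  simp only [Par.f1, Par.f2, thn, cost_compl, cost_empty, hL.w1 p hp, if_true,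
    Nat.cast_one] at h
  rcases h with h | h <;> linarith

/-- `a` is squarefree, and `b` and `c` have radicals of the same size -/
lemma sizesA (hL : LimA K v w) (hN : NoSaveA v w) :
    cost v 0 univ = cost w 0 univ ∧
      ∀ j, j ≠ 0 → cost v j univ = (1 - cost w 0 univ) / 2 := by
  have t1 := trivA hL hN (p := 1) (q := 2) (by decide) (by decide) (by decide)
  have t2 := trivA hL hN (p := 2) (q := 1) (by decide) (by decide) (by decide)
  have htot := hL.tot
  have h0 := v0_le hL
  refine ⟨by linarith, ?_⟩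
  intro j hj
  fin_cases j
  · exact absurd rfl hj
  · simp only [Fin.mk_one]; linarith
  · simp only [Fin.reduceFinMk]; linarith

/-- roots modulo a part of `q` -/
lemma rootA (hL : LimA K v w) (hN : NoSaveA v w) {p q : Fin 3} (hpq : p ≠ q) (hp : p ≠ 0)
    (hq : q ≠ 0) (i j : Fin (K + 1)) (hi : (i : ℕ) < K) :
    v p i ≤ v q j ∨ w q j ≤ v q j := by
  obtain ⟨h0, hμ⟩ := sizesA hL hN
  have hμp := hμ p hp
  have h := hN ⟨p, 0, q, (i : ℕ) + 1, {i}, ∅, {j}⟩
    ⟨hp, hq.symm, hpq, by simp, by simp; omega, good_single i hi, good_empty _⟩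
  have e : w p i / (((i : ℕ) : ℝ) + 1) = v p i := by
    rw [hL.w_eq p i hi]
    field_simp
  simp only [Par.f1, Par.f2, thn, cost_compl, cost_empty, cost_single, if_neg hq,
    Nat.cast_add, Nat.cast_one, add_zero, e] at h
  rcases h with h | h
  · left; linarith
  · right; linarith

/-- the masses cannot all be small -/
lemma massG {p : Fin 3} (wge : ∀ i : Fin (K + 1), (((i : ℕ) : ℝ) + 1) * v p i ≤ w p i)
    (vnn : ∀ i, 0 ≤ v p i) (w1 : cost w p univ = 1) (μ : ℝ) (hμ : μ ≤ cost v p univ) (T : ℕ)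
    (hT : 2 ≤ T * μ) (s : ℝ) (hs : ∀ i, v p i ≤ s) (hs0 : 0 ≤ s) : 1 ≤ s * T ^ 2 := by
  have h1 : ∑ i : Fin (K + 1), ((T : ℝ) * v p i - ((T - 1 - (i : ℕ) : ℕ) : ℝ) * s) ≤
      ∑ i, w p i := by
    apply sum_le_sum
    intro i _
    have h2 := wge i
    have h3 : (T : ℝ) ≤ ((i : ℕ) : ℝ) + 1 + ((T - 1 - (i : ℕ) : ℕ) : ℝ) := by
      have : T ≤ (i : ℕ) + 1 + (T - 1 - (i : ℕ)) := by omega
      exact_mod_cast this
    have h4 := mul_le_mul_of_nonneg_right h3 (vnn i)
    have h5 := mul_le_mul_of_nonneg_left (hs i) (Nat.cast_nonneg (α := ℝ) (T - 1 - (i : ℕ)))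
    nlinarith
  rw [sum_sub_distrib, ← mul_sum, ← sum_mul] at h1
  have h6 : ∑ i : Fin (K + 1), ((T - 1 - (i : ℕ) : ℕ) : ℝ) ≤ (T : ℝ) ^ 2 := by
    have h7 : ∑ i : Fin (K + 1), (T - 1 - (i : ℕ)) ≤ T ^ 2 := by
      rw [Fin.sum_univ_eq_sum_range (fun i => T - 1 - i) (K + 1)]
      calc ∑ i ∈ range (K + 1), (T - 1 - i) ≤ ∑ i ∈ range (K + 1), (if i < T then T else 0) := by
            apply sum_le_sum
            intro i _
            split_ifs <;> omega
        _ = ∑ i ∈ (range (K + 1)).filter (· < T), T := by rw [sum_filter]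
        _ = ((range (K + 1)).filter (· < T)).card * T := by rw [sum_const, smul_eq_mul]
        _ ≤ T * T := by
            apply Nat.mul_le_mul_right
            calc _ ≤ (range T).card := card_le_card (by
                  intro i hi
                  rw [mem_filter] at hi
                  exact mem_range.2 hi.2)
              _ = T := card_range T
        _ = T ^ 2 := by ring
    exact_mod_cast h7
  have h8 : ∑ i, w p i = 1 := w1
  have h9 : μ ≤ ∑ i, v p i := hμ
  have h10 : (T : ℝ) * μ ≤ (T : ℝ) * ∑ i, v p i :=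
    mul_le_mul_of_nonneg_left h9 (Nat.cast_nonneg _)
  have h11 := mul_le_mul_of_nonneg_right h6 hs0
  nlinarith

/-- the structure of the configurations without saving -/
structure StrA (K : ℕ) (v w : Fin 3 → Fin (K + 1) → ℝ) (c : ℝ) : Prop where
  pos : 0 < c
  mu : ∀ j, j ≠ 0 → cost v j univ = (1 - cost w 0 univ) / 2
  vlast : ∀ j, j ≠ 0 → v j (Fin.last K) = 0
  wlast : ∀ j, j ≠ 0 → w j (Fin.last K) = 0
  le : ∀ (j : Fin 3) (i : Fin (K + 1)), j ≠ 0 → v j i ≤ c
  heavy : ∀ (j : Fin 3) (i : Fin (K + 1)), j ≠ 0 → 1 ≤ (i : ℕ) → v j i = 0 ∨ v j i = c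

lemma strA_of (hL : LimA K v w) (hN : NoSaveA v w) (hK : 25 ≤ K) : ∃ c, StrA K v w c := by
  obtain ⟨h0, mu⟩ := sizesA hL hN
  have hlo := hL.w0lo
  have hhi := hL.w0hi
  have mu' : ∀ j, j ≠ 0 → 6 / 13 ≤ cost v j univ := by
    intro j hj
    rw [mu j hj]
    linarith
  -- the last class
  have hKr : (25 : ℝ) < (K : ℝ) + 1 := by
    have : 25 < K + 1 := by omega
    exact_mod_cast this
  have last_small : ∀ j, j ≠ 0 → v j (Fin.last K) ≤ 1 / ((K : ℝ) + 1) := by
    intro j hj
    rw [le_div_iff₀ (by positivity)]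
    have h1 := hL.w_last j
    have h3 : w j (Fin.last K) ≤ cost w j univ :=
      single_le_sum (f := w j) (fun i _ => wA_nonneg hL j i) (mem_univ _)
    rw [hL.w1 j hj] at h3
    linarith
  have last0 : ∀ p q : Fin 3, p ≠ q → p ≠ 0 → q ≠ 0 →
      w q (Fin.last K) ≤ v q (Fin.last K) := by
    intro p q hpq hp hq
    by_contra hcon
    push Not at hcon
    have h1 : ∀ i, v p i ≤ 1 / ((K : ℝ) + 1) := by
      intro i
      by_cases hi : (i : ℕ) < K
      · rcases rootA hL hN hpq hp hq i (Fin.last K) hi with h | h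
        · exact h.trans (last_small q hq)
        · exact absurd h (not_le.2 hcon)
      · have : i = Fin.last K := by
          apply Fin.ext
          have := i.isLt
          simp only [Fin.val_last]
          omega
        subst this
        exact last_small p hp
    have h3 := massG (fun i => wA_ge hL p i) (fun i => hL.v_nonneg p i) (hL.w1 p hp) (6 / 13)
      (mu' p hp) 5 (by norm_num) _ h1 (by positivity)
    rw [div_mul_eq_mul_div, one_mul, le_div_iff₀ (by positivity)] at h3
    push_cast at h3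
    linarith
  have hK0 : 0 < (K : ℝ) := by
    have : 0 < K := by omega
    exact_mod_cast this
  have vlast : ∀ j, j ≠ 0 → v j (Fin.last K) = 0 := by
    intro j hj
    have h1 : w j (Fin.last K) ≤ v j (Fin.last K) := by
      fin_cases j
      · exact absurd rfl hj
      · exact last0 2 1 (by decide) (by decide) (by decide)
      · exact last0 1 2 (by decide) (by decide) (by decide)
    have h3 := hL.w_last j
    have h4 := hL.v_nonneg j (Fin.last K)
    nlinarith
  have wlast : ∀ j, j ≠ 0 → w j (Fin.last K) = 0 := by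
    intro j hj
    have h1 : w j (Fin.last K) ≤ v j (Fin.last K) := by
      fin_cases j
      · exact absurd rfl hj
      · exact last0 2 1 (by decide) (by decide) (by decide)
      · exact last0 1 2 (by decide) (by decide) (by decide)
    rw [vlast j hj] at h1
    exact le_antisymm h1 (wA_nonneg hL j _)
  -- heavy classes exist
  have exh : ∀ j, j ≠ 0 → ∃ i : Fin (K + 1), 1 ≤ (i : ℕ) ∧ (i : ℕ) < K ∧ 0 < v j i := by
    intro j hj
    by_contra hcon
    push Not at hcon
    have h1 : cost w j univ ≤ cost v j univ := by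
      apply sum_le_sum
      intro i _
      by_cases hi : (i : ℕ) < K
      · rw [hL.w_eq j i hi]
        rcases Nat.eq_zero_or_pos (i : ℕ) with h0 | h0
        · rw [h0]; simp
        · have h3 := hcon i h0 hi
          have h4 := hL.v_nonneg j i
          have h5 : v j i = 0 := le_antisymm h3 h4
          rw [h5]; simp
      · have : i = Fin.last K := by
          apply Fin.ext
          have := i.isLt
          simp only [Fin.val_last]
          omega
        subst this
        rw [wlast j hj, vlast j hj]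
    rw [hL.w1 j hj, mu j hj] at h1
    linarith
  have rt : ∀ p q : Fin 3, p ≠ q → p ≠ 0 → q ≠ 0 → ∀ i j : Fin (K + 1), (i : ℕ) < K →
      1 ≤ (j : ℕ) → (j : ℕ) < K → 0 < v q j → v p i ≤ v q j := by
    intro p q hpq hp hq i j hi hj1 hjK hj
    rcases rootA hL hN hpq hp hq i j hi with h | h
    · exact h
    · rw [hL.w_eq q j hjK] at h
      have : (1 : ℝ) ≤ ((j : ℕ) : ℝ) := by exact_mod_cast hj1
      nlinarith
  obtain ⟨i0, hi1, hiK, hi0⟩ := exh 1 (by decide)
  obtain ⟨j0, hj1, hjK, hj0⟩ := exh 2 (by decide)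
  have e1 := rt 1 2 (by decide) (by decide) (by decide) i0 j0 hiK hj1 hjK hj0
  have e2 := rt 2 1 (by decide) (by decide) (by decide) j0 i0 hjK hi1 hiK hi0
  have e3 : v 2 j0 = v 1 i0 := le_antisymm e2 e1
  refine ⟨v 1 i0, hi0, mu, vlast, wlast, ?_, ?_⟩
  · intro j i hj
    by_cases hi : (i : ℕ) < K
    · fin_cases j
      · exact absurd rfl hj
      · have := rt 1 2 (by decide) (by decide) (by decide) i j0 hi hj1 hjK hj0
        simp only [Fin.mk_one]
        linarith
      · exact rt 2 1 (by decide) (by decide) (by decide) i i0 hi hi1 hiK hi0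
    · have : i = Fin.last K := by
        apply Fin.ext
        have := i.isLt
        simp only [Fin.val_last]
        omega
      subst this
      rw [vlast j hj]
      exact hi0.le
  · intro j i hj hi1'
    by_cases hi : (i : ℕ) < K
    · by_cases h0 : v j i = 0
      · exact Or.inl h0
      · right
        have hpos : 0 < v j i := lt_of_le_of_ne (hL.v_nonneg j i) (Ne.symm h0)
        fin_cases j
        · exact absurd rfl hj
        · have a1 := rt 1 2 (by decide) (by decide) (by decide) i j0 hi hj1 hjK hj0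
          have a2 := rt 2 1 (by decide) (by decide) (by decide) j0 i hjK hi1' hi hpos
          simp only [Fin.mk_one]
          linarith
        · have a1 := rt 2 1 (by decide) (by decide) (by decide) i i0 hi hi1 hiK hi0
          have a2 := rt 1 2 (by decide) (by decide) (by decide) i0 i hiK hi1' hi hpos
          simp only [Fin.reduceFinMk]
          linarith
    · left
      have : i = Fin.last K := by
        apply Fin.ext
        have := i.isLt
        simp only [Fin.val_last]
        omega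
      subst this
      exact vlast j hj

end Pool.Agent.H541.SX
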