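import Mathlib
import Pool.Agent.H541.SX.StrA

/-!
# Exponents of triples `a + b = c` with `a` about `c ^ α`, `0 < α ≤ 1 / 13`: there is always a saving
-/

namespace Pool.Agent.H541.SX

open Finset Pool.Agent.H785R2.ABC Pool.Agent.H541.SM

variable {K : ℕ} {v w : Fin 3 → Fin (K + 1) → ℝ} {c : ℝ}

lemma wA_heavy (hL : LimA K v w) (hS : StrA K v w c) {j : Fin 3} (hj : j ≠ 0)
    {i : Fin (K + 1)} (hi : v j i = c) : w j i = (((i : ℕ) : ℝ) + 1) * c := by
  have hiK : (i : ℕ) < K := by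
    by_contra h
    have : i = Fin.last K := by
      apply Fin.ext
      have := i.isLt
      simp only [Fin.val_last]
      omega
    subst this
    have := hS.vlast j hj
    have := hS.pos
    linarith
  rw [hL.w_eq j i hiK, hi]

lemma wA_zero (hL : LimA K v w) (hS : StrA K v w c) {j : Fin 3} (hj : j ≠ 0)
    {i : Fin (K + 1)} (hi : v j i = 0) : w j i = 0 := by
  by_cases h : (i : ℕ) < K
  · rw [hL.w_eq j i h, hi, mul_zero]
  · have : i = Fin.last K := by
      apply Fin.ext
      have := i.isLt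
      simp only [Fin.val_last]
      omega
    subst this
    exact hS.wlast j hj

lemma costA_Hv (hL : LimA K v w) (hS : StrA K v w c) {j : Fin 3} (hj : j ≠ 0) (hK : 0 < K) :
    cost v j (Hv v c j) = (1 - cost w 0 univ) / 2 - v j 0 ∧
      cost w j (Hv v c j) = 1 - v j 0 := by
  classical
  have h0 : (0 : Fin (K + 1)) ∈ (Hv v c j)ᶜ := by
    rw [mem_compl, Hv, mem_filter]
    rintro ⟨-, h, -⟩
    simp at h
  have hz : ∀ i ∈ (Hv v c j)ᶜ, i ≠ 0 → v j i = 0 := by
    intro i hi hne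
    rw [mem_compl, Hv, mem_filter] at hi
    have h1 : 1 ≤ (i : ℕ) := by
      rcases Nat.eq_zero_or_pos (i : ℕ) with h | h
      · exact absurd (Fin.ext (by simpa using h)) hne
      · exact h
    rcases hS.heavy j i hj h1 with h | h
    · exact h
    · exact absurd ⟨mem_univ _, h1, h⟩ hi
  have a1 : cost v j (Hv v c j)ᶜ = v j 0 := by
    unfold cost
    exact sum_eq_single_of_mem 0 h0 hz
  have a2 : cost w j (Hv v c j)ᶜ = v j 0 := by
    unfold cost
    rw [sum_eq_single_of_mem 0 h0 (fun i hi hne => wA_zero hL hS hj (hz i hi hne)),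
      hL.w_eq j 0 (by simpa using hK)]
    simp
  rw [cost_compl] at a1 a2
  rw [hS.mu j hj] at a1
  rw [hL.w1 j hj] at a2
  constructor <;> linarith

/-- there is always a saving -/
theorem exactA (hL : LimA K v w) (hK : 25 ≤ K) : ¬ NoSaveA v w := by
  classical
  intro hN
  obtain ⟨c, hS⟩ := strA_of hL hN hK
  obtain ⟨hρ, -⟩ := sizesA hL hN
  have hlo := hL.w0lo
  have hhi := hL.w0hi
  set α : ℝ := cost w 0 univ with hα
  have hK0 : 0 < K := by omega
  have hc := hS.pos
  set i0 : Fin (K + 1) := 0 with hi0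
  set i1 : Fin (K + 1) := ⟨1, by omega⟩ with hi1
  set i2 : Fin (K + 1) := ⟨2, by omega⟩ with hi2
  -- heavy classes are at most `2`
  have hsmall : ∀ j, j ≠ 0 → ∀ i ∈ Hv v c j, (i : ℕ) ≤ 2 := by
    intro j hj i hi
    obtain ⟨c1, c2⟩ := costA_Hv hL hS hj hK0
    have s1 : cost v j (Hv v c j) = (Hv v c j).card * c := by
      unfold cost
      rw [sum_congr rfl (fun i hi => (mem_Hv.1 hi).2), sum_const, nsmul_eq_mul]
    have s2 : cost w j (Hv v c j) = (∑ i ∈ Hv v c j, (((i : ℕ) : ℝ) + 1)) * c := by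
      unfold cost
      rw [sum_mul]
      exact sum_congr rfl fun i hi => wA_heavy hL hS hj (mem_Hv.1 hi).2
    have hle := hS.le j 0 hj
    -- `∑ (3 i - 4) < 4`
    have h1 : (∑ i ∈ Hv v c j, (3 * ((i : ℕ) : ℝ) - 4)) * c < 4 * c := by
      have e : ∑ i ∈ Hv v c j, (3 * ((i : ℕ) : ℝ) - 4) =
          3 * ∑ i ∈ Hv v c j, (((i : ℕ) : ℝ) + 1) - 7 * (Hv v c j).card := by
        rw [mul_sum, sum_sub_distrib]
        rw [sum_congr rfl (fun i _ => show 3 * (((i : Fin (K + 1)) : ℕ) + 1 : ℝ) =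
          3 * ((i : ℕ) : ℝ) + 3 by ring), sum_add_distrib]
        simp only [sum_const, nsmul_eq_mul]
        ring
      rw [e]
      nlinarith
    have h2 := lt_of_mul_lt_mul_right h1 hc.le
    by_contra hcon
    push Not at hcon
    have h3 : 3 * ((i : ℕ) : ℝ) - 4 + ∑ x ∈ (Hv v c j).erase i, (3 * ((x : ℕ) : ℝ) - 4) =
        ∑ x ∈ Hv v c j, (3 * ((x : ℕ) : ℝ) - 4) :=
      add_sum_erase (Hv v c j) (fun x : Fin (K + 1) => (3 * ((x : ℕ) : ℝ) - 4)) hi
    have h4 : -(1 : ℝ) ≤ ∑ x ∈ (Hv v c j).erase i, (3 * ((x : ℕ) : ℝ) - 4) := by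
      by_cases hm : i1 ∈ (Hv v c j).erase i
      · have h5 : 3 * (((i1 : Fin (K + 1)) : ℕ) : ℝ) - 4 +
            ∑ x ∈ ((Hv v c j).erase i).erase i1, (3 * ((x : ℕ) : ℝ) - 4) =
            ∑ x ∈ (Hv v c j).erase i, (3 * ((x : ℕ) : ℝ) - 4) :=
          add_sum_erase _ (fun x : Fin (K + 1) => (3 * ((x : ℕ) : ℝ) - 4)) hm
        have h6 : 0 ≤ ∑ x ∈ ((Hv v c j).erase i).erase i1, (3 * ((x : ℕ) : ℝ) - 4) := by
          apply sum_nonneg
          intro x hx
          have hx1 := mem_erase.1 hx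
          have hx2 := mem_Hv.1 (mem_erase.1 hx1.2).2
          have hx3 : (x : ℕ) ≠ 1 := fun h => hx1.1 (Fin.ext h)
          have hx4 : (2 : ℝ) ≤ ((x : ℕ) : ℝ) := by exact_mod_cast (by omega : 2 ≤ (x : ℕ))
          linarith
        have h7 : (((i1 : Fin (K + 1)) : ℕ) : ℝ) = 1 := by simp [hi1]
        rw [h7] at h5
        linarith
      · have h6 : 0 ≤ ∑ x ∈ (Hv v c j).erase i, (3 * ((x : ℕ) : ℝ) - 4) := by
          apply sum_nonneg
          intro x hx
          have hx2 := mem_Hv.1 (mem_erase.1 hx).2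
          have hx3 : (x : ℕ) ≠ 1 := fun h => hm (by
            have : x = i1 := Fin.ext h
            rw [← this]; exact hx)
          have hx4 : (2 : ℝ) ≤ ((x : ℕ) : ℝ) := by exact_mod_cast (by omega : 2 ≤ (x : ℕ))
          linarith
        linarith
    have h5 : (3 : ℝ) ≤ ((i : ℕ) : ℝ) := by exact_mod_cast hcon
    linarith
  -- the sums
  have hsum : ∀ j, j ≠ 0 → v j i0 + v j i1 + v j i2 = (1 - α) / 2 ∧
      v j i0 + 2 * v j i1 + 3 * v j i2 = 1 := by
    intro j hj
    have n01 : i0 ≠ i1 := by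
      intro h; have := congrArg Fin.val h; simp [hi0, hi1] at this
    have n02 : i0 ≠ i2 := by
      intro h; have := congrArg Fin.val h; simp [hi0, hi2] at this
    have n12 : i1 ≠ i2 := by
      intro h; have := congrArg Fin.val h; simp [hi1, hi2] at this
    have hz : ∀ i : Fin (K + 1), i ∉ ({i0, i1, i2} : Finset (Fin (K + 1))) → v j i = 0 := by
      intro i hi
      simp only [mem_insert, mem_singleton, not_or] at hi
      have h1 : 1 ≤ (i : ℕ) := by
        rcases Nat.eq_zero_or_pos (i : ℕ) with h | h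
        · exact absurd (Fin.ext (by simpa [hi0] using h)) hi.1
        · exact h
      rcases hS.heavy j i hj h1 with h | h
      · exact h
      · exfalso
        have h3 := hsmall j hj i (mem_Hv.2 ⟨h1, h⟩)
        have h4 : (i : ℕ) = 1 ∨ (i : ℕ) = 2 := by omega
        rcases h4 with h4 | h4
        · exact hi.2.1 (Fin.ext h4)
        · exact hi.2.2 (Fin.ext h4)
    have a1 : ∑ i ∈ ({i0, i1, i2} : Finset (Fin (K + 1))), v j i = ∑ i, v j i :=
      sum_subset (subset_univ _) (fun i _ hi => hz i hi)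
    have a2 : ∑ i ∈ ({i0, i1, i2} : Finset (Fin (K + 1))), w j i = ∑ i, w j i :=
      sum_subset (subset_univ _) (fun i _ hi => wA_zero hL hS hj (hz i hi))
    rw [sum_insert (by simp [n01, n02]), sum_insert (by simp [n12]), sum_singleton] at a1 a2
    have b1 : ∑ i, v j i = (1 - α) / 2 := hS.mu j hj
    have b2 : ∑ i, w j i = 1 := hL.w1 j hj
    have w0 : w j i0 = v j i0 := by
      rw [hL.w_eq j i0 (by simpa [hi0] using hK0)]; simp [hi0]
    have w1 : w j i1 = 2 * v j i1 := by
      rw [hL.w_eq j i1 (by simp only [hi1]; omega)]; simp only [hi1]; norm_num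
    have w2 : w j i2 = 3 * v j i2 := by
      rw [hL.w_eq j i2 (by simp only [hi2]; omega)]; simp only [hi2]; norm_num
    constructor <;> linarith
  obtain ⟨p1, p2⟩ := hsum 1 (by decide)
  obtain ⟨q1, q2⟩ := hsum 2 (by decide)
  have p0 := hL.v_nonneg 1 i0
  have q0 := hL.v_nonneg 2 i0
  have p0' := hS.le 1 i0 (by decide)
  have q0' := hS.le 2 i0 (by decide)
  have hp1 := hS.heavy 1 i1 (by decide) (by simp [hi1])
  have hp2 := hS.heavy 1 i2 (by decide) (by simp [hi2])
  have hq1 := hS.heavy 2 i1 (by decide) (by simp [hi1])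
  have hq2 := hS.heavy 2 i2 (by decide) (by simp [hi2])
  have w1 : w 1 i2 = 3 * v 1 i2 := by
    rw [hL.w_eq 1 i2 (by simp only [hi2]; omega)]; simp only [hi2]; norm_num
  have w2 : w 2 i2 = 3 * v 2 i2 := by
    rw [hL.w_eq 2 i2 (by simp only [hi2]; omega)]; simp only [hi2]; norm_num
  have m1 := hS.mu 1 (by decide)
  have m2 := hS.mu 2 (by decide)
  -- cubes
  have hpell := hN ⟨1, 2, 0, 3, {i2}, {i2}, ∅⟩
    ⟨show (1 : Fin 3) ≠ 2 by decide, show (2 : Fin 3) ≠ 0 by decide,
      show (1 : Fin 3) ≠ 0 by decide, by norm_num, by simp only; omega,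
      good_single i2 (by simp only [hi2]; omega), good_single i2 (by simp only [hi2]; omega)⟩
  simp only [Par.f1, Par.f2, thn, cost_compl, cost_empty, cost_single, if_true, w1, w2, m1, m2,
    ← hα] at hpell
  -- congruences
  have hcrt := hN ⟨1, 2, 0, 1, {i2}ᶜ, {i2}ᶜ, ∅⟩
    ⟨show (1 : Fin 3) ≠ 2 by decide, show (2 : Fin 3) ≠ 0 by decide,
      show (1 : Fin 3) ≠ 0 by decide, by simp, by simp, good_one _, good_one _⟩
  simp only [Par.f1, Par.f2, thn, compl_compl, cost_empty, cost_compl w, if_true,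
    Nat.cast_one, hL.w1 1 (by decide), hL.w1 2 (by decide), cost_single, w1, w2, ← hα] at hcrt
  push_cast at hpell
  rcases hp1 with hp1 | hp1 <;> rcases hp2 with hp2 | hp2 <;>
    first
      | (exfalso; linarith)
      | (rcases hq1 with hq1 | hq1 <;> rcases hq2 with hq2 | hq2 <;>
          first
            | (exfalso; linarith)
            | (rcases hpell with hpell | hpell <;> rcases hcrt with hcrt | hcrt <;>
                (exfalso; linarith)))

end Pool.Agent.H541.SX
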