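import Mathlib
import Pool.Agent.H541.SM.Exact2
import Pool.Agent.H541.SX.StrA

/-!
# Exponents of triples `a + b = c` with `a` about `c ^ α`, `0 < α1 ≤ α ≤ α2`: the structure of the
# configurations without a saving compared with `lam / 2 + (1 - β) α`
-/

namespace Pool.Agent.H541.SX

open Finset Pool.Agent.H785R2.ABC Pool.Agent.H541.SM

/-- the parameters: `lam`, `β`, and the bounds `α1`, `α2` for the exponent of `a` -/
structure PG where
  lam : ℝ
  β : ℝ
  α1 : ℝ
  α2 : ℝ
  μ0 : ℝ

/-- the conditions on the parameters -/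
structure PG.Ok (P : PG) : Prop where
  lam2 : P.lam < 2
  β0 : 0 < P.β
  β1 : P.β < 1
  α10 : 0 < P.α1
  α21 : P.α2 < 1
  μ00 : 0 < P.μ0
  μ0le : P.μ0 ≤ P.lam / 2 - P.β * P.α2

/-- limit of exponents of triples -/
structure LimG (P : PG) (K : ℕ) (v w : Fin 3 → Fin (K + 1) → ℝ) : Prop where
  v_nonneg : ∀ j i, 0 ≤ v j i
  w_eq : ∀ (j : Fin 3) (i : Fin (K + 1)), (i : ℕ) < K → w j i = (((i : ℕ) : ℝ) + 1) * v j i
  w_last : ∀ j : Fin 3, ((K : ℝ) + 1) * v j (Fin.last K) ≤ w j (Fin.last K)
  w0lo : P.α1 ≤ cost w 0 univ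
  w0hi : cost w 0 univ ≤ P.α2
  w1 : ∀ j, j ≠ 0 → cost w j univ = 1
  tot : 2 * P.β * cost v 0 univ + cost v 1 univ + cost v 2 univ ≤ P.lam

/-- the trivial exponent -/
noncomputable def lvl (P : PG) {K : ℕ} (w : Fin 3 → Fin (K + 1) → ℝ) : ℝ :=
  P.lam / 2 + (1 - P.β) * cost w 0 univ

/-- no bound saves anything -/
def NoSaveG (P : PG) {K : ℕ} (v w : Fin 3 → Fin (K + 1) → ℝ) : Prop :=
  ∀ b : Par K, b.Valid → lvl P w ≤ b.f1 v ∨ lvl P w ≤ b.f2 v w

variable {P : PG} {K : ℕ} {v w : Fin 3 → Fin (K + 1) → ℝ}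

lemma wG_ge (hL : LimG P K v w) (j : Fin 3) (i : Fin (K + 1)) :
    (((i : ℕ) : ℝ) + 1) * v j i ≤ w j i := by
  by_cases hi : (i : ℕ) < K
  · exact (hL.w_eq j i hi).ge
  · have : i = Fin.last K := by
      apply Fin.ext
      have := i.isLt
      simp only [Fin.val_last]
      omega
    subst this
    simpa using hL.w_last j

lemma wG_nonneg (hL : LimG P K v w) (j : Fin 3) (i : Fin (K + 1)) : 0 ≤ w j i :=
  le_trans (mul_nonneg (by positivity) (hL.v_nonneg j i)) (wG_ge hL j i)

lemma v0G_le (hL : LimG P K v w) : cost v 0 univ ≤ cost w 0 univ := by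
  apply sum_le_sum
  intro i _
  have h1 := wG_ge hL 0 i
  have h2 := hL.v_nonneg 0 i
  have h3 : (0 : ℝ) ≤ ((i : ℕ) : ℝ) := Nat.cast_nonneg _
  nlinarith

/-- the trivial bound -/
lemma trivG (hL : LimG P K v w) (hN : NoSaveG P v w) {p q : Fin 3} (hpq : p ≠ q) (hp : p ≠ 0)
    (hq : q ≠ 0) : lvl P w ≤ cost v q univ + cost v 0 univ := by
  have h := hN ⟨p, q, 0, 1, univ, ∅, univ⟩ ⟨hpq, hq, hp, le_rfl, by simp, good_one _, good_one _⟩
  simp only [Par.f1, Par.f2, thn, cost_compl, cost_empty, hL.w1 p hp, if_true,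
    Nat.cast_one] at h
  rcases h with h | h <;> linarith

/-- `a` is squarefree, and `b` and `c` have radicals of the same size -/
lemma sizesG (hO : P.Ok) (hL : LimG P K v w) (hN : NoSaveG P v w) :
    cost v 0 univ = cost w 0 univ ∧
      ∀ j, j ≠ 0 → cost v j univ = P.lam / 2 - P.β * cost w 0 univ := by
  have t1 := trivG hL hN (p := 1) (q := 2) (by decide) (by decide) (by decide)
  have t2 := trivG hL hN (p := 2) (q := 1) (by decide) (by decide) (by decide)
  have htot := hL.tot
  have h0 := v0G_le hL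
  have hβ0 := hO.β0
  have hβ1 := hO.β1
  unfold lvl at t1 t2
  have h1 : cost v 0 univ = cost w 0 univ := by
    apply le_antisymm h0
    have h2 : (1 - P.β) * cost w 0 univ ≤ (1 - P.β) * cost v 0 univ := by
      nlinarith
    exact le_of_mul_le_mul_left h2 (by linarith)
  rw [h1] at t1 t2 htot
  refine ⟨h1, ?_⟩
  intro j hj
  fin_cases j
  · exact absurd rfl hj
  · simp only [Fin.mk_one]; linarith
  · simp only [Fin.reduceFinMk]; linarith

/-- roots modulo a part of `q` -/
lemma rootG (hO : P.Ok) (hL : LimG P K v w) (hN : NoSaveG P v w) {p q : Fin 3} (hpq : p ≠ q) (hp : p ≠ 0)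
    (hq : q ≠ 0) (i j : Fin (K + 1)) (hi : (i : ℕ) < K) :
    v p i ≤ v q j ∨ w q j ≤ v q j := by
  obtain ⟨h0, hμ⟩ := sizesG hO hL hN
  have hμp := hμ p hp
  have h := hN ⟨p, 0, q, (i : ℕ) + 1, {i}, ∅, {j}⟩
    ⟨hp, hq.symm, hpq, by simp, by simp; omega, good_single i hi, good_empty _⟩
  have e : w p i / (((i : ℕ) : ℝ) + 1) = v p i := by
    rw [hL.w_eq p i hi]
    field_simp
  simp only [Par.f1, Par.f2, thn, cost_compl, cost_empty, cost_single, if_neg hq,
    Nat.cast_add, Nat.cast_one, add_zero, e, lvl] at h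
  rcases h with h | h
  · left; linarith
  · right; linarith

/-- the structure of the configurations without saving -/
structure StrG (P : PG) (K : ℕ) (v w : Fin 3 → Fin (K + 1) → ℝ) (c : ℝ) : Prop where
  pos : 0 < c
  mu : ∀ j, j ≠ 0 → cost v j univ = P.lam / 2 - P.β * cost w 0 univ
  vlast : ∀ j, j ≠ 0 → v j (Fin.last K) = 0
  wlast : ∀ j, j ≠ 0 → w j (Fin.last K) = 0
  le : ∀ (j : Fin 3) (i : Fin (K + 1)), j ≠ 0 → v j i ≤ c
  heavy : ∀ (j : Fin 3) (i : Fin (K + 1)), j ≠ 0 → 1 ≤ (i : ℕ) → v j i = 0 ∨ v j i = c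
  ex : ∀ j, j ≠ 0 → ∃ i : Fin (K + 1), 1 ≤ (i : ℕ) ∧ (i : ℕ) < K ∧ v j i = c

lemma strG_of (hO : P.Ok) (hL : LimG P K v w) (hN : NoSaveG P v w) (T : ℕ) (hT : 2 ≤ T * P.μ0)
    (hK : T ^ 2 ≤ K) : ∃ c, StrG P K v w c := by
  obtain ⟨h0, mu⟩ := sizesG hO hL hN
  have hlo := hL.w0lo
  have hhi := hL.w0hi
  have hα0 : 0 < cost w 0 univ := lt_of_lt_of_le hO.α10 hlo
  have mu' : ∀ j, j ≠ 0 → P.μ0 ≤ cost v j univ := by
    intro j hj
    rw [mu j hj]
    have := hO.μ0le
    have := mul_le_mul_of_nonneg_left hhi hO.β0.le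
    linarith
  -- the last class
  have hKr : ((T : ℝ)) ^ 2 < (K : ℝ) + 1 := by
    have : T ^ 2 < K + 1 := by omega
    exact_mod_cast this
  have last_small : ∀ j, j ≠ 0 → v j (Fin.last K) ≤ 1 / ((K : ℝ) + 1) := by
    intro j hj
    rw [le_div_iff₀ (by positivity)]
    have h1 := hL.w_last j
    have h3 : w j (Fin.last K) ≤ cost w j univ :=
      single_le_sum (f := w j) (fun i _ => wG_nonneg hL j i) (mem_univ _)
    rw [hL.w1 j hj] at h3
    linarith
  have last0 : ∀ p q : Fin 3, p ≠ q → p ≠ 0 → q ≠ 0 →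
      w q (Fin.last K) ≤ v q (Fin.last K) := by
    intro p q hpq hp hq
    by_contra hcon
    push Not at hcon
    have h1 : ∀ i, v p i ≤ 1 / ((K : ℝ) + 1) := by
      intro i
      by_cases hi : (i : ℕ) < K
      · rcases rootG hO hL hN hpq hp hq i (Fin.last K) hi with h | h
        · exact h.trans (last_small q hq)
        · exact absurd h (not_le.2 hcon)
      · have : i = Fin.last K := by
          apply Fin.ext
          have := i.isLt
          simp only [Fin.val_last]
          omega
        subst this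
        exact last_small p hp
    have h3 := massG (fun i => wG_ge hL p i) (fun i => hL.v_nonneg p i) (hL.w1 p hp) P.μ0
      (mu' p hp) T hT _ h1 (by positivity)
    rw [div_mul_eq_mul_div, one_mul, le_div_iff₀ (by positivity)] at h3
    linarith
  have hK0 : 0 < (K : ℝ) := by
    have : 0 < T := by
      rcases Nat.eq_zero_or_pos T with h | h
      · subst h; norm_num at hT
      · exact h
    have : 0 < K := lt_of_lt_of_le (by positivity) hK
    exact_mod_cast this
  have vlast : ∀ j, j ≠ 0 → v j (Fin.last K) = 0 := by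
    intro j hj
    have h1 : w j (Fin.last K) ≤ v j (Fin.last K) := by
      fin_cases j
      · exact absurd rfl hj
      · exact last0 2 1 (by decide) (by decide) (by decide)
      · exact last0 1 2 (by decide) (by decide) (by decide)
    have h3 := hL.w_last j
    have h4 := hL.v_nonneg j (Fin.last K)
    nlinarith
  have wlast : ∀ j, j ≠ 0 → w j (Fin.last K) = 0 := by
    intro j hj
    have h1 : w j (Fin.last K) ≤ v j (Fin.last K) := by
      fin_cases j
      · exact absurd rfl hj
      · exact last0 2 1 (by decide) (by decide) (by decide)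
      · exact last0 1 2 (by decide) (by decide) (by decide)
    rw [vlast j hj] at h1
    exact le_antisymm h1 (wG_nonneg hL j _)
  -- heavy classes exist
  have exh : ∀ j, j ≠ 0 → ∃ i : Fin (K + 1), 1 ≤ (i : ℕ) ∧ (i : ℕ) < K ∧ 0 < v j i := by
    intro j hj
    by_contra hcon
    push Not at hcon
    have h1 : cost w j univ ≤ cost v j univ := by
      apply sum_le_sum
      intro i _
      by_cases hi : (i : ℕ) < K
      · rw [hL.w_eq j i hi]
        rcases Nat.eq_zero_or_pos (i : ℕ) with h0 | h0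
        · rw [h0]; simp
        · have h3 := hcon i h0 hi
          have h4 := hL.v_nonneg j i
          have h5 : v j i = 0 := le_antisymm h3 h4
          rw [h5]; simp
      · have : i = Fin.last K := by
          apply Fin.ext
          have := i.isLt
          simp only [Fin.val_last]
          omega
        subst this
        rw [wlast j hj, vlast j hj]
    rw [hL.w1 j hj, mu j hj] at h1
    have := mul_pos hO.β0 hα0
    have := hO.lam2
    linarith
  have rt : ∀ p q : Fin 3, p ≠ q → p ≠ 0 → q ≠ 0 → ∀ i j : Fin (K + 1), (i : ℕ) < K →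
      1 ≤ (j : ℕ) → (j : ℕ) < K → 0 < v q j → v p i ≤ v q j := by
    intro p q hpq hp hq i j hi hj1 hjK hj
    rcases rootG hO hL hN hpq hp hq i j hi with h | h
    · exact h
    · rw [hL.w_eq q j hjK] at h
      have : (1 : ℝ) ≤ ((j : ℕ) : ℝ) := by exact_mod_cast hj1
      nlinarith
  obtain ⟨i0, hi1, hiK, hi0⟩ := exh 1 (by decide)
  obtain ⟨j0, hj1, hjK, hj0⟩ := exh 2 (by decide)
  have e1 := rt 1 2 (by decide) (by decide) (by decide) i0 j0 hiK hj1 hjK hj0
  have e2 := rt 2 1 (by decide) (by decide) (by decide) j0 i0 hjK hi1 hiK hi0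
  have e3 : v 2 j0 = v 1 i0 := le_antisymm e2 e1
  refine ⟨v 1 i0, hi0, mu, vlast, wlast, ?_, ?_, ?_⟩
  · intro j i hj
    by_cases hi : (i : ℕ) < K
    · fin_cases j
      · exact absurd rfl hj
      · have := rt 1 2 (by decide) (by decide) (by decide) i j0 hi hj1 hjK hj0
        simp only [Fin.mk_one]
        linarith
      · exact rt 2 1 (by decide) (by decide) (by decide) i i0 hi hi1 hiK hi0
    · have : i = Fin.last K := by
        apply Fin.ext
        have := i.isLt
        simp only [Fin.val_last]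
        omega
      subst this
      rw [vlast j hj]
      exact hi0.le
  · intro j i hj hi1'
    by_cases hi : (i : ℕ) < K
    · by_cases h0 : v j i = 0
      · exact Or.inl h0
      · right
        have hpos : 0 < v j i := lt_of_le_of_ne (hL.v_nonneg j i) (Ne.symm h0)
        fin_cases j
        · exact absurd rfl hj
        · have a1 := rt 1 2 (by decide) (by decide) (by decide) i j0 hi hj1 hjK hj0
          have a2 := rt 2 1 (by decide) (by decide) (by decide) j0 i hjK hi1' hi hpos
          simp only [Fin.mk_one]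
          linarith
        · have a1 := rt 2 1 (by decide) (by decide) (by decide) i i0 hi hi1 hiK hi0
          have a2 := rt 1 2 (by decide) (by decide) (by decide) i0 i hiK hi1' hi hpos
          simp only [Fin.reduceFinMk]
          linarith
    · left
      have : i = Fin.last K := by
        apply Fin.ext
        have := i.isLt
        simp only [Fin.val_last]
        omega
      subst this
      exact vlast j hj
  · intro j hj
    fin_cases j
    · exact absurd rfl hj
    · exact ⟨i0, hi1, hiK, rfl⟩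
    · exact ⟨j0, hj1, hjK, e3⟩

end Pool.Agent.H541.SX
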