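import Mathlib
import Pool.Agent.H541.SX.StrG

/-!
# Exponents of triples `a + b = c` with `a` about `c ^ α`, `0 < α1 ≤ α ≤ α2`: there is always a
# saving compared with `lam / 2 + (1 - β) α`
-/

namespace Pool.Agent.H541.SX

open Finset Pool.Agent.H785R2.ABC Pool.Agent.H541.SM

variable {P : PG} {K : ℕ} {v w : Fin 3 → Fin (K + 1) → ℝ} {c : ℝ}

lemma ltG_of_heavy (hS : StrG P K v w c) {j : Fin 3} (hj : j ≠ 0) {i : Fin (K + 1)}
    (hi : v j i = c) : (i : ℕ) < K := by
  by_contra h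
  have : i = Fin.last K := by
    apply Fin.ext
    have := i.isLt
    simp only [Fin.val_last]
    omega
  subst this
  have := hS.vlast j hj
  have := hS.pos
  linarith

lemma wG_heavy (hL : LimG P K v w) (hS : StrG P K v w c) {j : Fin 3} (hj : j ≠ 0)
    {i : Fin (K + 1)} (hi : v j i = c) : w j i = (((i : ℕ) : ℝ) + 1) * c := by
  rw [hL.w_eq j i (ltG_of_heavy hS hj hi), hi]

lemma wG_zero (hL : LimG P K v w) (hS : StrG P K v w c) {j : Fin 3} (hj : j ≠ 0)
    {i : Fin (K + 1)} (hi : v j i = 0) : w j i = 0 := by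
  by_cases h : (i : ℕ) < K
  · rw [hL.w_eq j i h, hi, mul_zero]
  · have : i = Fin.last K := by
      apply Fin.ext
      have := i.isLt
      simp only [Fin.val_last]
      omega
    subst this
    exact hS.wlast j hj

lemma costG_Hv (hL : LimG P K v w) (hS : StrG P K v w c) {j : Fin 3} (hj : j ≠ 0) (hK : 0 < K) :
    cost v j (Hv v c j) = P.lam / 2 - P.β * cost w 0 univ - v j 0 ∧
      cost w j (Hv v c j) = 1 - v j 0 := by
  classical
  have h0 : (0 : Fin (K + 1)) ∈ (Hv v c j)ᶜ := by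
    rw [mem_compl, Hv, mem_filter]
    rintro ⟨-, h, -⟩
    simp at h
  have hz : ∀ i ∈ (Hv v c j)ᶜ, i ≠ 0 → v j i = 0 := by
    intro i hi hne
    rw [mem_compl, Hv, mem_filter] at hi
    have h1 : 1 ≤ (i : ℕ) := by
      rcases Nat.eq_zero_or_pos (i : ℕ) with h | h
      · exact absurd (Fin.ext (by simpa using h)) hne
      · exact h
    rcases hS.heavy j i hj h1 with h | h
    · exact h
    · exact absurd ⟨mem_univ _, h1, h⟩ hi
  have a1 : cost v j (Hv v c j)ᶜ = v j 0 := by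
    unfold cost
    exact sum_eq_single_of_mem 0 h0 hz
  have a2 : cost w j (Hv v c j)ᶜ = v j 0 := by
    unfold cost
    rw [sum_eq_single_of_mem 0 h0 (fun i hi hne => wG_zero hL hS hj (hz i hi hne)),
      hL.w_eq j 0 (by simpa using hK)]
    simp
  rw [cost_compl] at a1 a2
  rw [hS.mu j hj] at a1
  rw [hL.w1 j hj] at a2
  constructor <;> linarith

lemma cost_erase {u : Fin 3 → Fin (K + 1) → ℝ} {j : Fin 3} {S : Finset (Fin (K + 1))}
    {x : Fin (K + 1)} (hx : x ∈ S) : cost u j (S.erase x) = cost u j S - u j x := by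
  classical
  unfold cost
  have := add_sum_erase S (u j) hx
  linarith

/-- congruences: the sum of two sets of classes -/
lemma crtG (hN : NoSaveG P v w) (hL : LimG P K v w) (p q : Fin 3) (hp : p ≠ 0) (hq : q ≠ 0)
    (hpq : p ≠ q) (S T : Finset (Fin (K + 1))) :
    lvl P w ≤ cost v p S + cost v q T ∨
      lvl P w ≤ cost v p S + cost v q T + (1 + cost w 0 univ - cost w p S - cost w q T) := by
  have h := hN ⟨p, q, 0, 1, Sᶜ, Tᶜ, ∅⟩
    ⟨hpq, hq, hp, by simp, by simp, good_one _, good_one _⟩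
  simp only [Par.f1, Par.f2, thn, compl_compl, cost_empty, cost_compl w, if_true,
    Nat.cast_one, hL.w1 p hp, hL.w1 q hq] at h
  rcases h with h | h
  · left; linarith
  · right; linarith

/-- the classes of exponents of `b` and `c` -/
lemma compareG (hO : P.Ok) (hL : LimG P K v w) (hN : NoSaveG P v w) (hS : StrG P K v w c)
    (hK : 0 < K) {p q : Fin 3} (hp : p ≠ 0) (hq : q ≠ 0) (hpq : p ≠ q) {x y : Fin (K + 1)}
    (hx : x ∈ Hv v c p) (hy : y ∈ Hv v c q) : (y : ℕ) ≤ (x : ℕ) := by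
  classical
  by_contra hcon
  push Not at hcon
  obtain ⟨c1, c2⟩ := costG_Hv hL hS hp hK
  have hvx := (mem_Hv.1 hx).2
  have hvy := (mem_Hv.1 hy).2
  have hwx := wG_heavy hL hS hp hvx
  have hwy := wG_heavy hL hS hq hvy
  have h := crtG hN hL p q hp hq hpq ((Hv v c p).erase x) {y}
  rw [cost_erase hx, cost_erase hx, cost_single, cost_single, c1, c2, hvx, hvy, hwx, hwy] at h
  have hα0 : 0 < cost w 0 univ := lt_of_lt_of_le hO.α10 hL.w0lo
  have hβ : 0 < P.β * cost w 0 univ := mul_pos hO.β0 hα0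
  have hv0 := hL.v_nonneg p 0
  have hlt : ((x : ℕ) : ℝ) < ((y : ℕ) : ℝ) := by exact_mod_cast hcon
  have hm := mul_lt_mul_of_pos_right hlt hS.pos
  unfold lvl at h
  rcases h with h | h
  · linarith
  · linarith

/-- there is always a saving -/
theorem exactG (hO : P.Ok) (hL : LimG P K v w) (T : ℕ) (hT : 2 ≤ T * P.μ0) (hK : T ^ 2 ≤ K) :
    ¬ NoSaveG P v w := by
  classical
  intro hN
  obtain ⟨c, hS⟩ := strG_of hO hL hN T hT hK
  have hc := hS.pos
  have hα0 : 0 < cost w 0 univ := lt_of_lt_of_le hO.α10 hL.w0lo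
  have hβ : 0 < P.β * cost w 0 univ := mul_pos hO.β0 hα0
  obtain ⟨x0, hx1, hxK, hx⟩ := hS.ex 1 (by decide)
  obtain ⟨y0, hy1, hyK, hy⟩ := hS.ex 2 (by decide)
  have hK0 : 0 < K := by omega
  have mx : x0 ∈ Hv v c 1 := mem_Hv.2 ⟨hx1, hx⟩
  have my : y0 ∈ Hv v c 2 := mem_Hv.2 ⟨hy1, hy⟩
  have cmp12 : ∀ x ∈ Hv v c 1, ∀ y ∈ Hv v c 2, x = y := by
    intro x hx y hy
    apply Fin.ext
    apply le_antisymm
    · exact compareG hO hL hN hS hK0 (p := 2) (q := 1) (by decide) (by decide) (by decide) hy hx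
    · exact compareG hO hL hN hS hK0 (p := 1) (q := 2) (by decide) (by decide) (by decide) hx hy
  have hxy : x0 = y0 := cmp12 x0 mx y0 my
  have h1 : Hv v c 1 = {x0} := by
    ext x
    rw [mem_singleton]
    exact ⟨fun h => (cmp12 x h y0 my).trans hxy.symm, fun h => h ▸ mx⟩
  have h2 : Hv v c 2 = {x0} := by
    ext y
    rw [mem_singleton]
    exact ⟨fun h => (cmp12 x0 mx y h).symm, fun h => by rw [h, hxy]; exact my⟩
  obtain ⟨a1, a2⟩ := costG_Hv hL hS (j := 1) (by decide) hK0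
  obtain ⟨b1, b2⟩ := costG_Hv hL hS (j := 2) (by decide) hK0
  rw [h1, cost_single, hx] at a1
  rw [← hxy] at hy
  rw [h2, cost_single, hy] at b1
  have m1 := hS.mu 1 (by decide)
  have m2 := hS.mu 2 (by decide)
  have l1 := hS.le 1 0 (by decide)
  have l2 := hS.le 2 0 (by decide)
  have hpell := hN ⟨1, 2, 0, (x0 : ℕ) + 1, {x0}, {x0}, ∅⟩
    ⟨show (1 : Fin 3) ≠ 2 by decide, show (2 : Fin 3) ≠ 0 by decide,
      show (1 : Fin 3) ≠ 0 by decide, by simp, by simp; omega,
      good_single x0 hxK, good_single x0 hxK⟩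
  have e : (w 1 x0 + w 2 x0) / (((x0 : ℕ) : ℝ) + 1) = 2 * c := by
    rw [hL.w_eq 1 x0 hxK, hL.w_eq 2 x0 hxK, hx, hy]
    field_simp
    ring
  simp only [Par.f1, Par.f2, thn, cost_compl, cost_empty, cost_single, if_true, hx, hy, m1, m2,
    Nat.cast_add, Nat.cast_one, e, lvl] at hpell
  have hlam := hO.lam2
  rcases hpell with h | h <;> linarith

end Pool.Agent.H541.SX
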