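import Mathlib
import Pool.Agent.H541.SM.Compact
import Pool.Agent.H541.SX.ExactG

/-!
# A uniform saving, by compactness: triples `a + b = c` with `a` about `c ^ α`, general form
-/

namespace Pool.Agent.H541.SX

open Finset Filter Topology Pool.Agent.H785R2.ABC Pool.Agent.H541.SM

variable {K : ℕ}

/-- compactness -/
theorem compactP {P : PG} (hO : P.Ok) (T : ℕ) (hT : 2 ≤ T * P.μ0) (hK : T ^ 2 ≤ K) :
    ∃ κ : ℝ, 0 < κ ∧ ∀ v w : Fin 3 → Fin (K + 1) → ℝ, Poly K (3 + κ) κ v w →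
      2 * P.β * cost v 0 univ + cost v 1 univ + cost v 2 univ ≤ P.lam + κ →
      P.α1 ≤ cost w 0 univ → cost w 0 univ ≤ P.α2 →
      ∃ b : Par K, b.Valid ∧ b.f1 v ≤ lvl P w - κ ∧ b.f2 v w ≤ lvl P w - κ := by
  by_contra hcon
  push Not at hcon
  have hseq : ∀ n : ℕ, ∃ x : (Fin 3 → Fin (K + 1) → ℝ) × (Fin 3 → Fin (K + 1) → ℝ),
      Poly K (3 + 1 / ((n : ℝ) + 1)) (1 / ((n : ℝ) + 1)) x.1 x.2 ∧
      2 * P.β * cost x.1 0 univ + cost x.1 1 univ + cost x.1 2 univ ≤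
        P.lam + 1 / ((n : ℝ) + 1) ∧
      P.α1 ≤ cost x.2 0 univ ∧ cost x.2 0 univ ≤ P.α2 ∧
      (∀ b : Par K, b.Valid → b.f1 x.1 ≤ lvl P x.2 - 1 / ((n : ℝ) + 1) →
        lvl P x.2 - 1 / ((n : ℝ) + 1) < b.f2 x.1 x.2) := by
    intro n
    obtain ⟨v, w, h1, ht, h2, h2', h3⟩ := hcon (1 / ((n : ℝ) + 1)) (by positivity)
    exact ⟨(v, w), h1, ht, h2, h2', h3⟩
  choose x hx1 hxt hx2 hx2' hx3 using hseq
  have hcomp : IsCompact ((Set.Icc (0 : Fin 3 → Fin (K + 1) → ℝ) 1) ×ˢ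
      (Set.Icc (0 : Fin 3 → Fin (K + 1) → ℝ) 1)) := isCompact_Icc.prod isCompact_Icc
  obtain ⟨a, -, φ, hφ, hlim⟩ := hcomp.tendsto_subseq (x := x) (fun n => by
    obtain ⟨m1, m2⟩ := poly_mem (lam := 3) (hx1 n)
    exact ⟨m1, m2⟩)
  have hε : Tendsto (fun n : ℕ => 1 / (((φ n : ℕ) : ℝ) + 1)) atTop (𝓝 0) :=
    tendsto_one_div_add_atTop_nhds_zero_nat.comp hφ.tendsto_atTop
  have hv : Tendsto (fun n => (x (φ n)).1) atTop (𝓝 a.1) :=
    (continuous_fst.tendsto a).comp hlim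
  have hw : Tendsto (fun n => (x (φ n)).2) atTop (𝓝 a.2) :=
    (continuous_snd.tendsto a).comp hlim
  have hvji : ∀ j i, Tendsto (fun n => (x (φ n)).1 j i) atTop (𝓝 (a.1 j i)) := fun j i =>
    (tendsto_pi_nhds.1 ((tendsto_pi_nhds.1 hv) j)) i
  have hwji : ∀ j i, Tendsto (fun n => (x (φ n)).2 j i) atTop (𝓝 (a.2 j i)) := fun j i =>
    (tendsto_pi_nhds.1 ((tendsto_pi_nhds.1 hw) j)) i
  have hcv : ∀ j S, Tendsto (fun n => cost (x (φ n)).1 j S) atTop (𝓝 (cost a.1 j S)) :=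
    fun j S => ((cont_cost j S).tendsto a.1).comp hv
  have hcw : ∀ j S, Tendsto (fun n => cost (x (φ n)).2 j S) atTop (𝓝 (cost a.2 j S)) :=
    fun j S => ((cont_cost j S).tendsto a.2).comp hw
  -- the limit
  have vnn : ∀ j i, 0 ≤ a.1 j i := fun j i =>
    ge_of_tendsto' (hvji j i) fun n => (hx1 (φ n)).v_nonneg j i
  have weq : ∀ (j : Fin 3) (i : Fin (K + 1)), (i : ℕ) < K →
      a.2 j i = (((i : ℕ) : ℝ) + 1) * a.1 j i := by
    intro j i hi
    have h1 : Tendsto (fun n => (x (φ n)).2 j i) atTop (𝓝 ((((i : ℕ) : ℝ) + 1) * a.1 j i)) := by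
      have h2 := (hvji j i).const_mul (((i : ℕ) : ℝ) + 1)
      refine h2.congr fun n => ?_
      exact ((hx1 (φ n)).w_eq j i hi).symm
    exact tendsto_nhds_unique (hwji j i) h1
  have wlast : ∀ j : Fin 3, ((K : ℝ) + 1) * a.1 j (Fin.last K) ≤ a.2 j (Fin.last K) := fun j =>
    le_of_tendsto_of_tendsto' ((hvji j _).const_mul _) (hwji j _) fun n => (hx1 (φ n)).w_last j
  have wge : ∀ j i, a.1 j i ≤ a.2 j i := by
    intro j i
    by_cases hi : (i : ℕ) < K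
    · rw [weq j i hi]
      have := vnn j i
      have : (0 : ℝ) ≤ ((i : ℕ) : ℝ) := Nat.cast_nonneg _
      nlinarith
    · have : i = Fin.last K := by
        apply Fin.ext
        have := i.isLt
        simp only [Fin.val_last]
        omega
      subst this
      have := vnn j (Fin.last K)
      have := wlast j
      have : (0 : ℝ) ≤ (K : ℝ) := Nat.cast_nonneg _
      nlinarith
  have wnn : ∀ j i, 0 ≤ a.2 j i := fun j i => (vnn j i).trans (wge j i)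
  have w0lo : P.α1 ≤ cost a.2 0 univ :=
    ge_of_tendsto' (hcw 0 univ) fun n => hx2 (φ n)
  have w0hi : cost a.2 0 univ ≤ P.α2 :=
    le_of_tendsto' (hcw 0 univ) fun n => hx2' (φ n)
  have w1 : ∀ j, j ≠ 0 → cost a.2 j univ = 1 := by
    intro j hj
    have h1 : Tendsto (fun n : ℕ => 1 - 1 / (((φ n : ℕ) : ℝ) + 1)) atTop (𝓝 (1 - 0)) :=
      tendsto_const_nhds.sub hε
    rw [sub_zero] at h1
    apply le_antisymm
    · refine le_of_tendsto' (hcw j univ) fun n => ?_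
      fin_cases j
      · exact absurd rfl hj
      · exact (hx1 (φ n)).w1
      · exact (hx1 (φ n)).w2
    · refine le_of_tendsto_of_tendsto' h1 (hcw j univ) fun n => ?_
      fin_cases j
      · exact absurd rfl hj
      · exact (hx1 (φ n)).w1'
      · exact (hx1 (φ n)).w2'
  have tot : 2 * P.β * cost a.1 0 univ + cost a.1 1 univ + cost a.1 2 univ ≤ P.lam := by
    have h1 : Tendsto (fun n : ℕ => P.lam + 1 / (((φ n : ℕ) : ℝ) + 1)) atTop (𝓝 (P.lam + 0)) :=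
      tendsto_const_nhds.add hε
    rw [add_zero] at h1
    exact le_of_tendsto_of_tendsto' ((((hcv 0 univ).const_mul (2 * P.β)).add
      (hcv 1 univ)).add (hcv 2 univ)) h1 fun n => hxt (φ n)
  have hL : LimG P K a.1 a.2 := ⟨vnn, weq, wlast, w0lo, w0hi, w1, tot⟩
  refine exactG hO hL T hT hK ?_
  intro b hb
  by_contra hc
  push Not at hc
  obtain ⟨c1, c2⟩ := hc
  have hθ : Tendsto (fun n : ℕ => lvl P (x (φ n)).2 -
      1 / (((φ n : ℕ) : ℝ) + 1)) atTop (𝓝 (lvl P a.2 - 0)) :=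
    (tendsto_const_nhds.add ((hcw 0 univ).const_mul (1 - P.β))).sub hε
  rw [sub_zero] at hθ
  have g1 : Tendsto (fun n => b.f1 (x (φ n)).1) atTop (𝓝 (b.f1 a.1)) :=
    ((cont_f1 b).tendsto a.1).comp hv
  have g2 : Tendsto (fun n => b.f2 (x (φ n)).1 (x (φ n)).2) atTop (𝓝 (b.f2 a.1 a.2)) :=
    ((cont_f2 b).tendsto a).comp hlim
  have e1 := g1.eventually_lt hθ c1
  have e2 := g2.eventually_lt hθ c2
  obtain ⟨n, hn1, hn2⟩ := (e1.and e2).exists
  exact absurd (hx3 (φ n) b hb hn1.le) (not_lt.2 hn2.le)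

end Pool.Agent.H541.SX
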