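import Mathlib
import Pool.Agent.H541.SX.Cls
import Pool.Agent.H541.SX.Cell
import Pool.Agent.H541.SM.Cnt

/-!
# The number of abc-triples with a tiny member: an explicit exponent for `lam = 1`
-/

namespace Pool.Agent.H541.SX

open Finset Pool.Agent.H785R2.ABC Pool.Agent.H785R2.ABC.Fin1 Pool.Agent.H541.SM

/-- the bound for all cells of triples with a tiny member -/
theorem cell_boundX : ∃ (D c0 : ℝ), 0 < D ∧ 2 ≤ c0 ∧
    ∀ T : Finset (ℕ × ℕ × ℕ), Cell 16 T →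
      (∀ t ∈ T, (t.1 : ℝ) ≤ (t.2.2 : ℝ) ^ (1 / 10000 : ℝ) ∧
        (rad (t.1 * t.2.1 * t.2.2) : ℝ) ≤ (t.2.2 : ℝ) ^ (1 + 1 / 10000 : ℝ)) →
      ∀ s ∈ T, c0 ≤ (s.2.2 : ℝ) → (T.card : ℝ) ≤ D * (s.2.2 : ℝ) ^ (49195 / 100000 : ℝ) := by
  obtain ⟨D, hD, HM⟩ := mbound 16 (2 / 10000) (by norm_num)
  obtain ⟨cA, HA⟩ := cellX
  refine ⟨2 * D + 1,
    max (max 2 cA) (Real.exp (Real.log 2 / (1 / 10000))), by positivity,
    (le_max_left _ _).trans (le_max_left _ _), ?_⟩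
  intro T hT hP s hs hc0
  have habc := hT.abc s hs
  have hc2 : (2 : ℝ) ≤ s.2.2 := by exact_mod_cast Bridge.two_le_c habc
  have hc1 : (1 : ℝ) ≤ s.2.2 := by linarith
  have hc : (0 : ℝ) < s.2.2 := by linarith
  have hlog : 0 < Real.log s.2.2 := Real.log_pos (by linarith)
  have hlogc : Real.log 2 / Real.log s.2.2 ≤ 1 / 10000 := by
    have h3 : Real.exp (Real.log 2 / (1 / 10000)) ≤ s.2.2 := (le_max_right _ _).trans hc0
    have h4 := (Real.le_log_iff_exp_le hc).2 h3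
    rw [div_le_iff₀ (by norm_num)] at h4
    rw [div_le_iff₀ hlog]
    linarith
  obtain ⟨ha, hr⟩ := hP s hs
  have hpoly0 := Pool.Agent.H705R2.ABC.PO.stmtPoly_of basics 16 (1 + 1 / 10000) s habc
    (hT.le s hs) hr
  have hpoly : Poly 16 (1 + 1 / 10000) (1 / 10000) (expV 16 s) (expW 16 s) :=
    poly_mono hpoly0 le_rfl hlogc
  have hcost : cost (expW 16 s) 0 univ ≤ 1 / 10000 := by
    have hn0 : num s 0 = s.1 := rfl
    rw [Pool.Agent.H705R2.ABC.PO.cost_expW basics 16 s 0 (by rw [hn0]; exact habc.1), hn0,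
      div_le_iff₀ hlog]
    have hpos : (0 : ℝ) < s.1 := by exact_mod_cast habc.1
    calc Real.log s.1 ≤ Real.log ((s.2.2 : ℝ) ^ (1 / 10000 : ℝ)) := Real.log_le_log hpos ha
      _ = 1 / 10000 * Real.log s.2.2 := Real.log_rpow hc _
  have hpos' : 0 < (s.2.2 : ℝ) ^ (49195 / 100000 : ℝ) := Real.rpow_pos_of_pos hc _
  by_cases hN : ∀ b : Par 16, b.Valid → 49175 / 100000 < b.f1 (expV 16 s) ∨
      49175 / 100000 < b.f2 (expV 16 s) (expW 16 s)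
  · obtain ⟨h1, h2, h3⟩ := cls hpoly hcost hN
    have hA := HA T hT s hs (((le_max_right _ _).trans (le_max_left _ _)).trans hc0) h1.le h2 h3
      (fun t ht => (hP t ht).1)
    calc (T.card : ℝ) ≤ (s.2.2 : ℝ) ^ (49195 / 100000 : ℝ) := hA
      _ = 1 * (s.2.2 : ℝ) ^ (49195 / 100000 : ℝ) := (one_mul _).symm
      _ ≤ (2 * D + 1) * (s.2.2 : ℝ) ^ (49195 / 100000 : ℝ) := by
          apply mul_le_mul_of_nonneg_right _ hpos'.le
          linarith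
  · push Not at hN
    obtain ⟨b, hb, f1, f2⟩ := hN
    have hb' := HM T hT s hs b hb
    calc (T.card : ℝ) ≤ D * (s.2.2 : ℝ) ^ (2 / 10000 : ℝ) *
          ((s.2.2 : ℝ) ^ b.f1 (expV 16 s) + (s.2.2 : ℝ) ^ b.f2 (expV 16 s) (expW 16 s)) := hb'
      _ ≤ D * (s.2.2 : ℝ) ^ (2 / 10000 : ℝ) *
          ((s.2.2 : ℝ) ^ (49175 / 100000 : ℝ) + (s.2.2 : ℝ) ^ (49175 / 100000 : ℝ)) := by
          apply mul_le_mul_of_nonneg_left _ (by positivity)
          exact add_le_add (Real.rpow_le_rpow_of_exponent_le hc1 f1)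
            (Real.rpow_le_rpow_of_exponent_le hc1 f2)
      _ = 2 * D * ((s.2.2 : ℝ) ^ (2 / 10000 : ℝ) * (s.2.2 : ℝ) ^ (49175 / 100000 : ℝ)) := by ring
      _ = 2 * D * (s.2.2 : ℝ) ^ (49195 / 100000 : ℝ) := by
          rw [← Real.rpow_add hc]; norm_num
      _ ≤ (2 * D + 1) * (s.2.2 : ℝ) ^ (49195 / 100000 : ℝ) := by
          apply mul_le_mul_of_nonneg_right _ hpos'.le
          linarith

theorem countX : ∃ C : ℝ, 0 < C ∧ ∀ X : ℕ, 1 ≤ X →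
      ((Tiny 1 (1 / 10000) X).ncard : ℝ) ≤ C * (X : ℝ) ^ (492 / 1000 : ℝ) := by
  classical
  obtain ⟨D, c0, hD, hc0, H⟩ := cell_boundX
  set c1 : ℕ := ⌈c0⌉₊ + 4 with hc1
  obtain ⟨C, hC, HC⟩ := assemble 16 (fun t => IsABCTriple t.1 t.2.1 t.2.2 ∧ t.1 ≤ t.2.1 ∧
      c1 ≤ t.2.2 ∧ (t.1 : ℝ) ≤ (t.2.2 : ℝ) ^ (1 / 10000 : ℝ) ∧
      (rad (t.1 * t.2.1 * t.2.2) : ℝ) ≤ (t.2.2 : ℝ) ^ (1 + 1 / 10000 : ℝ)) D c0
    (49195 / 100000) hD (by norm_num)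
    (fun t ht => ⟨ht.1, ht.2.1, by
      have h3 : c0 ≤ (⌈c0⌉₊ : ℝ) := Nat.le_ceil c0
      have h4 : ((⌈c0⌉₊ + 4 : ℕ) : ℝ) ≤ (t.2.2 : ℝ) := by exact_mod_cast ht.2.2.1
      push_cast at h4
      linarith⟩)
    (fun T hT hP s hs => H T hT (fun t ht => (hP t ht).2.2.2) s hs (by
      have ht := hP s hs
      have h3 : c0 ≤ (⌈c0⌉₊ : ℝ) := Nat.le_ceil c0
      have h4 : ((⌈c0⌉₊ + 4 : ℕ) : ℝ) ≤ (s.2.2 : ℝ) := by exact_mod_cast ht.2.2.1
      push_cast at h4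
      linarith)) (5 / 100000) (by norm_num)
  refine ⟨C + ((Tiny 1 (1 / 10000) c1).ncard : ℝ), by positivity, ?_⟩
  intro X hX
  have hX1 : (1 : ℝ) ≤ X := by exact_mod_cast hX
  -- large triples
  set B : Set (ℕ × ℕ × ℕ) := {t | t ∈ Tiny 1 (1 / 10000) X ∧ c1 ≤ t.2.2} with hB
  have hBfin : B.Finite := (tiny_finite 1 (1 / 10000) X).subset fun t ht => ht.1
  have hsub : Tiny 1 (1 / 10000) X ⊆ B ∪ Tiny 1 (1 / 10000) c1 := by
    intro t ht
    by_cases h : c1 ≤ t.2.2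
    · exact Or.inl ⟨ht, h⟩
    · right
      push Not at h
      exact ⟨ht.1, h.le, ht.2.2⟩
  have h1 : ((Tiny 1 (1 / 10000) X).ncard : ℝ) ≤
      (B.ncard : ℝ) + ((Tiny 1 (1 / 10000) c1).ncard : ℝ) := by
    have h3 := Set.ncard_le_ncard hsub (hBfin.union (tiny_finite 1 (1 / 10000) c1))
    have h4 := Set.ncard_union_le B (Tiny 1 (1 / 10000) c1)
    exact_mod_cast h3.trans h4
  have h3 : (B.ncard : ℝ) ≤ C * (X : ℝ) ^ (49195 / 100000 + 5 / 100000 : ℝ) := by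
    have h4 := HC X hX hBfin.toFinset (by
      intro t ht
      rw [Set.Finite.mem_toFinset] at ht
      obtain ⟨⟨hab, hcX, hta, htr⟩, hc⟩ := ht
      have hcpos : 4 ≤ t.2.2 := by omega
      have hc1' : (1 : ℝ) ≤ (t.2.2 : ℝ) := by exact_mod_cast (by omega : 1 ≤ t.2.2)
      refine ⟨⟨hab, ?_, hc, ?_, ?_⟩, hcX⟩
      · have h5 : (t.1 : ℝ) ≤ (t.2.2 : ℝ) / 2 := by
          calc (t.1 : ℝ) ≤ (t.2.2 : ℝ) ^ (1 / 10000 : ℝ) := hta
            _ ≤ (t.2.2 : ℝ) ^ (1 / 2 : ℝ) :=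
                Real.rpow_le_rpow_of_exponent_le hc1' (by norm_num)
            _ = Real.sqrt t.2.2 := by rw [Real.sqrt_eq_rpow]
            _ ≤ (t.2.2 : ℝ) / 2 := by
                rw [Real.sqrt_le_left (by positivity)]
                have : (4 : ℝ) ≤ (t.2.2 : ℝ) := by exact_mod_cast hcpos
                nlinarith
        have h6 : 2 * t.1 ≤ t.2.2 := by
          have : 2 * (t.1 : ℝ) ≤ (t.2.2 : ℝ) := by linarith
          exact_mod_cast this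
        have h7 := hab.2.2.2.1
        omega
      · exact hta
      · exact htr)
    rwa [← Set.ncard_eq_toFinset_card B hBfin] at h4
  have e : (49195 / 100000 + 5 / 100000 : ℝ) = 492 / 1000 := by norm_num
  rw [e] at h3
  have h4 : ((Tiny 1 (1 / 10000) c1).ncard : ℝ) ≤
      ((Tiny 1 (1 / 10000) c1).ncard : ℝ) * (X : ℝ) ^ (492 / 1000 : ℝ) :=
    le_mul_of_one_le_right (Nat.cast_nonneg _) (Real.one_le_rpow hX1 (by norm_num))
  calc ((Tiny 1 (1 / 10000) X).ncard : ℝ) ≤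
        (B.ncard : ℝ) + ((Tiny 1 (1 / 10000) c1).ncard : ℝ) := h1
    _ ≤ _ := by
        rw [add_mul]
        exact add_le_add h3 h4

end Pool.Agent.H541.SX
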