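import Mathlib
import Pool.Agent.H541.SX.CompactA
import Pool.Agent.H541.SX.Count

/-!
# The number of abc-triples with `a ≤ c ^ t`, `0 ≤ t ≤ 1 / 13`
-/

namespace Pool.Agent.H541.SX

open Finset Pool.Agent.H785R2.ABC Pool.Agent.H785R2.ABC.Fin1 Pool.Agent.H541.SM

/-- the bound for cells -/
theorem cell_boundA : ∃ (κ D c0 : ℝ), 0 < κ ∧ κ ≤ 1 / 1000 ∧ 0 < D ∧ 2 ≤ c0 ∧
    ∀ T : Finset (ℕ × ℕ × ℕ), Cell 25 T → ∀ t : ℝ, t ≤ 1 / 13 →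
      (∀ u ∈ T, (u.2.2 : ℝ) ^ (1 / 20000 : ℝ) ≤ (u.1 : ℝ) ∧ (u.1 : ℝ) ≤ (u.2.2 : ℝ) ^ t ∧
        (rad (u.1 * u.2.1 * u.2.2) : ℝ) ≤ (u.2.2 : ℝ) ^ (1 + κ)) →
      ∀ s ∈ T, c0 ≤ (s.2.2 : ℝ) → (T.card : ℝ) ≤ D * (s.2.2 : ℝ) ^ ((1 + t) / 2 - κ) := by
  obtain ⟨κ, hκ, H⟩ := compactA (K := 25) le_rfl
  obtain ⟨D, hD, HM⟩ := mbound 25 (κ / 2) (by positivity)
  refine ⟨min (κ / 2) (1 / 1000), 2 * D,
    max 2 (Real.exp (Real.log 2 / κ)), by positivity,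
    min_le_right _ _, by positivity, le_max_left _ _, ?_⟩
  set κ' : ℝ := min (κ / 2) (1 / 1000) with hκ'
  have k1 : κ' ≤ κ / 2 := min_le_left _ _
  intro T hT t ht hP s hs hc0
  have habc := hT.abc s hs
  have hc2 : (2 : ℝ) ≤ s.2.2 := by exact_mod_cast Bridge.two_le_c habc
  have hc1 : (1 : ℝ) ≤ s.2.2 := by linarith
  have hc : (0 : ℝ) < s.2.2 := by linarith
  have hlog : 0 < Real.log s.2.2 := Real.log_pos (by linarith)
  have hlogc : Real.log 2 / Real.log s.2.2 ≤ κ := by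
    have h3 : Real.exp (Real.log 2 / κ) ≤ s.2.2 := (le_max_right _ _).trans hc0
    have h4 := (Real.le_log_iff_exp_le hc).2 h3
    rw [div_le_iff₀ hκ] at h4
    rw [div_le_iff₀ hlog]
    linarith
  obtain ⟨hlo, ha, hr⟩ := hP s hs
  have hpoly0 := Pool.Agent.H705R2.ABC.PO.stmtPoly_of basics 25 (1 + κ') s habc
    (hT.le s hs) hr
  have hpoly : Poly 25 (1 + κ) κ (expV 25 s) (expW 25 s) :=
    poly_mono hpoly0 (by linarith) hlogc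
  have hpos : (0 : ℝ) < s.1 := by exact_mod_cast habc.1
  have hn0 : num s 0 = s.1 := rfl
  have hce : cost (expW 25 s) 0 univ = Real.log s.1 / Real.log s.2.2 := by
    rw [Pool.Agent.H705R2.ABC.PO.cost_expW basics 25 s 0 (by rw [hn0]; exact habc.1), hn0]
  have hcost1 : 1 / 20000 ≤ cost (expW 25 s) 0 univ := by
    rw [hce, le_div_iff₀ hlog]
    calc 1 / 20000 * Real.log s.2.2 = Real.log ((s.2.2 : ℝ) ^ (1 / 20000 : ℝ)) :=
          (Real.log_rpow hc _).symm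
      _ ≤ Real.log s.1 := Real.log_le_log (by positivity) hlo
  have hcost2 : cost (expW 25 s) 0 univ ≤ t := by
    rw [hce, div_le_iff₀ hlog]
    calc Real.log s.1 ≤ Real.log ((s.2.2 : ℝ) ^ t) := Real.log_le_log hpos ha
      _ = t * Real.log s.2.2 := Real.log_rpow hc _
  obtain ⟨b, hb, f1, f2⟩ := H _ _ hpoly hcost1 (hcost2.trans ht)
  have hb' := HM T hT s hs b hb
  calc (T.card : ℝ) ≤ D * (s.2.2 : ℝ) ^ (κ / 2) *
        ((s.2.2 : ℝ) ^ b.f1 (expV 25 s) + (s.2.2 : ℝ) ^ b.f2 (expV 25 s) (expW 25 s)) := hb'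
    _ ≤ D * (s.2.2 : ℝ) ^ (κ / 2) *
        ((s.2.2 : ℝ) ^ ((1 + t) / 2 - κ) + (s.2.2 : ℝ) ^ ((1 + t) / 2 - κ)) := by
        apply mul_le_mul_of_nonneg_left _ (by positivity)
        exact add_le_add (Real.rpow_le_rpow_of_exponent_le hc1 (by linarith))
          (Real.rpow_le_rpow_of_exponent_le hc1 (by linarith))
    _ = 2 * D * ((s.2.2 : ℝ) ^ (κ / 2) * (s.2.2 : ℝ) ^ ((1 + t) / 2 - κ)) := by ring
    _ = 2 * D * (s.2.2 : ℝ) ^ ((1 + t) / 2 - κ / 2) := by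
        rw [← Real.rpow_add hc]; congr 2; ring
    _ ≤ 2 * D * (s.2.2 : ℝ) ^ ((1 + t) / 2 - κ') := by
        apply mul_le_mul_of_nonneg_left _ (by positivity)
        exact Real.rpow_le_rpow_of_exponent_le hc1 (by linarith)

/-- the triples with `a ≤ c ^ t` -/
def TinyT (t δ : ℝ) (X : ℕ) : Set (ℕ × ℕ × ℕ) :=
  {u | IsABCTriple u.1 u.2.1 u.2.2 ∧ u.2.2 ≤ X ∧ (u.1 : ℝ) ≤ (u.2.2 : ℝ) ^ t ∧
    (rad (u.1 * u.2.1 * u.2.2) : ℝ) ≤ (u.2.2 : ℝ) ^ (1 + δ)}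

lemma tinyT_finite (t δ : ℝ) (X : ℕ) : (TinyT t δ X).Finite := by
  refine Set.Finite.subset (Finset.finite_toSet
    ((range (X + 1)) ×ˢ (range (X + 1)) ×ˢ (range (X + 1)))) ?_
  rintro ⟨a, b, c⟩ ⟨⟨h1, h2, h3, h4, h5⟩, h6, h7⟩
  simp only at h1 h2 h4 h6
  simp only [coe_product, Set.mem_prod, coe_range, Set.mem_Iio]
  omega

theorem countA : ∃ δ σ : ℝ, 0 < δ ∧ δ ≤ 1 / 10000 ∧ 0 < σ ∧ σ ≤ 1 / 125 ∧
    ∀ t : ℝ, 0 ≤ t → t ≤ 1 / 13 → ∃ C : ℝ, 0 < C ∧ ∀ X : ℕ, 1 ≤ X →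
      ((TinyT t δ X).ncard : ℝ) ≤ C * (X : ℝ) ^ ((1 + t) / 2 - σ) := by
  classical
  obtain ⟨κ, D, c0, hκ, hκ1, hD, hc0, H⟩ := cell_boundA
  obtain ⟨CX, hCX, HX⟩ := countX
  refine ⟨min κ (1 / 10000), min (κ / 2) (1 / 125), by positivity, min_le_right _ _,
    by positivity, min_le_right _ _, ?_⟩
  set δ : ℝ := min κ (1 / 10000) with hδ
  set σ : ℝ := min (κ / 2) (1 / 125) with hσ
  have d1 : δ ≤ κ := min_le_left _ _
  have d2 : δ ≤ 1 / 10000 := min_le_right _ _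
  have s1 : σ ≤ κ / 2 := min_le_left _ _
  have s2 : σ ≤ 1 / 125 := min_le_right _ _
  intro t ht0 ht1
  set c1 : ℕ := ⌈c0⌉₊ + 8 with hc1
  obtain ⟨C, hC, HC⟩ := assemble 25 (fun u => IsABCTriple u.1 u.2.1 u.2.2 ∧ u.1 ≤ u.2.1 ∧
      c1 ≤ u.2.2 ∧ (u.2.2 : ℝ) ^ (1 / 20000 : ℝ) ≤ (u.1 : ℝ) ∧ (u.1 : ℝ) ≤ (u.2.2 : ℝ) ^ t ∧
      (rad (u.1 * u.2.1 * u.2.2) : ℝ) ≤ (u.2.2 : ℝ) ^ (1 + κ)) D c0 ((1 + t) / 2 - κ) hD
    (by linarith)
    (fun u hu => ⟨hu.1, hu.2.1, by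
      have h3 : c0 ≤ (⌈c0⌉₊ : ℝ) := Nat.le_ceil c0
      have h4 : ((⌈c0⌉₊ + 8 : ℕ) : ℝ) ≤ (u.2.2 : ℝ) := by exact_mod_cast hu.2.2.1
      push_cast at h4
      linarith⟩)
    (fun T hT hP s hs => H T hT t ht1 (fun u hu => (hP u hu).2.2.2) s hs (by
      have hu := hP s hs
      have h3 : c0 ≤ (⌈c0⌉₊ : ℝ) := Nat.le_ceil c0
      have h4 : ((⌈c0⌉₊ + 8 : ℕ) : ℝ) ≤ (s.2.2 : ℝ) := by exact_mod_cast hu.2.2.1
      push_cast at h4
      linarith)) (κ / 2) (by positivity)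
  refine ⟨C + ((TinyT t δ c1).ncard : ℝ) + CX, by positivity, ?_⟩
  intro X hX
  have hX1 : (1 : ℝ) ≤ X := by exact_mod_cast hX
  -- large triples
  set B : Set (ℕ × ℕ × ℕ) := {u | u ∈ TinyT t δ X ∧ c1 ≤ u.2.2 ∧
    (u.2.2 : ℝ) ^ (1 / 20000 : ℝ) ≤ (u.1 : ℝ)} with hB
  have hBfin : B.Finite := (tinyT_finite t δ X).subset fun u hu => hu.1
  have hsub : TinyT t δ X ⊆ (B ∪ TinyT t δ c1) ∪ Tiny 1 (1 / 10000) X := by
    intro u hu
    by_cases h : c1 ≤ u.2.2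
    · by_cases h' : (u.2.2 : ℝ) ^ (1 / 20000 : ℝ) ≤ (u.1 : ℝ)
      · exact Or.inl (Or.inl ⟨hu, h, h'⟩)
      · right
        push Not at h'
        have hc1' : (1 : ℝ) ≤ (u.2.2 : ℝ) := by exact_mod_cast (by omega : 1 ≤ u.2.2)
        refine ⟨hu.1, hu.2.1, ?_, ?_⟩
        · exact h'.le.trans (Real.rpow_le_rpow_of_exponent_le hc1' (by norm_num))
        · exact hu.2.2.2.trans (Real.rpow_le_rpow_of_exponent_le hc1' (by linarith))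
    · left; right
      push Not at h
      exact ⟨hu.1, h.le, hu.2.2⟩
  have h1 : ((TinyT t δ X).ncard : ℝ) ≤
      (B.ncard : ℝ) + ((TinyT t δ c1).ncard : ℝ) + ((Tiny 1 (1 / 10000) X).ncard : ℝ) := by
    have h3 := Set.ncard_le_ncard hsub
      ((hBfin.union (tinyT_finite t δ c1)).union (tiny_finite 1 (1 / 10000) X))
    have h4 := Set.ncard_union_le B (TinyT t δ c1)
    have h5 := Set.ncard_union_le (B ∪ TinyT t δ c1) (Tiny 1 (1 / 10000) X)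
    have h6 : (TinyT t δ X).ncard ≤ B.ncard + (TinyT t δ c1).ncard +
        (Tiny 1 (1 / 10000) X).ncard := by omega
    exact_mod_cast h6
  have h3 : (B.ncard : ℝ) ≤ C * (X : ℝ) ^ ((1 + t) / 2 - κ + κ / 2) := by
    have h4 := HC X hX hBfin.toFinset (by
      intro u hu
      rw [Set.Finite.mem_toFinset] at hu
      obtain ⟨⟨hab, hcX, hta, htr⟩, hc, hlo⟩ := hu
      have hcpos : 8 ≤ u.2.2 := by omega
      have hc1' : (1 : ℝ) ≤ (u.2.2 : ℝ) := by exact_mod_cast (by omega : 1 ≤ u.2.2)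
      refine ⟨⟨hab, ?_, hc, hlo, hta, ?_⟩, hcX⟩
      · have h5 : (u.1 : ℝ) ≤ (u.2.2 : ℝ) / 2 := by
          calc (u.1 : ℝ) ≤ (u.2.2 : ℝ) ^ t := hta
            _ ≤ (u.2.2 : ℝ) ^ (1 / 2 : ℝ) :=
                Real.rpow_le_rpow_of_exponent_le hc1' (by linarith)
            _ = Real.sqrt u.2.2 := by rw [Real.sqrt_eq_rpow]
            _ ≤ (u.2.2 : ℝ) / 2 := by
                rw [Real.sqrt_le_left (by positivity)]
                have : (8 : ℝ) ≤ (u.2.2 : ℝ) := by exact_mod_cast hcpos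
                nlinarith
        have h6 : 2 * u.1 ≤ u.2.2 := by
          have : 2 * (u.1 : ℝ) ≤ (u.2.2 : ℝ) := by linarith
          exact_mod_cast this
        have h7 := hab.2.2.2.1
        omega
      · exact htr.trans (Real.rpow_le_rpow_of_exponent_le hc1' (by linarith)))
    rwa [← Set.ncard_eq_toFinset_card B hBfin] at h4
  have h3' : (B.ncard : ℝ) ≤ C * (X : ℝ) ^ ((1 + t) / 2 - σ) := by
    refine h3.trans (mul_le_mul_of_nonneg_left ?_ hC.le)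
    exact Real.rpow_le_rpow_of_exponent_le hX1 (by linarith)
  have h4 : ((TinyT t δ c1).ncard : ℝ) ≤
      ((TinyT t δ c1).ncard : ℝ) * (X : ℝ) ^ ((1 + t) / 2 - σ) :=
    le_mul_of_one_le_right (Nat.cast_nonneg _) (Real.one_le_rpow hX1 (by linarith))
  have h5 : ((Tiny 1 (1 / 10000) X).ncard : ℝ) ≤ CX * (X : ℝ) ^ ((1 + t) / 2 - σ) := by
    refine (HX X hX).trans (mul_le_mul_of_nonneg_left ?_ hCX.le)
    exact Real.rpow_le_rpow_of_exponent_le hX1 (by linarith)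
  calc ((TinyT t δ X).ncard : ℝ) ≤ (B.ncard : ℝ) + ((TinyT t δ c1).ncard : ℝ) +
        ((Tiny 1 (1 / 10000) X).ncard : ℝ) := h1
    _ ≤ _ := by
        rw [add_mul, add_mul]
        exact add_le_add (add_le_add h3' h4) h5

end Pool.Agent.H541.SX
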