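import Mathlib
import Pool.Agent.H541.SX.CompactP
import Pool.Agent.H541.SX.Count
import Pool.Agent.H541.SM.Red2

/-!
# The number of abc-triples with `a ≤ c ^ t`: general form
-/

namespace Pool.Agent.H541.SX

open Finset Pool.Agent.H785R2.ABC Pool.Agent.H785R2.ABC.Fin1 Pool.Agent.H541.SM

/-- the weighted sum of the logarithms of the radicals -/
noncomputable def wr (β : ℝ) (u : ℕ × ℕ × ℕ) : ℝ :=
  2 * β * Real.log (rad u.1) + Real.log (rad u.2.1) + Real.log (rad u.2.2)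

/-- the bound for cells -/
theorem cell_boundP {P : PG} (hO : P.Ok) (hlam : 0 < P.lam) (T0 : ℕ) (hT0 : 2 ≤ T0 * P.μ0) :
    ∃ (K : ℕ) (κ D c0 : ℝ), 0 < κ ∧ κ ≤ 1 / 1000 ∧ κ ≤ P.lam / 4 ∧ 0 < D ∧ 2 ≤ c0 ∧
    ∀ T : Finset (ℕ × ℕ × ℕ), Cell K T → ∀ t : ℝ, t ≤ P.α2 →
      (∀ u ∈ T, (u.2.2 : ℝ) ^ P.α1 ≤ (u.1 : ℝ) ∧ (u.1 : ℝ) ≤ (u.2.2 : ℝ) ^ t ∧
        wr P.β u ≤ (P.lam + κ) * Real.log u.2.2) →
      ∀ s ∈ T, c0 ≤ (s.2.2 : ℝ) →
        (T.card : ℝ) ≤ D * (s.2.2 : ℝ) ^ (P.lam / 2 + (1 - P.β) * t - κ) := by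
  obtain ⟨κ, hκ, H⟩ := compactP (K := T0 ^ 2) hO T0 hT0 le_rfl
  obtain ⟨D, hD, HM⟩ := mbound (T0 ^ 2) (κ / 2) (by positivity)
  refine ⟨T0 ^ 2, min (min (κ / 2) (1 / 1000)) (P.lam / 4), 2 * D,
    max 2 (Real.exp (Real.log 2 / κ)), by positivity,
    (min_le_left _ _).trans (min_le_right _ _), min_le_right _ _, by positivity,
    le_max_left _ _, ?_⟩
  set κ' : ℝ := min (min (κ / 2) (1 / 1000)) (P.lam / 4) with hκ'
  have k1 : κ' ≤ κ / 2 := (min_le_left _ _).trans (min_le_left _ _)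
  intro T hT t ht hP s hs hc0
  have habc := hT.abc s hs
  have hc2 : (2 : ℝ) ≤ s.2.2 := by exact_mod_cast Bridge.two_le_c habc
  have hc1 : (1 : ℝ) ≤ s.2.2 := by linarith
  have hc : (0 : ℝ) < s.2.2 := by linarith
  have hlog : 0 < Real.log s.2.2 := Real.log_pos (by linarith)
  have hlogc : Real.log 2 / Real.log s.2.2 ≤ κ := by
    have h3 : Real.exp (Real.log 2 / κ) ≤ s.2.2 := (le_max_right _ _).trans hc0
    have h4 := (Real.le_log_iff_exp_le hc).2 h3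
    rw [div_le_iff₀ hκ] at h4
    rw [div_le_iff₀ hlog]
    linarith
  obtain ⟨hlo, ha, hr⟩ := hP s hs
  obtain ⟨p1, p2, p3, p4, -⟩ := habc
  have habc := hT.abc s hs
  have hrad3 : (rad (s.1 * s.2.1 * s.2.2) : ℝ) ≤ (s.2.2 : ℝ) ^ (3 : ℝ) := by
    have h1 : rad (s.1 * s.2.1 * s.2.2) ≤ s.1 * s.2.1 * s.2.2 :=
      rad_le _ (Nat.mul_pos (Nat.mul_pos p1 p2) p3)
    have h2 : s.1 * s.2.1 * s.2.2 ≤ s.2.2 * s.2.2 * s.2.2 := by
      gcongr <;> omega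
    have h3 : (s.2.2 : ℝ) ^ (3 : ℝ) = (s.2.2 : ℝ) * s.2.2 * s.2.2 := by
      rw [show (3 : ℝ) = ((3 : ℕ) : ℝ) by norm_num, Real.rpow_natCast]; ring
    rw [h3]
    exact_mod_cast h1.trans h2
  have hpoly0 := Pool.Agent.H705R2.ABC.PO.stmtPoly_of basics (T0 ^ 2) 3 s habc
    (hT.le s hs) hrad3
  have hpoly : Poly (T0 ^ 2) (3 + κ) κ (expV (T0 ^ 2) s) (expW (T0 ^ 2) s) :=
    poly_mono hpoly0 (by linarith) hlogc
  have hpos : (0 : ℝ) < s.1 := by exact_mod_cast habc.1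
  have hn0 : num s 0 = s.1 := rfl
  have hn1 : num s 1 = s.2.1 := rfl
  have hn2 : num s 2 = s.2.2 := rfl
  have htot : 2 * P.β * cost (expV (T0 ^ 2) s) 0 univ + cost (expV (T0 ^ 2) s) 1 univ +
      cost (expV (T0 ^ 2) s) 2 univ ≤ P.lam + κ := by
    rw [Pool.Agent.H705R2.ABC.PO.cost_expV basics, Pool.Agent.H705R2.ABC.PO.cost_expV basics,
      Pool.Agent.H705R2.ABC.PO.cost_expV basics, hn0, hn1, hn2]
    have e : 2 * P.β * (Real.log (rad s.1) / Real.log s.2.2) +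
        Real.log (rad s.2.1) / Real.log s.2.2 + Real.log (rad s.2.2) / Real.log s.2.2 =
        wr P.β s / Real.log s.2.2 := by
      unfold wr; ring
    rw [e, div_le_iff₀ hlog]
    refine hr.trans ?_
    apply mul_le_mul_of_nonneg_right _ hlog.le
    linarith
  have hce : cost (expW (T0 ^ 2) s) 0 univ = Real.log s.1 / Real.log s.2.2 := by
    rw [Pool.Agent.H705R2.ABC.PO.cost_expW basics (T0 ^ 2) s 0 (by rw [hn0]; exact habc.1), hn0]
  have hcost1 : P.α1 ≤ cost (expW (T0 ^ 2) s) 0 univ := by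
    rw [hce, le_div_iff₀ hlog]
    calc P.α1 * Real.log s.2.2 = Real.log ((s.2.2 : ℝ) ^ P.α1) :=
          (Real.log_rpow hc _).symm
      _ ≤ Real.log s.1 := Real.log_le_log (by positivity) hlo
  have hcost2 : cost (expW (T0 ^ 2) s) 0 univ ≤ t := by
    rw [hce, div_le_iff₀ hlog]
    calc Real.log s.1 ≤ Real.log ((s.2.2 : ℝ) ^ t) := Real.log_le_log hpos ha
      _ = t * Real.log s.2.2 := Real.log_rpow hc _
  obtain ⟨b, hb, f1, f2⟩ := H _ _ hpoly htot hcost1 (hcost2.trans ht)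
  have hlvl : lvl P (expW (T0 ^ 2) s) ≤ P.lam / 2 + (1 - P.β) * t := by
    unfold lvl
    have := mul_le_mul_of_nonneg_left hcost2 (by linarith [hO.β1] : 0 ≤ 1 - P.β)
    linarith
  have hb' := HM T hT s hs b hb
  calc (T.card : ℝ) ≤ D * (s.2.2 : ℝ) ^ (κ / 2) *
        ((s.2.2 : ℝ) ^ b.f1 (expV (T0 ^ 2) s) +
          (s.2.2 : ℝ) ^ b.f2 (expV (T0 ^ 2) s) (expW (T0 ^ 2) s)) := hb'
    _ ≤ D * (s.2.2 : ℝ) ^ (κ / 2) *
        ((s.2.2 : ℝ) ^ (P.lam / 2 + (1 - P.β) * t - κ) +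
          (s.2.2 : ℝ) ^ (P.lam / 2 + (1 - P.β) * t - κ)) := by
        apply mul_le_mul_of_nonneg_left _ (by positivity)
        exact add_le_add (Real.rpow_le_rpow_of_exponent_le hc1 (by linarith))
          (Real.rpow_le_rpow_of_exponent_le hc1 (by linarith))
    _ = 2 * D * ((s.2.2 : ℝ) ^ (κ / 2) *
          (s.2.2 : ℝ) ^ (P.lam / 2 + (1 - P.β) * t - κ)) := by ring
    _ = 2 * D * (s.2.2 : ℝ) ^ (P.lam / 2 + (1 - P.β) * t - κ / 2) := by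
        rw [← Real.rpow_add hc]; congr 2; ring
    _ ≤ 2 * D * (s.2.2 : ℝ) ^ (P.lam / 2 + (1 - P.β) * t - κ') := by
        apply mul_le_mul_of_nonneg_left _ (by positivity)
        exact Real.rpow_le_rpow_of_exponent_le hc1 (by linarith)

/-- the triples with `a ≤ c ^ t` -/
def TinyP (lam β t δ : ℝ) (X : ℕ) : Set (ℕ × ℕ × ℕ) :=
  {u | IsABCTriple u.1 u.2.1 u.2.2 ∧ u.2.2 ≤ X ∧ (u.1 : ℝ) ≤ (u.2.2 : ℝ) ^ t ∧
    wr β u ≤ (lam + δ) * Real.log u.2.2}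

lemma tinyP_finite (lam β t δ : ℝ) (X : ℕ) : (TinyP lam β t δ X).Finite := by
  refine Set.Finite.subset (Finset.finite_toSet
    ((range (X + 1)) ×ˢ (range (X + 1)) ×ˢ (range (X + 1)))) ?_
  rintro ⟨a, b, c⟩ ⟨⟨h1, h2, h3, h4, h5⟩, h6, h7⟩
  simp only at h1 h2 h4 h6
  simp only [coe_product, Set.mem_prod, coe_range, Set.mem_Iio]
  omega

lemma radpos (n : ℕ) : (0 : ℝ) < (rad n : ℝ) := by
  exact_mod_cast Pool.Agent.H705R2.ABC.PO.rad_pos' n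

theorem countP {P : PG} (hO : P.Ok) (hlam : 0 < P.lam) (T0 : ℕ) (hT0 : 2 ≤ T0 * P.μ0)
    (δ0 σ0 : ℝ) (hδ0 : 0 < δ0) (hσ0 : 0 < σ0) (hα1 : P.α1 ≤ δ0 / 4) (C0 : ℝ) (hC0 : 0 < C0)
    (H0 : ∀ X : ℕ, 1 ≤ X → ((Tiny P.lam δ0 X).ncard : ℝ) ≤ C0 * (X : ℝ) ^ (P.lam / 2 - σ0)) :
    ∃ δ σ : ℝ, 0 < δ ∧ δ ≤ 1 / 1000 ∧ 0 < σ ∧ σ ≤ P.lam / 4 ∧
    ∀ t : ℝ, 0 ≤ t → t ≤ P.α2 → ∃ C : ℝ, 0 < C ∧ ∀ X : ℕ, 1 ≤ X →
      ((TinyP P.lam P.β t δ X).ncard : ℝ) ≤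
        C * (X : ℝ) ^ (P.lam / 2 + (1 - P.β) * t - σ) := by
  classical
  obtain ⟨K, κ, D, c0, hκ, hκ1, hκ2, hD, hc0, H⟩ := cell_boundP hO hlam T0 hT0
  refine ⟨min κ (δ0 / 4), min (κ / 2) σ0, by positivity, (min_le_left _ _).trans hκ1,
    by positivity, (min_le_left _ _).trans (by linarith), ?_⟩
  set δ : ℝ := min κ (δ0 / 4) with hδ
  set σ : ℝ := min (κ / 2) σ0 with hσ
  have d1 : δ ≤ κ := min_le_left _ _
  have d2 : δ ≤ δ0 / 4 := min_le_right _ _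
  have s1 : σ ≤ κ / 2 := min_le_left _ _
  have s2 : σ ≤ σ0 := min_le_right _ _
  intro t ht0 ht1
  have hβ1 := hO.β1
  have hβ0 := hO.β0
  have hα21 := hO.α21
  have hβt : 0 ≤ (1 - P.β) * t := mul_nonneg (by linarith) ht0
  set c2' : ℝ := (2 : ℝ) ^ (1 / (1 - P.α2)) with hc2'
  set c1 : ℕ := ⌈c0⌉₊ + 8 + ⌈c2'⌉₊ with hc1
  obtain ⟨C, hC, HC⟩ := assemble K (fun u => IsABCTriple u.1 u.2.1 u.2.2 ∧ u.1 ≤ u.2.1 ∧
      c1 ≤ u.2.2 ∧ (u.2.2 : ℝ) ^ P.α1 ≤ (u.1 : ℝ) ∧ (u.1 : ℝ) ≤ (u.2.2 : ℝ) ^ t ∧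
      wr P.β u ≤ (P.lam + κ) * Real.log u.2.2) D c0 (P.lam / 2 + (1 - P.β) * t - κ) hD
    (by linarith)
    (fun u hu => ⟨hu.1, hu.2.1, by
      have h3 : c0 ≤ (⌈c0⌉₊ : ℝ) := Nat.le_ceil c0
      have h4 : ((⌈c0⌉₊ + 8 + ⌈c2'⌉₊ : ℕ) : ℝ) ≤ (u.2.2 : ℝ) := by exact_mod_cast hu.2.2.1
      have h5 : (0 : ℝ) ≤ (⌈c2'⌉₊ : ℝ) := Nat.cast_nonneg _
      push_cast at h4
      linarith⟩)
    (fun T hT hP s hs => H T hT t ht1 (fun u hu => (hP u hu).2.2.2) s hs (by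
      have hu := hP s hs
      have h3 : c0 ≤ (⌈c0⌉₊ : ℝ) := Nat.le_ceil c0
      have h4 : ((⌈c0⌉₊ + 8 + ⌈c2'⌉₊ : ℕ) : ℝ) ≤ (s.2.2 : ℝ) := by exact_mod_cast hu.2.2.1
      have h5 : (0 : ℝ) ≤ (⌈c2'⌉₊ : ℝ) := Nat.cast_nonneg _
      push_cast at h4
      linarith)) (κ / 2) (by positivity)
  refine ⟨C + ((TinyP P.lam P.β t δ c1).ncard : ℝ) + C0, by positivity, ?_⟩
  intro X hX
  have hX1 : (1 : ℝ) ≤ X := by exact_mod_cast hX
  -- large triples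
  set B : Set (ℕ × ℕ × ℕ) := {u | u ∈ TinyP P.lam P.β t δ X ∧ c1 ≤ u.2.2 ∧
    (u.2.2 : ℝ) ^ P.α1 ≤ (u.1 : ℝ)} with hB
  have hBfin : B.Finite := (tinyP_finite P.lam P.β t δ X).subset fun u hu => hu.1
  have hsub : TinyP P.lam P.β t δ X ⊆ (B ∪ TinyP P.lam P.β t δ c1) ∪ Tiny P.lam δ0 X := by
    intro u hu
    by_cases h : c1 ≤ u.2.2
    · by_cases h' : (u.2.2 : ℝ) ^ P.α1 ≤ (u.1 : ℝ)
      · exact Or.inl (Or.inl ⟨hu, h, h'⟩)
      · right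
        push Not at h'
        have hc1' : (1 : ℝ) ≤ (u.2.2 : ℝ) := by exact_mod_cast (by omega : 1 ≤ u.2.2)
        have hc0' : (0 : ℝ) < (u.2.2 : ℝ) := by linarith
        have hlog0 : 0 ≤ Real.log (u.2.2 : ℝ) := Real.log_nonneg hc1'
        have hu0 : 0 < u.1 := hu.1.1
        have hu0' : (0 : ℝ) < u.1 := by exact_mod_cast hu0
        refine ⟨hu.1, hu.2.1, ?_, ?_⟩
        · exact h'.le.trans (Real.rpow_le_rpow_of_exponent_le hc1' (by linarith))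
        · have g1 : (rad (u.1 * u.2.1 * u.2.2) : ℝ) ≤
              (rad u.1 : ℝ) * (rad u.2.1 : ℝ) * (rad u.2.2 : ℝ) := by
            have : rad (u.1 * u.2.1 * u.2.2) ≤ rad u.1 * rad u.2.1 * rad u.2.2 :=
              (rad_mul_le _ _).trans (Nat.mul_le_mul_right _ (rad_mul_le _ _))
            exact_mod_cast this
          have r1 := radpos u.1
          have r2 := radpos u.2.1
          have r3 := radpos u.2.2
          have l1 : 0 ≤ Real.log (rad u.1 : ℝ) := by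
            apply Real.log_nonneg
            exact_mod_cast Pool.Agent.H705R2.ABC.PO.rad_pos' u.1
          have l2 : Real.log (rad u.1 : ℝ) ≤ P.α1 * Real.log u.2.2 := by
            have h3 : (rad u.1 : ℝ) ≤ u.1 := by exact_mod_cast rad_le u.1 hu0
            calc Real.log (rad u.1 : ℝ) ≤ Real.log u.1 := Real.log_le_log r1 h3
              _ ≤ Real.log ((u.2.2 : ℝ) ^ P.α1) := Real.log_le_log hu0' h'.le
              _ = P.α1 * Real.log u.2.2 := Real.log_rpow hc0' _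
          have l3 := hu.2.2.2
          unfold wr at l3
          refine g1.trans ?_
          rw [← Real.exp_log (mul_pos (mul_pos r1 r2) r3), Real.rpow_def_of_pos hc0',
            Real.log_mul (mul_pos r1 r2).ne' r3.ne', Real.log_mul r1.ne' r2.ne']
          apply Real.exp_le_exp.2
          have l4 : 0 ≤ 2 * P.β * Real.log (rad u.1 : ℝ) := by positivity
          calc Real.log (rad u.1 : ℝ) + Real.log (rad u.2.1 : ℝ) + Real.log (rad u.2.2 : ℝ) ≤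
                P.α1 * Real.log u.2.2 + (P.lam + δ) * Real.log u.2.2 := by linarith
            _ = Real.log u.2.2 * (P.lam + (P.α1 + δ)) := by ring
            _ ≤ Real.log u.2.2 * (P.lam + δ0) := by
                apply mul_le_mul_of_nonneg_left _ hlog0
                linarith
    · left; right
      push Not at h
      exact ⟨hu.1, h.le, hu.2.2⟩
  have h1 : ((TinyP P.lam P.β t δ X).ncard : ℝ) ≤
      (B.ncard : ℝ) + ((TinyP P.lam P.β t δ c1).ncard : ℝ) + ((Tiny P.lam δ0 X).ncard : ℝ) := by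
    have h3 := Set.ncard_le_ncard hsub
      ((hBfin.union (tinyP_finite P.lam P.β t δ c1)).union (tiny_finite P.lam δ0 X))
    have h4 := Set.ncard_union_le B (TinyP P.lam P.β t δ c1)
    have h5 := Set.ncard_union_le (B ∪ TinyP P.lam P.β t δ c1) (Tiny P.lam δ0 X)
    have h6 : (TinyP P.lam P.β t δ X).ncard ≤ B.ncard + (TinyP P.lam P.β t δ c1).ncard +
        (Tiny P.lam δ0 X).ncard := by omega
    exact_mod_cast h6
  have h3 : (B.ncard : ℝ) ≤ C * (X : ℝ) ^ (P.lam / 2 + (1 - P.β) * t - κ + κ / 2) := by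
    have h4 := HC X hX hBfin.toFinset (by
      intro u hu
      rw [Set.Finite.mem_toFinset] at hu
      obtain ⟨⟨hab, hcX, hta, htr⟩, hc, hlo⟩ := hu
      have hcpos : 8 ≤ u.2.2 := by omega
      have hc1' : (1 : ℝ) ≤ (u.2.2 : ℝ) := by exact_mod_cast (by omega : 1 ≤ u.2.2)
      have hc0' : (0 : ℝ) < (u.2.2 : ℝ) := by linarith
      have hcbig : c2' ≤ (u.2.2 : ℝ) := by
        have h3 : c2' ≤ (⌈c2'⌉₊ : ℝ) := Nat.le_ceil c2'
        have h4 : ((⌈c0⌉₊ + 8 + ⌈c2'⌉₊ : ℕ) : ℝ) ≤ (u.2.2 : ℝ) := by exact_mod_cast hc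
        have h5 : (0 : ℝ) ≤ (⌈c0⌉₊ : ℝ) := Nat.cast_nonneg _
        push_cast at h4
        linarith
      refine ⟨⟨hab, ?_, hc, hlo, hta, ?_⟩, hcX⟩
      · have h5 : 2 * (u.1 : ℝ) ≤ (u.2.2 : ℝ) := by
          have e2 : (2 : ℝ) ≤ (u.2.2 : ℝ) ^ (1 - P.α2) := by
            calc (2 : ℝ) = c2' ^ (1 - P.α2) := by
                  rw [hc2', ← Real.rpow_mul (by norm_num),
                    one_div_mul_cancel (by linarith : (1 - P.α2) ≠ 0), Real.rpow_one]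
              _ ≤ (u.2.2 : ℝ) ^ (1 - P.α2) :=
                  Real.rpow_le_rpow (by positivity) hcbig (by linarith)
          calc 2 * (u.1 : ℝ) ≤ (u.2.2 : ℝ) ^ (1 - P.α2) * (u.2.2 : ℝ) ^ P.α2 := by
                apply mul_le_mul e2 _ (Nat.cast_nonneg _) (by positivity)
                exact hta.trans (Real.rpow_le_rpow_of_exponent_le hc1' ht1)
            _ = (u.2.2 : ℝ) := by
                rw [← Real.rpow_add hc0', sub_add_cancel, Real.rpow_one]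
        have h6 : 2 * u.1 ≤ u.2.2 := by exact_mod_cast h5
        have h7 := hab.2.2.2.1
        omega
      · refine htr.trans (mul_le_mul_of_nonneg_right (by linarith) (Real.log_nonneg hc1')))
    rwa [← Set.ncard_eq_toFinset_card B hBfin] at h4
  have h3' : (B.ncard : ℝ) ≤ C * (X : ℝ) ^ (P.lam / 2 + (1 - P.β) * t - σ) := by
    refine h3.trans (mul_le_mul_of_nonneg_left ?_ hC.le)
    exact Real.rpow_le_rpow_of_exponent_le hX1 (by linarith)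
  have h4 : ((TinyP P.lam P.β t δ c1).ncard : ℝ) ≤
      ((TinyP P.lam P.β t δ c1).ncard : ℝ) *
        (X : ℝ) ^ (P.lam / 2 + (1 - P.β) * t - σ) :=
    le_mul_of_one_le_right (Nat.cast_nonneg _) (Real.one_le_rpow hX1 (by linarith))
  have h5 : ((Tiny P.lam δ0 X).ncard : ℝ) ≤
      C0 * (X : ℝ) ^ (P.lam / 2 + (1 - P.β) * t - σ) := by
    refine (H0 X hX).trans (mul_le_mul_of_nonneg_left ?_ hC0.le)
    exact Real.rpow_le_rpow_of_exponent_le hX1 (by linarith)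
  calc ((TinyP P.lam P.β t δ X).ncard : ℝ) ≤ (B.ncard : ℝ) +
        ((TinyP P.lam P.β t δ c1).ncard : ℝ) + ((Tiny P.lam δ0 X).ncard : ℝ) := h1
    _ ≤ _ := by
        rw [add_mul, add_mul]
        exact add_le_add (add_le_add h3' h4) h5

end Pool.Agent.H541.SX
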