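import Mathlib
import Pool.Agent.H541.SX.CountP

/-!
# The number of abc-triples with `a ≤ c ^ t`, `t ≥ t0`: general form
-/

namespace Pool.Agent.H541.SX

open Finset Pool.Agent.H785R2.ABC Pool.Agent.H785R2.ABC.Fin1 Pool.Agent.H541.SM

/-- from a bound for cells to the count -/
theorem count_of_cell' (lam : ℝ) (K : ℕ) (δ D c0 e ε : ℝ) (hδ1 : δ ≤ 1 / 1000)
    (hD : 0 < D) (he : 0 ≤ e) (hε : 0 < ε)
    (H : ∀ T : Finset (ℕ × ℕ × ℕ), Cell K T →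
      (∀ t ∈ T, (t.1 : ℝ) ≤ (t.2.2 : ℝ) ^ δ ∧
        (rad (t.1 * t.2.1 * t.2.2) : ℝ) ≤ (t.2.2 : ℝ) ^ (lam + δ)) →
      ∀ s ∈ T, c0 ≤ (s.2.2 : ℝ) → (T.card : ℝ) ≤ D * (s.2.2 : ℝ) ^ e) :
    ∃ C : ℝ, 0 < C ∧ ∀ X : ℕ, 1 ≤ X →
      ((Tiny lam δ X).ncard : ℝ) ≤ C * (X : ℝ) ^ (e + ε) := by
  classical
  set c1 : ℕ := ⌈c0⌉₊ + 4 with hc1
  obtain ⟨C, hC, HC⟩ := assemble K (fun t => IsABCTriple t.1 t.2.1 t.2.2 ∧ t.1 ≤ t.2.1 ∧
      c1 ≤ t.2.2 ∧ (t.1 : ℝ) ≤ (t.2.2 : ℝ) ^ δ ∧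
      (rad (t.1 * t.2.1 * t.2.2) : ℝ) ≤ (t.2.2 : ℝ) ^ (lam + δ)) D c0 e hD
    he
    (fun t ht => ⟨ht.1, ht.2.1, by
      have h3 : c0 ≤ (⌈c0⌉₊ : ℝ) := Nat.le_ceil c0
      have h4 : ((⌈c0⌉₊ + 4 : ℕ) : ℝ) ≤ (t.2.2 : ℝ) := by exact_mod_cast ht.2.2.1
      push_cast at h4
      linarith⟩)
    (fun T hT hP s hs => H T hT (fun t ht => (hP t ht).2.2.2) s hs (by
      have ht := hP s hs
      have h3 : c0 ≤ (⌈c0⌉₊ : ℝ) := Nat.le_ceil c0
      have h4 : ((⌈c0⌉₊ + 4 : ℕ) : ℝ) ≤ (s.2.2 : ℝ) := by exact_mod_cast ht.2.2.1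
      push_cast at h4
      linarith)) ε hε
  refine ⟨C + ((Tiny lam δ c1).ncard : ℝ), by positivity, ?_⟩
  intro X hX
  have hX1 : (1 : ℝ) ≤ X := by exact_mod_cast hX
  have hθ0 : 0 ≤ e + ε := by linarith
  -- large triples
  set B : Set (ℕ × ℕ × ℕ) := {t | t ∈ Tiny lam δ X ∧ c1 ≤ t.2.2} with hB
  have hBfin : B.Finite := (tiny_finite lam δ X).subset fun t ht => ht.1
  have hsub : Tiny lam δ X ⊆ B ∪ Tiny lam δ c1 := by
    intro t ht
    by_cases h : c1 ≤ t.2.2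
    · exact Or.inl ⟨ht, h⟩
    · right
      push Not at h
      exact ⟨ht.1, h.le, ht.2.2⟩
  have h1 : ((Tiny lam δ X).ncard : ℝ) ≤ (B.ncard : ℝ) + ((Tiny lam δ c1).ncard : ℝ) := by
    have h3 := Set.ncard_le_ncard hsub (hBfin.union (tiny_finite lam δ c1))
    have h4 := Set.ncard_union_le B (Tiny lam δ c1)
    exact_mod_cast h3.trans h4
  have h3 : (B.ncard : ℝ) ≤ C * (X : ℝ) ^ (e + ε) := by
    have h4 := HC X hX hBfin.toFinset (by
      intro t ht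
      rw [Set.Finite.mem_toFinset] at ht
      obtain ⟨⟨hab, hcX, hta, htr⟩, hc⟩ := ht
      have hcpos : 4 ≤ t.2.2 := by omega
      have hc1' : (1 : ℝ) ≤ (t.2.2 : ℝ) := by exact_mod_cast (by omega : 1 ≤ t.2.2)
      refine ⟨⟨hab, ?_, hc, ?_, ?_⟩, hcX⟩
      · have h5 : (t.1 : ℝ) ≤ (t.2.2 : ℝ) / 2 := by
          calc (t.1 : ℝ) ≤ (t.2.2 : ℝ) ^ δ := hta
            _ ≤ (t.2.2 : ℝ) ^ (1 / 2 : ℝ) :=
                Real.rpow_le_rpow_of_exponent_le hc1' (by linarith)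
            _ = Real.sqrt t.2.2 := by rw [Real.sqrt_eq_rpow]
            _ ≤ (t.2.2 : ℝ) / 2 := by
                rw [Real.sqrt_le_left (by positivity)]
                have : (4 : ℝ) ≤ (t.2.2 : ℝ) := by exact_mod_cast hcpos
                nlinarith
        have h6 : 2 * t.1 ≤ t.2.2 := by
          have : 2 * (t.1 : ℝ) ≤ (t.2.2 : ℝ) := by linarith
          exact_mod_cast this
        have h7 := hab.2.2.2.1
        omega
      · exact hta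
      · exact htr)
    rwa [← Set.ncard_eq_toFinset_card B hBfin] at h4
  have h4 : ((Tiny lam δ c1).ncard : ℝ) ≤
      ((Tiny lam δ c1).ncard : ℝ) * (X : ℝ) ^ (e + ε) :=
    le_mul_of_one_le_right (Nat.cast_nonneg _) (Real.one_le_rpow hX1 hθ0)
  calc ((Tiny lam δ X).ncard : ℝ) ≤ (B.ncard : ℝ) + ((Tiny lam δ c1).ncard : ℝ) := h1
    _ ≤ _ := by
        rw [add_mul]
        exact add_le_add h3 h4

/-- the trivial bound for the smallest `a` -/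
theorem countTriv (lam : ℝ) (h0 : 0 < lam) (ε : ℝ) (hε : 0 < ε) :
    ∃ δ0 : ℝ, 0 < δ0 ∧ ∃ C0 : ℝ, 0 < C0 ∧ ∀ X : ℕ, 1 ≤ X →
      ((Tiny lam δ0 X).ncard : ℝ) ≤ C0 * (X : ℝ) ^ (lam / 2 + ε) := by
  set δ0 : ℝ := min (ε / 8) (1 / 1000) with hδ0
  have k0 : 0 < δ0 := by rw [hδ0]; positivity
  have k1 : δ0 ≤ ε / 8 := min_le_left _ _
  have k2 : δ0 ≤ 1 / 1000 := min_le_right _ _
  obtain ⟨D, hD, HM⟩ := mbound 1 (ε / 4) (by positivity)
  have hcell : ∀ T : Finset (ℕ × ℕ × ℕ), Cell 1 T →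
      (∀ t ∈ T, (t.1 : ℝ) ≤ (t.2.2 : ℝ) ^ δ0 ∧
        (rad (t.1 * t.2.1 * t.2.2) : ℝ) ≤ (t.2.2 : ℝ) ^ (lam + δ0)) →
      ∀ s ∈ T, (2 : ℝ) ≤ (s.2.2 : ℝ) →
        (T.card : ℝ) ≤ (2 * D) * (s.2.2 : ℝ) ^ (lam / 2 + ε / 2) := by
    intro T hT hP s hs hc2
    have habc := hT.abc s hs
    have hc1 : (1 : ℝ) ≤ s.2.2 := by linarith
    have hc : (0 : ℝ) < s.2.2 := by linarith
    have hlog : 0 < Real.log s.2.2 := Real.log_pos (by linarith)
    obtain ⟨ha, hr⟩ := hP s hs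
    have hpoly := Pool.Agent.H705R2.ABC.PO.stmtPoly_of basics 1 (lam + δ0) s habc
      (hT.le s hs) hr
    have hcost : cost (expW 1 s) 0 univ ≤ δ0 := by
      have hn0 : num s 0 = s.1 := rfl
      rw [Pool.Agent.H705R2.ABC.PO.cost_expW basics 1 s 0 (by rw [hn0]; exact habc.1), hn0,
        div_le_iff₀ hlog]
      have hpos : (0 : ℝ) < s.1 := by exact_mod_cast habc.1
      calc Real.log s.1 ≤ Real.log ((s.2.2 : ℝ) ^ δ0) := Real.log_le_log hpos ha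
        _ = δ0 * Real.log s.2.2 := Real.log_rpow hc _
    have hv0 : 0 ≤ cost (expV 1 s) 0 univ := sum_nonneg fun i _ => hpoly.v_nonneg 0 i
    have htot := hpoly.tot
    have hw1 := hpoly.w1
    have hw2 := hpoly.w2
    have hb : ∃ b : Par 1, b.Valid ∧ b.f1 (expV 1 s) ≤ lam / 2 + 2 * δ0 ∧
        b.f2 (expV 1 s) (expW 1 s) ≤ lam / 2 + 2 * δ0 := by
      rcases le_total (cost (expV 1 s) 1 univ) (cost (expV 1 s) 2 univ) with h | h
      · refine ⟨⟨2, 1, 0, 1, univ, ∅, ∅⟩, ⟨show (2 : Fin 3) ≠ 1 by decide,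
          show (1 : Fin 3) ≠ 0 by decide, show (2 : Fin 3) ≠ 0 by decide, le_rfl, by simp,
          good_one _, good_one _⟩, ?_, ?_⟩
        · simp only [Par.f1, cost_compl, cost_empty]
          linarith
        · simp only [Par.f1, Par.f2, thn, cost_compl, cost_empty, if_true, Nat.cast_one]
          linarith
      · refine ⟨⟨1, 2, 0, 1, univ, ∅, ∅⟩, ⟨show (1 : Fin 3) ≠ 2 by decide,
          show (2 : Fin 3) ≠ 0 by decide, show (1 : Fin 3) ≠ 0 by decide, le_rfl, by simp,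
          good_one _, good_one _⟩, ?_, ?_⟩
        · simp only [Par.f1, cost_compl, cost_empty]
          linarith
        · simp only [Par.f1, Par.f2, thn, cost_compl, cost_empty, if_true, Nat.cast_one]
          linarith
    obtain ⟨b, hbv, f1, f2⟩ := hb
    have hb' := HM T hT s hs b hbv
    calc (T.card : ℝ) ≤ D * (s.2.2 : ℝ) ^ (ε / 4) *
          ((s.2.2 : ℝ) ^ b.f1 (expV 1 s) + (s.2.2 : ℝ) ^ b.f2 (expV 1 s) (expW 1 s)) := hb'
      _ ≤ D * (s.2.2 : ℝ) ^ (ε / 4) *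
          ((s.2.2 : ℝ) ^ (lam / 2 + 2 * δ0) + (s.2.2 : ℝ) ^ (lam / 2 + 2 * δ0)) := by
          apply mul_le_mul_of_nonneg_left _ (by positivity)
          exact add_le_add (Real.rpow_le_rpow_of_exponent_le hc1 f1)
            (Real.rpow_le_rpow_of_exponent_le hc1 f2)
      _ = 2 * D * ((s.2.2 : ℝ) ^ (ε / 4) * (s.2.2 : ℝ) ^ (lam / 2 + 2 * δ0)) := by ring
      _ = 2 * D * (s.2.2 : ℝ) ^ (lam / 2 + (ε / 4 + 2 * δ0)) := by
          rw [← Real.rpow_add hc]; congr 2; ring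
      _ ≤ (2 * D) * (s.2.2 : ℝ) ^ (lam / 2 + ε / 2) := by
          apply mul_le_mul_of_nonneg_left _ (by positivity)
          exact Real.rpow_le_rpow_of_exponent_le hc1 (by linarith)
  obtain ⟨C, hC, H⟩ := count_of_cell' lam 1 δ0 (2 * D) 2 (lam / 2 + ε / 2) (ε / 2) k2
    (by positivity) (by positivity) (by positivity) hcell
  refine ⟨δ0, k0, C, hC, fun X hX => ?_⟩
  have e : lam / 2 + ε = lam / 2 + ε / 2 + ε / 2 := by ring
  rw [e]
  exact H X hX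

theorem countQ {P : PG} (hO : P.Ok) (hlam : 0 < P.lam) (T0 : ℕ) (hT0 : 2 ≤ T0 * P.μ0)
    (t0 : ℝ) (ht00 : 0 ≤ t0)
    (δ0 σ0 : ℝ) (hδ0 : 0 < δ0) (hσ0 : 0 < σ0) (hα1 : P.α1 ≤ δ0 / 4) (C0 : ℝ) (hC0 : 0 < C0)
    (H0 : ∀ X : ℕ, 1 ≤ X → ((Tiny P.lam δ0 X).ncard : ℝ) ≤
      C0 * (X : ℝ) ^ (P.lam / 2 + (1 - P.β) * t0 - σ0)) :
    ∃ δ σ : ℝ, 0 < δ ∧ δ ≤ 1 / 1000 ∧ 0 < σ ∧ σ ≤ P.lam / 4 ∧
    ∀ t : ℝ, t0 ≤ t → t ≤ P.α2 → ∃ C : ℝ, 0 < C ∧ ∀ X : ℕ, 1 ≤ X →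
      ((TinyP P.lam P.β t δ X).ncard : ℝ) ≤
        C * (X : ℝ) ^ (P.lam / 2 + (1 - P.β) * t - σ) := by
  classical
  obtain ⟨K, κ, D, c0, hκ, hκ1, hκ2, hD, hc0, H⟩ := cell_boundP hO hlam T0 hT0
  refine ⟨min κ (δ0 / 4), min (κ / 2) σ0, by positivity, (min_le_left _ _).trans hκ1,
    by positivity, (min_le_left _ _).trans (by linarith), ?_⟩
  set δ : ℝ := min κ (δ0 / 4) with hδ
  set σ : ℝ := min (κ / 2) σ0 with hσ
  have d1 : δ ≤ κ := min_le_left _ _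
  have d2 : δ ≤ δ0 / 4 := min_le_right _ _
  have s1 : σ ≤ κ / 2 := min_le_left _ _
  have s2 : σ ≤ σ0 := min_le_right _ _
  intro t ht0' ht1
  have ht0 : 0 ≤ t := ht00.trans ht0'
  have hβ1 := hO.β1
  have hβ0 := hO.β0
  have hα21 := hO.α21
  have hβt : 0 ≤ (1 - P.β) * t := mul_nonneg (by linarith) ht0
  set c2' : ℝ := (2 : ℝ) ^ (1 / (1 - P.α2)) with hc2'
  set c1 : ℕ := ⌈c0⌉₊ + 8 + ⌈c2'⌉₊ with hc1
  obtain ⟨C, hC, HC⟩ := assemble K (fun u => IsABCTriple u.1 u.2.1 u.2.2 ∧ u.1 ≤ u.2.1 ∧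
      c1 ≤ u.2.2 ∧ (u.2.2 : ℝ) ^ P.α1 ≤ (u.1 : ℝ) ∧ (u.1 : ℝ) ≤ (u.2.2 : ℝ) ^ t ∧
      wr P.β u ≤ (P.lam + κ) * Real.log u.2.2) D c0 (P.lam / 2 + (1 - P.β) * t - κ) hD
    (by linarith)
    (fun u hu => ⟨hu.1, hu.2.1, by
      have h3 : c0 ≤ (⌈c0⌉₊ : ℝ) := Nat.le_ceil c0
      have h4 : ((⌈c0⌉₊ + 8 + ⌈c2'⌉₊ : ℕ) : ℝ) ≤ (u.2.2 : ℝ) := by exact_mod_cast hu.2.2.1
      have h5 : (0 : ℝ) ≤ (⌈c2'⌉₊ : ℝ) := Nat.cast_nonneg _
      push_cast at h4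
      linarith⟩)
    (fun T hT hP s hs => H T hT t ht1 (fun u hu => (hP u hu).2.2.2) s hs (by
      have hu := hP s hs
      have h3 : c0 ≤ (⌈c0⌉₊ : ℝ) := Nat.le_ceil c0
      have h4 : ((⌈c0⌉₊ + 8 + ⌈c2'⌉₊ : ℕ) : ℝ) ≤ (s.2.2 : ℝ) := by exact_mod_cast hu.2.2.1
      have h5 : (0 : ℝ) ≤ (⌈c2'⌉₊ : ℝ) := Nat.cast_nonneg _
      push_cast at h4
      linarith)) (κ / 2) (by positivity)
  refine ⟨C + ((TinyP P.lam P.β t δ c1).ncard : ℝ) + C0, by positivity, ?_⟩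
  intro X hX
  have hX1 : (1 : ℝ) ≤ X := by exact_mod_cast hX
  -- large triples
  set B : Set (ℕ × ℕ × ℕ) := {u | u ∈ TinyP P.lam P.β t δ X ∧ c1 ≤ u.2.2 ∧
    (u.2.2 : ℝ) ^ P.α1 ≤ (u.1 : ℝ)} with hB
  have hBfin : B.Finite := (tinyP_finite P.lam P.β t δ X).subset fun u hu => hu.1
  have hsub : TinyP P.lam P.β t δ X ⊆ (B ∪ TinyP P.lam P.β t δ c1) ∪ Tiny P.lam δ0 X := by
    intro u hu
    by_cases h : c1 ≤ u.2.2
    · by_cases h' : (u.2.2 : ℝ) ^ P.α1 ≤ (u.1 : ℝ)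
      · exact Or.inl (Or.inl ⟨hu, h, h'⟩)
      · right
        push Not at h'
        have hc1' : (1 : ℝ) ≤ (u.2.2 : ℝ) := by exact_mod_cast (by omega : 1 ≤ u.2.2)
        have hc0' : (0 : ℝ) < (u.2.2 : ℝ) := by linarith
        have hlog0 : 0 ≤ Real.log (u.2.2 : ℝ) := Real.log_nonneg hc1'
        have hu0 : 0 < u.1 := hu.1.1
        have hu0' : (0 : ℝ) < u.1 := by exact_mod_cast hu0
        refine ⟨hu.1, hu.2.1, ?_, ?_⟩
        · exact h'.le.trans (Real.rpow_le_rpow_of_exponent_le hc1' (by linarith))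
        · have g1 : (rad (u.1 * u.2.1 * u.2.2) : ℝ) ≤
              (rad u.1 : ℝ) * (rad u.2.1 : ℝ) * (rad u.2.2 : ℝ) := by
            have : rad (u.1 * u.2.1 * u.2.2) ≤ rad u.1 * rad u.2.1 * rad u.2.2 :=
              (rad_mul_le _ _).trans (Nat.mul_le_mul_right _ (rad_mul_le _ _))
            exact_mod_cast this
          have r1 := radpos u.1
          have r2 := radpos u.2.1
          have r3 := radpos u.2.2
          have l1 : 0 ≤ Real.log (rad u.1 : ℝ) := by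
            apply Real.log_nonneg
            exact_mod_cast Pool.Agent.H705R2.ABC.PO.rad_pos' u.1
          have l2 : Real.log (rad u.1 : ℝ) ≤ P.α1 * Real.log u.2.2 := by
            have h3 : (rad u.1 : ℝ) ≤ u.1 := by exact_mod_cast rad_le u.1 hu0
            calc Real.log (rad u.1 : ℝ) ≤ Real.log u.1 := Real.log_le_log r1 h3
              _ ≤ Real.log ((u.2.2 : ℝ) ^ P.α1) := Real.log_le_log hu0' h'.le
              _ = P.α1 * Real.log u.2.2 := Real.log_rpow hc0' _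
          have l3 := hu.2.2.2
          unfold wr at l3
          refine g1.trans ?_
          rw [← Real.exp_log (mul_pos (mul_pos r1 r2) r3), Real.rpow_def_of_pos hc0',
            Real.log_mul (mul_pos r1 r2).ne' r3.ne', Real.log_mul r1.ne' r2.ne']
          apply Real.exp_le_exp.2
          have l4 : 0 ≤ 2 * P.β * Real.log (rad u.1 : ℝ) := by positivity
          calc Real.log (rad u.1 : ℝ) + Real.log (rad u.2.1 : ℝ) + Real.log (rad u.2.2 : ℝ) ≤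
                P.α1 * Real.log u.2.2 + (P.lam + δ) * Real.log u.2.2 := by linarith
            _ = Real.log u.2.2 * (P.lam + (P.α1 + δ)) := by ring
            _ ≤ Real.log u.2.2 * (P.lam + δ0) := by
                apply mul_le_mul_of_nonneg_left _ hlog0
                linarith
    · left; right
      push Not at h
      exact ⟨hu.1, h.le, hu.2.2⟩
  have h1 : ((TinyP P.lam P.β t δ X).ncard : ℝ) ≤
      (B.ncard : ℝ) + ((TinyP P.lam P.β t δ c1).ncard : ℝ) + ((Tiny P.lam δ0 X).ncard : ℝ) := by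
    have h3 := Set.ncard_le_ncard hsub
      ((hBfin.union (tinyP_finite P.lam P.β t δ c1)).union (tiny_finite P.lam δ0 X))
    have h4 := Set.ncard_union_le B (TinyP P.lam P.β t δ c1)
    have h5 := Set.ncard_union_le (B ∪ TinyP P.lam P.β t δ c1) (Tiny P.lam δ0 X)
    have h6 : (TinyP P.lam P.β t δ X).ncard ≤ B.ncard + (TinyP P.lam P.β t δ c1).ncard +
        (Tiny P.lam δ0 X).ncard := by omega
    exact_mod_cast h6
  have h3 : (B.ncard : ℝ) ≤ C * (X : ℝ) ^ (P.lam / 2 + (1 - P.β) * t - κ + κ / 2) := by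
    have h4 := HC X hX hBfin.toFinset (by
      intro u hu
      rw [Set.Finite.mem_toFinset] at hu
      obtain ⟨⟨hab, hcX, hta, htr⟩, hc, hlo⟩ := hu
      have hcpos : 8 ≤ u.2.2 := by omega
      have hc1' : (1 : ℝ) ≤ (u.2.2 : ℝ) := by exact_mod_cast (by omega : 1 ≤ u.2.2)
      have hc0' : (0 : ℝ) < (u.2.2 : ℝ) := by linarith
      have hcbig : c2' ≤ (u.2.2 : ℝ) := by
        have h3 : c2' ≤ (⌈c2'⌉₊ : ℝ) := Nat.le_ceil c2'
        have h4 : ((⌈c0⌉₊ + 8 + ⌈c2'⌉₊ : ℕ) : ℝ) ≤ (u.2.2 : ℝ) := by exact_mod_cast hc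
        have h5 : (0 : ℝ) ≤ (⌈c0⌉₊ : ℝ) := Nat.cast_nonneg _
        push_cast at h4
        linarith
      refine ⟨⟨hab, ?_, hc, hlo, hta, ?_⟩, hcX⟩
      · have h5 : 2 * (u.1 : ℝ) ≤ (u.2.2 : ℝ) := by
          have e2 : (2 : ℝ) ≤ (u.2.2 : ℝ) ^ (1 - P.α2) := by
            calc (2 : ℝ) = c2' ^ (1 - P.α2) := by
                  rw [hc2', ← Real.rpow_mul (by norm_num),
                    one_div_mul_cancel (by linarith : (1 - P.α2) ≠ 0), Real.rpow_one]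
              _ ≤ (u.2.2 : ℝ) ^ (1 - P.α2) :=
                  Real.rpow_le_rpow (by positivity) hcbig (by linarith)
          calc 2 * (u.1 : ℝ) ≤ (u.2.2 : ℝ) ^ (1 - P.α2) * (u.2.2 : ℝ) ^ P.α2 := by
                apply mul_le_mul e2 _ (Nat.cast_nonneg _) (by positivity)
                exact hta.trans (Real.rpow_le_rpow_of_exponent_le hc1' ht1)
            _ = (u.2.2 : ℝ) := by
                rw [← Real.rpow_add hc0', sub_add_cancel, Real.rpow_one]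
        have h6 : 2 * u.1 ≤ u.2.2 := by exact_mod_cast h5
        have h7 := hab.2.2.2.1
        omega
      · refine htr.trans (mul_le_mul_of_nonneg_right (by linarith) (Real.log_nonneg hc1')))
    rwa [← Set.ncard_eq_toFinset_card B hBfin] at h4
  have h3' : (B.ncard : ℝ) ≤ C * (X : ℝ) ^ (P.lam / 2 + (1 - P.β) * t - σ) := by
    refine h3.trans (mul_le_mul_of_nonneg_left ?_ hC.le)
    exact Real.rpow_le_rpow_of_exponent_le hX1 (by linarith)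
  have h4 : ((TinyP P.lam P.β t δ c1).ncard : ℝ) ≤
      ((TinyP P.lam P.β t δ c1).ncard : ℝ) *
        (X : ℝ) ^ (P.lam / 2 + (1 - P.β) * t - σ) :=
    le_mul_of_one_le_right (Nat.cast_nonneg _) (Real.one_le_rpow hX1 (by linarith))
  have h5 : ((Tiny P.lam δ0 X).ncard : ℝ) ≤
      C0 * (X : ℝ) ^ (P.lam / 2 + (1 - P.β) * t - σ) := by
    refine (H0 X hX).trans (mul_le_mul_of_nonneg_left ?_ hC0.le)
    have := mul_le_mul_of_nonneg_left ht0' (by linarith : 0 ≤ 1 - P.β)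
    exact Real.rpow_le_rpow_of_exponent_le hX1 (by linarith)
  calc ((TinyP P.lam P.β t δ X).ncard : ℝ) ≤ (B.ncard : ℝ) +
        ((TinyP P.lam P.β t δ c1).ncard : ℝ) + ((Tiny P.lam δ0 X).ncard : ℝ) := h1
    _ ≤ _ := by
        rw [add_mul, add_mul]
        exact add_le_add (add_le_add h3' h4) h5

end Pool.Agent.H541.SX
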