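import Mathlib
import Pool.Agent.H541.SM.Red2

/-!
# Three rational points of the line: from a count of abc-triples with a tiny member
-/

namespace Pool.Agent.H541.SX

open Finset Pool.Agent.H785R2.ABC Pool.Agent.H541.SM

set_option maxHeartbeats 4000000 in
theorem red3g (S : Finset ℕ) (o i j : ℤ × ℤ) (hoi : lf o i ≠ 0) (hij : lf i j ≠ 0)
    (hjo : lf j o ≠ 0) (lam : ℝ) (h0 : 0 < lam) (h2 : lam < 2) (δ1 : ℝ) (hδ1 : 0 < δ1)
    (hδ1000 : δ1 ≤ 1 / 1000) (e : ℝ) (he0 : 0 ≤ e) (he1 : e ≤ 1) (C : ℝ) (hC : 0 < C)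
    (H : ∀ X : ℕ, 1 ≤ X → ((Tiny lam δ1 X).ncard : ℝ) ≤ C * (X : ℝ) ^ e)
    (δ : ℝ) (_hδ : 0 < δ) (hδle : δ ≤ δ1 / 4) :
    ∃ C : ℝ, 0 < C ∧ ∀ B : ℝ, 1 ≤ B → ((Exc3 S o i j lam δ B).ncard : ℝ) ≤ C * B ^ e := by
  classical
  -- constants
  set Mn : ℕ := ht o + ht i + ht j with hMn
  set M : ℝ := (Mn : ℝ) with hM
  have hto : (ht o : ℝ) ≤ M := by
    rw [hM, hMn]; push_cast
    have a : (0 : ℝ) ≤ ht i := Nat.cast_nonneg _
    have b : (0 : ℝ) ≤ ht j := Nat.cast_nonneg _
    linarith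
  have hti : (ht i : ℝ) ≤ M := by
    rw [hM, hMn]; push_cast
    have a : (0 : ℝ) ≤ ht o := Nat.cast_nonneg _
    have b : (0 : ℝ) ≤ ht j := Nat.cast_nonneg _
    linarith
  have htj : (ht j : ℝ) ≤ M := by
    rw [hM, hMn]; push_cast
    have a : (0 : ℝ) ≤ ht o := Nat.cast_nonneg _
    have b : (0 : ℝ) ≤ ht i := Nat.cast_nonneg _
    linarith
  have hto1 : 1 ≤ ht o := by
    by_contra hlt
    push Not at hlt
    have h3 : ht o = 0 := by omega
    have h4 : o.1 = 0 := by
      have := le_max_left o.1.natAbs o.2.natAbs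
      unfold ht at h3
      omega
    have h5 : o.2 = 0 := by
      have := le_max_right o.1.natAbs o.2.natAbs
      unfold ht at h3
      omega
    exact hoi (by unfold lf; rw [h4, h5]; ring)
  have hM1 : 1 ≤ M := by
    rw [hM, hMn]; push_cast
    have a : (1 : ℝ) ≤ ht o := by exact_mod_cast hto1
    have b : (0 : ℝ) ≤ ht i := Nat.cast_nonneg _
    have c : (0 : ℝ) ≤ ht j := Nat.cast_nonneg _
    linarith
  have hM0 : 0 < M := by linarith
  set Gn : ℕ := (lf i j * lf j o * lf o i).natAbs with hGn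
  have hGn0 : 0 < Gn := Int.natAbs_pos.2 (mul_ne_zero (mul_ne_zero hij hjo) hoi)
  set G : ℝ := (Gn : ℝ) with hGr
  have hG1 : 1 ≤ G := by rw [hGr]; exact_mod_cast hGn0
  set P : ℝ := (PS S : ℝ) with hP
  have hP1 : 1 ≤ P := by rw [hP]; exact_mod_cast PS_pos S
  have dle : ∀ a b : ℤ × ℤ, (ht a : ℝ) ≤ M → (ht b : ℝ) ≤ M → |(lf a b : ℝ)| ≤ 2 * M ^ 2 := by
    intro a b ha hb
    calc |(lf a b : ℝ)| ≤ 2 * ht a * ht b := lf_le a b
      _ ≤ 2 * M * M := by gcongr
      _ = 2 * M ^ 2 := by ring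
  set E : ℝ := 2 * M * G with hE
  have hE1 : 1 ≤ E := by rw [hE]; nlinarith
  set W : ℝ := 4 * M ^ 4 + 1 + 2 * M ^ 3 * E + G * M * P ^ 2 * E ^ 3 with hW
  have hMp : 1 ≤ M ^ 4 := one_le_pow₀ hM1
  have hW1 : 4 * M ^ 4 < W := by
    rw [hW]
    have a : 0 ≤ 2 * M ^ 3 * E := by positivity
    have b : 0 ≤ G * M * P ^ 2 * E ^ 3 := by positivity
    linarith
  have hW2 : 2 * M ^ 3 * E ≤ W := by
    rw [hW]
    have a : 0 ≤ 4 * M ^ 4 := by positivity
    have b : 0 ≤ G * M * P ^ 2 * E ^ 3 := by positivity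
    linarith
  have hW3 : G * M * P ^ 2 * E ^ 3 ≤ W := by
    rw [hW]
    have a : 0 ≤ 4 * M ^ 4 := by positivity
    have b : 0 ≤ 2 * M ^ 3 * E := by positivity
    linarith
  have hW0 : 1 ≤ W := by linarith
  -- the threshold
  set h0' : ℝ := W ^ (1 / (δ1 / 4)) with hh0
  have hδ4 : 0 < δ1 / 4 := by positivity
  have hthr : ∀ y : ℝ, h0' ≤ y → W ≤ y ^ (δ1 / 4) := by
    intro y hy
    calc W = (W ^ (1 / (δ1 / 4))) ^ (δ1 / 4) := by
          rw [← Real.rpow_mul (by linarith)]
          rw [one_div_mul_cancel hδ4.ne', Real.rpow_one]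
      _ ≤ y ^ (δ1 / 4) := Real.rpow_le_rpow (by positivity) hy hδ4.le
  have h0'1 : 1 ≤ h0' := Real.one_le_rpow hW0 (by positivity)
  -- the triple of a point
  have hex : ∀ x : ℤ × ℤ, ∃ t : ℕ × ℕ × ℕ, ∀ B : ℝ, x ∈ Exc3 S o i j lam δ B → h0' < ht x →
      t ∈ Tiny lam δ1 ⌊4 * M ^ 3 * B⌋₊ ∧
      t.1 * Int.gcd (lf i j * lf o x) (lf j o * lf i x) = (lf i j * lf o x).natAbs ∧
      Int.gcd (lf i j * lf o x) (lf j o * lf i x) ≤ Gn ∧
      ((|lf j o * lf i x| ≤ |lf o i * lf j x| ∧
          t.2.1 * Int.gcd (lf i j * lf o x) (lf j o * lf i x) = (lf j o * lf i x).natAbs) ∨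
        (¬ |lf j o * lf i x| ≤ |lf o i * lf j x| ∧
          t.2.2 * Int.gcd (lf i j * lf o x) (lf j o * lf i x) = (lf j o * lf i x).natAbs)) := by
    intro x
    by_cases hx : ∃ B, x ∈ Exc3 S o i j lam δ B ∧ h0' < ht x
    swap
    · exact ⟨(0, 0, 0), fun B h1 h3 => absurd ⟨B, h1, h3⟩ hx⟩
    obtain ⟨B0, ⟨hcop, -, hLo, hLi, hLj, hnear, htr⟩, hbig⟩ := hx
    set y : ℝ := (ht x : ℝ) with hy
    have hy1 : 1 < y := lt_of_le_of_lt h0'1 hbig
    have hy0 : 0 < y := by linarith
    have hlogy : 0 < Real.log y := Real.log_pos hy1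
    have hWy := hthr y hbig.le
    -- the near form
    have hLo0 : 0 < |(lf o x : ℝ)| := abs_pos.2 (by exact_mod_cast hLo)
    have hnear1 : |(lf o x : ℝ)| ≤ M * y ^ (δ1 / 4) := by
      have hto0 : (0 : ℝ) < ht o := by exact_mod_cast hto1
      have h3 : (1 - δ) * Real.log y ≤ Real.log y + Real.log (ht o) - Real.log |(lf o x : ℝ)| := by
        have h4 := hnear
        unfold lamInf at h4
        rwa [Real.log_div (by positivity) hLo0.ne', Real.log_mul hy0.ne' hto0.ne'] at h4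
      have h5 : Real.log |(lf o x : ℝ)| ≤ Real.log (ht o * y ^ δ) := by
        rw [Real.log_mul hto0.ne' (by positivity), Real.log_rpow hy0]
        linarith
      have h6 := (Real.log_le_log_iff hLo0 (by positivity)).1 h5
      calc |(lf o x : ℝ)| ≤ ht o * y ^ δ := h6
        _ ≤ M * y ^ (δ1 / 4) := by
            apply mul_le_mul hto _ (by positivity) hM0.le
            exact Real.rpow_le_rpow_of_exponent_le hy1.le hδle
    set u : ℝ := y ^ (δ1 / 4) with hu
    have hu0 : 0 < u := by positivity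
    have hu1 : 1 ≤ u := hW0.trans hWy
    have hyu : u * W ≤ y := by
      have h3 : u * u ≤ y := by
        rw [hu, ← Real.rpow_add hy0]
        calc y ^ (δ1 / 4 + δ1 / 4) ≤ y ^ (1 : ℝ) :=
              Real.rpow_le_rpow_of_exponent_le hy1.le (by linarith)
          _ = y := Real.rpow_one y
      calc u * W ≤ u * u := by gcongr
        _ ≤ y := h3
    have hA : |((lf i j * lf o x : ℤ) : ℝ)| ≤ 2 * M ^ 3 * u := by
      push_cast
      rw [abs_mul]
      calc |(lf i j : ℝ)| * |(lf o x : ℝ)| ≤ (2 * M ^ 2) * (M * u) :=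
            mul_le_mul (dle i j hti htj) hnear1 (abs_nonneg _) (by positivity)
        _ = 2 * M ^ 3 * u := by ring
    have hLi1 : y / (2 * M) ≤ |(lf i x : ℝ)| := by
      have h3 := ht_le o i x M hto hti hoi
      have h4 : M * |(lf o x : ℝ)| ≤ y / 2 := by
        calc M * |(lf o x : ℝ)| ≤ M * (M * u) := by gcongr
          _ = (2 * M ^ 2 * u) / 2 := by ring
          _ ≤ (W * u) / 2 := by
              have h5 : 2 * M ^ 2 ≤ W := by
                have : M ^ 2 ≤ M ^ 4 := pow_le_pow_right₀ hM1 (by norm_num)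
                have : 0 ≤ M ^ 2 := by positivity
                linarith
              gcongr
          _ ≤ y / 2 := by linarith
      rw [div_le_iff₀ (by positivity)]
      have h6 : y ≤ M * |(lf o x : ℝ)| + M * |(lf i x : ℝ)| := by
        rw [← mul_add]; exact h3
      linarith
    have hB : y / (2 * M) ≤ |((lf j o * lf i x : ℤ) : ℝ)| := by
      push_cast
      rw [abs_mul]
      have h3 : (1 : ℝ) ≤ |(lf j o : ℝ)| := by exact_mod_cast Int.one_le_abs hjo
      calc y / (2 * M) ≤ 1 * |(lf i x : ℝ)| := by rw [one_mul]; exact hLi1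
        _ ≤ |(lf j o : ℝ)| * |(lf i x : ℝ)| := by gcongr
    have hABr : |((lf i j * lf o x : ℤ) : ℝ)| < |((lf j o * lf i x : ℤ) : ℝ)| := by
      refine lt_of_le_of_lt hA (lt_of_lt_of_le ?_ hB)
      rw [lt_div_iff₀ (by positivity)]
      calc 2 * M ^ 3 * u * (2 * M) = 4 * M ^ 4 * u := by ring
        _ < W * u := by gcongr
        _ ≤ y := by linarith
    have hAB : |lf i j * lf o x| < |lf j o * lf i x| := by exact_mod_cast hABr
    obtain ⟨t, ht1, ht2, ht3⟩ := triple_of (lf i j * lf o x) (lf j o * lf i x) (lf o i * lf j x)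
      (plucker o i j x) (mul_ne_zero hij hLo) hAB
    set g := Int.gcd (lf i j * lf o x) (lf j o * lf i x) with hg
    have hg0 : 0 < g := Int.gcd_pos_of_ne_zero_left _ (mul_ne_zero hij hLo)
    have hgG : g ≤ Gn := by
      have d1 : (g : ℤ) ∣ lf i j * lf o x := Int.gcd_dvd_left _ _
      have d2 : (g : ℤ) ∣ lf j o * lf i x := Int.gcd_dvd_right _ _
      have d3 := gcd_mul_dvd _ _ _ _ _ d1 d2
      have d4 : (Int.gcd (lf o x) (lf i x) : ℤ) ∣ lf o i :=
        gcd_dvd o i x hcop _ (Int.gcd_dvd_left _ _) (Int.gcd_dvd_right _ _)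
      have d5 : (g : ℤ) ∣ lf i j * lf j o * lf o i := d3.trans (mul_dvd_mul_left _ d4)
      have d6 : g ∣ Gn := by
        rw [hGn]
        exact Int.natCast_dvd.1 d5
      exact Nat.le_of_dvd hGn0 d6
    have hgr : (g : ℝ) ≤ G := by rw [hGr]; exact_mod_cast hgG
    have hgr0 : (0 : ℝ) < g := by exact_mod_cast hg0
    have hgr1 : (1 : ℝ) ≤ g := by exact_mod_cast hg0
    refine ⟨t, fun B hBx _ => ⟨⟨ht1, ?_, ?_, ?_⟩, ht2, hgG, ?_⟩⟩
    · -- `c ≤ X`
      apply Nat.le_floor
      have hyB : y ≤ B := hBx.2.1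
      have bound : ∀ a b c : ℤ × ℤ, (ht a : ℝ) ≤ M → (ht b : ℝ) ≤ M → (ht c : ℝ) ≤ M →
          ((lf a b * lf c x).natAbs : ℝ) ≤ 4 * M ^ 3 * B := by
        intro a b c ha hb hc
        rw [Nat.cast_natAbs]
        push_cast
        rw [abs_mul]
        calc |(lf a b : ℝ)| * |(lf c x : ℝ)| ≤ (2 * M ^ 2) * (2 * M * y) := by
              apply mul_le_mul (dle a b ha hb) _ (abs_nonneg _) (by positivity)
              exact (lf_le c x).trans (by gcongr)
          _ = 4 * M ^ 3 * y := by ring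
          _ ≤ 4 * M ^ 3 * B := by gcongr
      have hc : (t.2.2 : ℝ) * g ≤ 4 * M ^ 3 * B := by
        rcases ht3 with ⟨-, -, h4⟩ | ⟨-, h4, -⟩
        · calc (t.2.2 : ℝ) * g = ((lf o i * lf j x).natAbs : ℝ) := by exact_mod_cast h4
            _ ≤ _ := bound o i j hto hti htj
        · calc (t.2.2 : ℝ) * g = ((lf j o * lf i x).natAbs : ℝ) := by exact_mod_cast h4
            _ ≤ _ := bound j o i htj hto hti
      calc (t.2.2 : ℝ) = t.2.2 * 1 := (mul_one _).symm
        _ ≤ t.2.2 * g := by gcongr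
        _ ≤ _ := hc
    · -- `a ≤ c ^ δ1`
      have hclow : y / E ≤ (t.2.2 : ℝ) := by
        have h4 : |((lf j o * lf i x : ℤ) : ℝ)| ≤ t.2.2 * g := by
          have e1 : |((lf j o * lf i x : ℤ) : ℝ)| = ((lf j o * lf i x).natAbs : ℝ) := by
            rw [Nat.cast_natAbs]; push_cast; rfl
          rw [e1]
          rcases ht3 with ⟨h5, h6, h7⟩ | ⟨h5, h6, h7⟩
          · have h8 : (lf j o * lf i x).natAbs ≤ (lf o i * lf j x).natAbs := by
              rw [Int.abs_eq_natAbs, Int.abs_eq_natAbs] at h5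
              exact_mod_cast h5
            rw [← h7] at h8
            exact_mod_cast h8
          · exact_mod_cast h6.ge
        rw [div_le_iff₀ (by positivity), hE]
        have h9 := hB.trans h4
        rw [div_le_iff₀ (by positivity)] at h9
        calc y ≤ t.2.2 * g * (2 * M) := h9
          _ ≤ t.2.2 * G * (2 * M) := by gcongr
          _ = t.2.2 * (2 * M * G) := by ring
      have ha : (t.1 : ℝ) ≤ 2 * M ^ 3 * u := by
        calc (t.1 : ℝ) = t.1 * 1 := (mul_one _).symm
          _ ≤ t.1 * g := by gcongr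
          _ = ((lf i j * lf o x).natAbs : ℝ) := by exact_mod_cast ht2
          _ = |((lf i j * lf o x : ℤ) : ℝ)| := by rw [Nat.cast_natAbs]; push_cast; rfl
          _ ≤ _ := hA
      have hE0 : 0 < E := by linarith
      calc (t.1 : ℝ) ≤ 2 * M ^ 3 * u := ha
        _ ≤ (y / E) ^ δ1 := by
            rw [Real.div_rpow hy0.le hE0.le, le_div_iff₀ (by positivity)]
            have e1 : y ^ δ1 = u * (u * (u * u)) := by
              rw [hu, ← Real.rpow_add hy0, ← Real.rpow_add hy0, ← Real.rpow_add hy0]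
              congr 1; ring
            have e2 : E ^ δ1 ≤ E := by
              calc E ^ δ1 ≤ E ^ (1 : ℝ) := Real.rpow_le_rpow_of_exponent_le hE1 (by linarith)
                _ = E := Real.rpow_one E
            calc 2 * M ^ 3 * u * E ^ δ1 ≤ 2 * M ^ 3 * u * E := by gcongr
              _ = u * (1 * (1 * (2 * M ^ 3 * E))) := by ring
              _ ≤ u * (u * (u * u)) := by
                  gcongr
                  exact hW2.trans hWy
              _ = y ^ δ1 := e1.symm
        _ ≤ (t.2.2 : ℝ) ^ δ1 := Real.rpow_le_rpow (by positivity) hclow hδ1.le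
    · -- the radical
      have hclow : y / E ≤ (t.2.2 : ℝ) := by
        have h4 : |((lf j o * lf i x : ℤ) : ℝ)| ≤ t.2.2 * g := by
          have e1 : |((lf j o * lf i x : ℤ) : ℝ)| = ((lf j o * lf i x).natAbs : ℝ) := by
            rw [Nat.cast_natAbs]; push_cast; rfl
          rw [e1]
          rcases ht3 with ⟨h5, h6, h7⟩ | ⟨h5, h6, h7⟩
          · have h8 : (lf j o * lf i x).natAbs ≤ (lf o i * lf j x).natAbs := by
              rw [Int.abs_eq_natAbs, Int.abs_eq_natAbs] at h5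
              exact_mod_cast h5
            rw [← h7] at h8
            exact_mod_cast h8
          · exact_mod_cast h6.ge
        rw [div_le_iff₀ (by positivity), hE]
        have h9 := hB.trans h4
        rw [div_le_iff₀ (by positivity)] at h9
        calc y ≤ t.2.2 * g * (2 * M) := h9
          _ ≤ t.2.2 * G * (2 * M) := by gcongr
          _ = t.2.2 * (2 * M * G) := by ring
      have hE0 : 0 < E := by linarith
      -- divisibility
      have hdiv : t.1 * t.2.1 * t.2.2 ∣
          (lf i j * lf o x).natAbs * (lf j o * lf i x).natAbs * (lf o i * lf j x).natAbs := by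
        rcases ht3 with ⟨h5, h6, h7⟩ | ⟨h5, h6, h7⟩
        · rw [← ht2, ← h6, ← h7]
          exact ⟨g * g * g, by ring⟩
        · rw [← ht2, ← h6, ← h7]
          exact ⟨g * g * g, by ring⟩
      have hprod : (lf i j * lf o x).natAbs * (lf j o * lf i x).natAbs *
          (lf o i * lf j x).natAbs = Gn * (lf o x).natAbs * ((lf i x).natAbs * (lf j x).natAbs) := by
        rw [hGn]
        simp only [Int.natAbs_mul]
        ring
      have hne : (lf i j * lf o x).natAbs * (lf j o * lf i x).natAbs *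
          (lf o i * lf j x).natAbs ≠ 0 := by
        refine mul_ne_zero (mul_ne_zero ?_ ?_) ?_
        · exact Int.natAbs_ne_zero.2 (mul_ne_zero hij hLo)
        · exact Int.natAbs_ne_zero.2 (mul_ne_zero hjo hLi)
        · exact Int.natAbs_ne_zero.2 (mul_ne_zero hoi hLj)
      have hr1 : rad (t.1 * t.2.1 * t.2.2) ≤
          Gn * (lf o x).natAbs * (rad (lf i x).natAbs * rad (lf j x).natAbs) := by
        calc rad (t.1 * t.2.1 * t.2.2) ≤ rad ((lf i j * lf o x).natAbs *
              (lf j o * lf i x).natAbs * (lf o i * lf j x).natAbs) := rad_mono hne hdiv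
          _ = rad (Gn * (lf o x).natAbs * ((lf i x).natAbs * (lf j x).natAbs)) := by rw [hprod]
          _ ≤ rad (Gn * (lf o x).natAbs) * rad ((lf i x).natAbs * (lf j x).natAbs) :=
              rad_mul_le _ _
          _ ≤ Gn * (lf o x).natAbs * (rad (lf i x).natAbs * rad (lf j x).natAbs) := by
              apply Nat.mul_le_mul (rad_le _ _) (rad_mul_le _ _)
              exact Nat.mul_pos hGn0 (Int.natAbs_pos.2 hLo)
      have hr2 : (rad (t.1 * t.2.1 * t.2.2) : ℝ) ≤
          G * |(lf o x : ℝ)| * ((rad (lf i x).natAbs : ℝ) * rad (lf j x).natAbs) := by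
        have e1 : |(lf o x : ℝ)| = ((lf o x).natAbs : ℝ) := by
          rw [Nat.cast_natAbs]; push_cast; rfl
        rw [e1, hGr]
        exact_mod_cast hr1
      have hexp : Real.exp (tr S i x) * Real.exp (tr S j x) ≤ y ^ (lam + δ1 / 4) := by
        rw [← Real.exp_add, Real.rpow_def_of_pos hy0]
        apply Real.exp_le_exp.2
        calc tr S i x + tr S j x ≤ (lam + δ) * Real.log y := htr
          _ ≤ Real.log y * (lam + δ1 / 4) := by nlinarith
      calc (rad (t.1 * t.2.1 * t.2.2) : ℝ) ≤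
            G * |(lf o x : ℝ)| * ((rad (lf i x).natAbs : ℝ) * rad (lf j x).natAbs) := hr2
        _ ≤ G * (M * u) * ((P * Real.exp (tr S i x)) * (P * Real.exp (tr S j x))) := by
            gcongr
            · exact rad_le_tr S i x
            · exact rad_le_tr S j x
        _ = G * M * P ^ 2 * u * (Real.exp (tr S i x) * Real.exp (tr S j x)) := by ring
        _ ≤ G * M * P ^ 2 * u * y ^ (lam + δ1 / 4) := by gcongr
        _ ≤ (y / E) ^ (lam + δ1) := by
            rw [Real.div_rpow hy0.le hE0.le, le_div_iff₀ (by positivity)]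
            have e1 : y ^ (lam + δ1) = u * (u * (1 * u)) * y ^ (lam + δ1 / 4) := by
              rw [one_mul, hu, ← Real.rpow_add hy0, ← Real.rpow_add hy0, ← Real.rpow_add hy0]
              congr 1; ring
            have e2 : E ^ (lam + δ1) ≤ E ^ 3 := by
              calc E ^ (lam + δ1) ≤ E ^ (3 : ℝ) :=
                    Real.rpow_le_rpow_of_exponent_le hE1 (by linarith)
                _ = E ^ 3 := by norm_cast
            calc G * M * P ^ 2 * u * y ^ (lam + δ1 / 4) * E ^ (lam + δ1) ≤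
                  G * M * P ^ 2 * u * y ^ (lam + δ1 / 4) * E ^ 3 := by gcongr
              _ = 1 * (u * (1 * (G * M * P ^ 2 * E ^ 3))) * y ^ (lam + δ1 / 4) := by ring
              _ ≤ u * (u * (1 * u)) * y ^ (lam + δ1 / 4) := by
                  gcongr
                  exact hW3.trans hWy
              _ = y ^ (lam + δ1) := e1.symm
        _ ≤ (t.2.2 : ℝ) ^ (lam + δ1) :=
            Real.rpow_le_rpow (by positivity) hclow (by linarith)
    · rcases ht3 with ⟨h5, h6, h7⟩ | ⟨h5, h6, h7⟩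
      · exact Or.inl ⟨h5, h6⟩
      · exact Or.inr ⟨h5, h6⟩
  choose t htt using hex
  -- the count
  refine ⟨(({x : ℤ × ℤ | (ht x : ℝ) ≤ h0'}.ncard : ℝ)) + 8 * G * C * (4 * M ^ 3), by positivity, ?_⟩
  intro B hB
  have hB0 : 0 < B := by linarith
  have hfin : (Exc3 S o i j lam δ B).Finite := (box_finite B).subset fun x hx => hx.2.1
  set Lg : Set (ℤ × ℤ) := {x | x ∈ Exc3 S o i j lam δ B ∧ h0' < ht x} with hLg
  have hLgfin : Lg.Finite := hfin.subset fun x hx => hx.1
  have hsub : Exc3 S o i j lam δ B ⊆ {x : ℤ × ℤ | (ht x : ℝ) ≤ h0'} ∪ Lg := by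
    intro x hx
    by_cases h : (ht x : ℝ) ≤ h0'
    · exact Or.inl h
    · exact Or.inr ⟨hx, not_le.1 h⟩
  have hle1 : ((Exc3 S o i j lam δ B).ncard : ℝ) ≤
      ({x : ℤ × ℤ | (ht x : ℝ) ≤ h0'}.ncard : ℝ) + (Lg.ncard : ℝ) := by
    have h3 := Set.ncard_le_ncard hsub ((box_finite h0').union hLgfin)
    have h4 := Set.ncard_union_le {x : ℤ × ℤ | (ht x : ℝ) ≤ h0'} Lg
    exact_mod_cast h3.trans h4
  set X : ℕ := ⌊4 * M ^ 3 * B⌋₊ with hX
  have hX1 : 1 ≤ X := by
    apply Nat.le_floor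
    have : (1 : ℝ) ≤ M ^ 3 := one_le_pow₀ hM1
    push_cast
    nlinarith
  have hXle : (X : ℝ) ≤ 4 * M ^ 3 * B := Nat.floor_le (by positivity)
  set F : ℤ × ℤ → (ℕ × ℕ × ℕ) × ℕ × Bool × Bool × Bool := fun x =>
    (t x, Int.gcd (lf i j * lf o x) (lf j o * lf i x), decide (0 < lf i j * lf o x),
      decide (0 < lf j o * lf i x), decide (|lf j o * lf i x| ≤ |lf o i * lf j x|)) with hF
  set Cod : Finset ((ℕ × ℕ × ℕ) × ℕ × Bool × Bool × Bool) :=
    (tiny_finite lam δ1 X).toFinset ×ˢ (Icc 1 Gn ×ˢ (univ : Finset (Bool × Bool × Bool))) with hCod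
  have sign_eq : ∀ a b : ℤ, a.natAbs = b.natAbs → a ≠ 0 → (decide (0 < a) = decide (0 < b)) →
      a = b := by
    intro a b h1 h3 h4
    have h5 : (0 < a ↔ 0 < b) := by
      by_cases h6 : 0 < a
      · simp only [h6, decide_true] at h4
        exact ⟨fun _ => of_decide_eq_true h4.symm, fun _ => h6⟩
      · simp only [h6, decide_false] at h4
        have := of_decide_eq_false h4.symm
        tauto
    omega
  have hcard : Lg.ncard ≤ Cod.card := by
    rw [Set.ncard_eq_toFinset_card Lg hLgfin]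
    apply card_le_card_of_injOn F
    · intro x hx
      rw [mem_coe, Set.Finite.mem_toFinset] at hx
      obtain ⟨g1, g2, g3, g4⟩ := htt x B hx.1 hx.2
      rw [mem_coe, hCod, mem_product, mem_product, Set.Finite.mem_toFinset, mem_Icc]
      refine ⟨g1, ⟨?_, g3⟩, mem_univ _⟩
      exact Int.gcd_pos_of_ne_zero_left _ (mul_ne_zero hij hx.1.2.2.1)
    · intro x hx y hy hxy
      rw [mem_coe, Set.Finite.mem_toFinset] at hx hy
      obtain ⟨-, g2, -, g4⟩ := htt x B hx.1 hx.2
      obtain ⟨-, k2, -, k4⟩ := htt y B hy.1 hy.2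
      simp only [hF, Prod.mk.injEq] at hxy
      obtain ⟨e1, e2, e3, e4, e5⟩ := hxy
      have eA : lf i j * lf o x = lf i j * lf o y := by
        apply sign_eq _ _ _ (mul_ne_zero hij hx.1.2.2.1) e3
        rw [← g2, ← k2, e1, e2]
      have eB : lf j o * lf i x = lf j o * lf i y := by
        apply sign_eq _ _ _ (mul_ne_zero hjo hx.1.2.2.2.1) e4
        have e5' : (|lf j o * lf i x| ≤ |lf o i * lf j x|) ↔
            (|lf j o * lf i y| ≤ |lf o i * lf j y|) := by
          constructor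
          · intro h6
            rw [decide_eq_true h6] at e5
            exact of_decide_eq_true e5.symm
          · intro h6
            rw [decide_eq_true h6] at e5
            exact of_decide_eq_true e5
        rcases g4 with ⟨p1, p2⟩ | ⟨p1, p2⟩ <;> rcases k4 with ⟨q1, q2⟩ | ⟨q1, q2⟩
        · rw [← p2, ← q2, e1, e2]
        · exact absurd (e5'.1 p1) q1
        · exact absurd (e5'.2 q1) p1
        · rw [← p2, ← q2, e1, e2]
      exact eq_of_lf o i x y hoi (mul_left_cancel₀ hij eA) (mul_left_cancel₀ hjo eB)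
  have hcodcard : (Cod.card : ℝ) = ((Tiny lam δ1 X).ncard : ℝ) * (G * 8) := by
    rw [hCod, card_product, card_product,
      ← Set.ncard_eq_toFinset_card _ (tiny_finite lam δ1 X), Nat.card_Icc,
      Nat.add_sub_cancel, card_univ]
    have : Fintype.card (Bool × Bool × Bool) = 8 := rfl
    rw [this, hGr]
    push_cast
    ring
  have h4M : 1 ≤ 4 * M ^ 3 := by
    have : (1 : ℝ) ≤ M ^ 3 := one_le_pow₀ hM1
    linarith
  have hLgle : (Lg.ncard : ℝ) ≤ 8 * G * C * (4 * M ^ 3) * B ^ e := by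
    calc (Lg.ncard : ℝ) ≤ (Cod.card : ℝ) := by exact_mod_cast hcard
      _ = ((Tiny lam δ1 X).ncard : ℝ) * (G * 8) := hcodcard
      _ ≤ (C * (X : ℝ) ^ e) * (G * 8) := by
          gcongr
          exact H X hX1
      _ ≤ (C * (4 * M ^ 3 * B) ^ e) * (G * 8) := by gcongr
      _ = (C * ((4 * M ^ 3) ^ e * B ^ e)) * (G * 8) := by
          rw [Real.mul_rpow (by positivity) hB0.le]
      _ ≤ (C * ((4 * M ^ 3) ^ (1 : ℝ) * B ^ e)) * (G * 8) := by
          have e1 := Real.rpow_le_rpow_of_exponent_le h4M he1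
          gcongr
      _ = 8 * G * C * (4 * M ^ 3) * B ^ e := by rw [Real.rpow_one]; ring
  have hB1 : 1 ≤ B ^ e := Real.one_le_rpow hB he0
  calc ((Exc3 S o i j lam δ B).ncard : ℝ) ≤
        ({x : ℤ × ℤ | (ht x : ℝ) ≤ h0'}.ncard : ℝ) + (Lg.ncard : ℝ) := hle1
    _ ≤ ({x : ℤ × ℤ | (ht x : ℝ) ≤ h0'}.ncard : ℝ) * B ^ e +
        8 * G * C * (4 * M ^ 3) * B ^ e :=
        add_le_add (le_mul_of_one_le_right (Nat.cast_nonneg _) hB1) hLgle
    _ = _ := by ring

end Pool.Agent.H541.SX
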