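import Mathlib
import Pool.Agent.H541.SM.FinSet
import Pool.Agent.H541.SX.Count
import Pool.Agent.H541.SX.Red3

/-!
# Finite sets of rational points of the line: explicit exponent for `lam = 1`
-/

namespace Pool.Agent.H541.SX

open Finset Pool.Agent.H541.SM

theorem finset_pointsX (q : ℕ) (hq : 3 ≤ q) (α : Fin q → ℤ × ℤ)
    (hα : ∀ i j, i ≠ j → lf (α i) (α j) ≠ 0) (S : Finset ℕ) (o : Fin q) :
    ∃ C : ℝ, ∀ B : ℝ, 1 ≤ B →
      (Exc S α o (((q : ℝ) - 1) / 2) (1 / 40000) B).Finite ∧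
        ((Exc S α o (((q : ℝ) - 1) / 2) (1 / 40000) B).ncard : ℝ) ≤ C * B ^ (492 / 1000 : ℝ) := by
  classical
  have hqr : (3 : ℝ) ≤ q := by exact_mod_cast hq
  have hq1 : (0 : ℝ) < (q : ℝ) - 1 := by linarith
  obtain ⟨C1, hC1, H1⟩ := countX
  have h4 : ∀ p : Fin q × Fin q, ∃ C : ℝ, 0 < C ∧ ((p.1 ≠ o ∧ p.2 ≠ o ∧ p.1 ≠ p.2) →
      ∀ B : ℝ, 1 ≤ B →
      ((Exc3 S (α o) (α p.1) (α p.2) 1 (1 / 40000) B).ncard : ℝ) ≤ C * B ^ (492 / 1000 : ℝ)) := by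
    intro p
    by_cases hp : p.1 ≠ o ∧ p.2 ≠ o ∧ p.1 ≠ p.2
    · obtain ⟨C, h1, h2⟩ := red3g S (α o) (α p.1) (α p.2) (hα _ _ hp.1.symm) (hα _ _ hp.2.2)
        (hα _ _ hp.2.1) 1 one_pos (by norm_num) (1 / 10000) (by norm_num) (by norm_num)
        (492 / 1000) (by norm_num) (by norm_num) C1 hC1 H1 (1 / 40000) (by norm_num)
        (by norm_num)
      exact ⟨C, h1, fun _ => h2⟩
    · exact ⟨1, one_pos, fun h => absurd h hp⟩
  choose C hC hcount using h4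
  refine ⟨∑ p, C p, fun B hB => ?_⟩
  have hB0 : 0 < B := by linarith
  have hfin : (Exc S α o (((q : ℝ) - 1) / 2) (1 / 40000) B).Finite :=
    (box_finite B).subset fun x hx => hx.2.1
  refine ⟨hfin, ?_⟩
  set P : Finset (Fin q × Fin q) := univ.filter fun p => p.1 ≠ o ∧ p.2 ≠ o ∧ p.1 ≠ p.2 with hP
  have hsub : Exc S α o (((q : ℝ) - 1) / 2) (1 / 40000) B ⊆
      ⋃ p ∈ P, Exc3 S (α o) (α p.1) (α p.2) 1 (1 / 40000) B := by
    rintro x ⟨h1, h2, h5, h6, h7⟩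
    obtain ⟨i, j, hio, hjo, hij, hN⟩ := two_smallest hq o (fun i => tr S (α i) x)
      (fun i => tr_nonneg S (α i) x)
    rw [Set.mem_iUnion₂]
    refine ⟨(i, j), by rw [hP, mem_filter]; exact ⟨mem_univ _, hio, hjo, hij⟩, h1, h2, h5 o, h5 i,
      h5 j, h6, ?_⟩
    have hlog : 0 ≤ Real.log (ht x) := Real.log_natCast_nonneg _
    calc tr S (α i) x + tr S (α j) x ≤ 2 / ((q : ℝ) - 1) * ∑ i, tr S (α i) x := hN
      _ ≤ 2 / ((q : ℝ) - 1) * ((((q : ℝ) - 1) / 2 + 1 / 40000) * Real.log (ht x)) := by gcongr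
      _ = (1 + 2 / ((q : ℝ) - 1) * (1 / 40000)) * Real.log (ht x) := by field_simp
      _ ≤ (1 + 1 / 40000) * Real.log (ht x) := by
          apply mul_le_mul_of_nonneg_right _ hlog
          have h8 : 2 / ((q : ℝ) - 1) ≤ 1 := by rw [div_le_one hq1]; linarith
          linarith
  have hfin3 : ∀ p : Fin q × Fin q, (Exc3 S (α o) (α p.1) (α p.2) 1 (1 / 40000) B).Finite :=
    fun p => (box_finite B).subset fun x hx => hx.2.1
  have hunion : (⋃ p ∈ P, Exc3 S (α o) (α p.1) (α p.2) 1 (1 / 40000) B).Finite :=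
    Set.Finite.biUnion P.finite_toSet fun p _ => hfin3 p
  have hle : (Exc S α o (((q : ℝ) - 1) / 2) (1 / 40000) B).ncard ≤
      ∑ p ∈ P, (Exc3 S (α o) (α p.1) (α p.2) 1 (1 / 40000) B).ncard :=
    (Set.ncard_le_ncard hsub hunion).trans (set_ncard_biUnion_le P _)
  calc ((Exc S α o (((q : ℝ) - 1) / 2) (1 / 40000) B).ncard : ℝ) ≤
        ∑ p ∈ P, ((Exc3 S (α o) (α p.1) (α p.2) 1 (1 / 40000) B).ncard : ℝ) := by
        exact_mod_cast hle
    _ ≤ ∑ p ∈ P, C p * B ^ (492 / 1000 : ℝ) :=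
        sum_le_sum fun p hp => hcount p (mem_filter.1 hp).2 B hB
    _ ≤ ∑ p, C p * B ^ (492 / 1000 : ℝ) :=
        sum_le_sum_of_subset_of_nonneg (subset_univ _) fun p _ _ =>
          mul_nonneg (hC p).le (Real.rpow_nonneg hB0.le _)
    _ = (∑ p, C p) * B ^ (492 / 1000 : ℝ) := by rw [← sum_mul]

end Pool.Agent.H541.SX
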