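import Mathlib
import Pool.Agent.H541.SM.FinSet
import Pool.Agent.H541.SX.Fin
import Pool.Agent.H541.SX.Asm43

/-!
# Finite sets of rational points of the line: all `lam` above `4 / 5`
-/

namespace Pool.Agent.H541.SX

open Finset Pool.Agent.H541.SM

theorem finset_pointsG (q : ℕ) (hq : 3 ≤ q) (α : Fin q → ℤ × ℤ)
    (hα : ∀ i j, i ≠ j → lf (α i) (α j) ≠ 0) (S : Finset ℕ) (o : Fin q)
    (θ lam : ℝ) (hlam : lam = 2 * θ / ((q : ℝ) - 1)) (hl0 : 0 < lam) (hl2 : lam < 2)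
    (δ1 : ℝ) (hδ1 : 0 < δ1) (hδ1000 : δ1 ≤ 1 / 1000)
    (e : ℝ) (he0 : 0 ≤ e) (he1 : e ≤ 1) (C1 : ℝ) (hC1 : 0 < C1)
    (H1 : ∀ X : ℕ, 1 ≤ X → ((Tiny lam δ1 X).ncard : ℝ) ≤ C1 * (X : ℝ) ^ e) :
    ∃ C : ℝ, ∀ B : ℝ, 1 ≤ B → (Exc S α o θ (δ1 / 4) B).Finite ∧
        ((Exc S α o θ (δ1 / 4) B).ncard : ℝ) ≤ C * B ^ e := by
  classical
  have hqr : (3 : ℝ) ≤ q := by exact_mod_cast hq
  have hq1 : (0 : ℝ) < (q : ℝ) - 1 := by linarith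
  have h4 : ∀ p : Fin q × Fin q, ∃ C : ℝ, 0 < C ∧ ((p.1 ≠ o ∧ p.2 ≠ o ∧ p.1 ≠ p.2) →
      ∀ B : ℝ, 1 ≤ B →
      ((Exc3 S (α o) (α p.1) (α p.2) lam (δ1 / 4) B).ncard : ℝ) ≤ C * B ^ e) := by
    intro p
    by_cases hp : p.1 ≠ o ∧ p.2 ≠ o ∧ p.1 ≠ p.2
    · obtain ⟨C, h1, h2⟩ := red3g S (α o) (α p.1) (α p.2) (hα _ _ hp.1.symm) (hα _ _ hp.2.2)
        (hα _ _ hp.2.1) lam hl0 hl2 δ1 hδ1 hδ1000 e he0 he1 C1 hC1 H1 (δ1 / 4) (by positivity)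
        le_rfl
      exact ⟨C, h1, fun _ => h2⟩
    · exact ⟨1, one_pos, fun h => absurd h hp⟩
  choose C hC hcount using h4
  refine ⟨∑ p, C p, fun B hB => ?_⟩
  have hB0 : 0 < B := by linarith
  have hfin : (Exc S α o θ (δ1 / 4) B).Finite := (box_finite B).subset fun x hx => hx.2.1
  refine ⟨hfin, ?_⟩
  set P : Finset (Fin q × Fin q) := univ.filter fun p => p.1 ≠ o ∧ p.2 ≠ o ∧ p.1 ≠ p.2 with hP
  have hsub : Exc S α o θ (δ1 / 4) B ⊆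
      ⋃ p ∈ P, Exc3 S (α o) (α p.1) (α p.2) lam (δ1 / 4) B := by
    rintro x ⟨h1, h2, h5, h6, h7⟩
    obtain ⟨i, j, hio, hjo, hij, hN⟩ := two_smallest hq o (fun i => tr S (α i) x)
      (fun i => tr_nonneg S (α i) x)
    rw [Set.mem_iUnion₂]
    refine ⟨(i, j), by rw [hP, mem_filter]; exact ⟨mem_univ _, hio, hjo, hij⟩, h1, h2, h5 o, h5 i,
      h5 j, h6, ?_⟩
    have hlog : 0 ≤ Real.log (ht x) := Real.log_natCast_nonneg _
    calc tr S (α i) x + tr S (α j) x ≤ 2 / ((q : ℝ) - 1) * ∑ i, tr S (α i) x := hN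
      _ ≤ 2 / ((q : ℝ) - 1) * ((θ + δ1 / 4) * Real.log (ht x)) := by gcongr
      _ = (lam + 2 / ((q : ℝ) - 1) * (δ1 / 4)) * Real.log (ht x) := by rw [hlam]; ring
      _ ≤ (lam + δ1 / 4) * Real.log (ht x) := by
          apply mul_le_mul_of_nonneg_right _ hlog
          have h8 : 2 / ((q : ℝ) - 1) ≤ 1 := by rw [div_le_one hq1]; linarith
          have := mul_le_mul_of_nonneg_right h8 (by positivity : 0 ≤ δ1 / 4)
          linarith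
  have hfin3 : ∀ p : Fin q × Fin q, (Exc3 S (α o) (α p.1) (α p.2) lam (δ1 / 4) B).Finite :=
    fun p => (box_finite B).subset fun x hx => hx.2.1
  have hunion : (⋃ p ∈ P, Exc3 S (α o) (α p.1) (α p.2) lam (δ1 / 4) B).Finite :=
    Set.Finite.biUnion P.finite_toSet fun p _ => hfin3 p
  have hle : (Exc S α o θ (δ1 / 4) B).ncard ≤
      ∑ p ∈ P, (Exc3 S (α o) (α p.1) (α p.2) lam (δ1 / 4) B).ncard :=
    (Set.ncard_le_ncard hsub hunion).trans (set_ncard_biUnion_le P _)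
  calc ((Exc S α o θ (δ1 / 4) B).ncard : ℝ) ≤
        ∑ p ∈ P, ((Exc3 S (α o) (α p.1) (α p.2) lam (δ1 / 4) B).ncard : ℝ) := by
        exact_mod_cast hle
    _ ≤ ∑ p ∈ P, C p * B ^ e :=
        sum_le_sum fun p hp => hcount p (mem_filter.1 hp).2 B hB
    _ ≤ ∑ p, C p * B ^ e :=
        sum_le_sum_of_subset_of_nonneg (subset_univ _) fun p _ _ =>
          mul_nonneg (hC p).le (Real.rpow_nonneg hB0.le _)
    _ = (∑ p, C p) * B ^ e := by rw [← sum_mul]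

/-- all exponents above `4 / 5`, and the generic ones -/
theorem finset_points_all (q : ℕ) (hq : 3 ≤ q) (α : Fin q → ℤ × ℤ)
    (hα : ∀ i j, i ≠ j → lf (α i) (α j) ≠ 0) (S : Finset ℕ) (o : Fin q)
    (θ : ℝ) (hθ0 : 0 < θ) (hθ1 : θ < q - 1)
    (hadm : 4 / 5 < 2 * θ / ((q : ℝ) - 1) ∨ Generic (2 * θ / ((q : ℝ) - 1))) :
    ∃ δ σ : ℝ, 0 < δ ∧ 0 < σ ∧ (2 * θ / ((q : ℝ) - 1) = 1 → δ = 1 / 40000 ∧ σ = 1 / 125) ∧
      ∃ C : ℝ, ∀ B : ℝ, 1 ≤ B → (Exc S α o θ δ B).Finite ∧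
        ((Exc S α o θ δ B).ncard : ℝ) ≤ C * B ^ (θ / ((q : ℝ) - 1) - σ) := by
  have hqr : (3 : ℝ) ≤ q := by exact_mod_cast hq
  have hq1 : (0 : ℝ) < (q : ℝ) - 1 := by linarith
  by_cases h1 : 2 * θ / ((q : ℝ) - 1) = 1
  · refine ⟨1 / 40000, 1 / 125, by norm_num, by norm_num, fun _ => ⟨rfl, rfl⟩, ?_⟩
    have hθ : θ = ((q : ℝ) - 1) / 2 := by
      rw [div_eq_one_iff_eq (by linarith)] at h1
      linarith
    have he : θ / ((q : ℝ) - 1) - 1 / 125 = (492 / 1000 : ℝ) := by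
      rw [hθ, div_div, mul_comm, ← div_div, div_self (by linarith)]
      norm_num
    rw [he, hθ]
    exact finset_pointsX q hq α hα S o
  by_cases h43 : 2 * θ / ((q : ℝ) - 1) = 4 / 3
  · obtain ⟨δ1, g1, g2, g3, C1, hC1, H1⟩ := count43
    have he : θ / ((q : ℝ) - 1) - δ1 = (4 / 3 : ℝ) / 2 - δ1 := by
      rw [← h43]; ring
    refine ⟨δ1 / 4, δ1, by positivity, g1, fun h => absurd h h1, ?_⟩
    rw [he]
    exact finset_pointsG q hq α hα S o θ (4 / 3) h43.symm (by norm_num) (by norm_num) δ1 g1 g3 _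
      (by linarith) (by linarith) C1 hC1 H1
  · obtain ⟨δ, hδ, H⟩ := finset_points q hq α hα S o θ hθ0 hθ1
      (hadm.imp (fun h => ⟨h, h43⟩) id)
    exact ⟨δ, δ, hδ, hδ, fun h => absurd h h1, H⟩

end Pool.Agent.H541.SX
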