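import Mathlib
import Pool.Agent.H541.SX.Fin2
import Pool.Agent.H541.SX.RedP

/-!
# Finite sets of rational points of the line: all points `x` with `λ_∞(α_o, x) ≥ (1 - t) h(x)`,
# `t ≤ θ / q`
-/

namespace Pool.Agent.H541.SX

open Finset Pool.Agent.H785R2.ABC Pool.Agent.H541.SM

/-- the exceptional points with `λ_∞(α_o, x) ≥ (1 - t) h(x)` -/
def ExcP {q : ℕ} (S : Finset ℕ) (α : Fin q → ℤ × ℤ) (o : Fin q) (θ t δ B : ℝ) : Set (ℤ × ℤ) :=
  {x | IsCoprime x.1 x.2 ∧ (ht x : ℝ) ≤ B ∧ (∀ i, lf (α i) x ≠ 0) ∧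
    (1 - t) * Real.log (ht x) ≤ lamInf (α o) x ∧
    ∑ i, tr S (α i) x ≤ (θ + δ) * Real.log (ht x)}

/-- the two smallest of some numbers -/
lemma two_smallest' {q : ℕ} (hq : 3 ≤ q) (o : Fin q) (N : Fin q → ℝ) :
    ∃ i j : Fin q, i ≠ o ∧ j ≠ o ∧ i ≠ j ∧
      N i + N j ≤ 2 / ((q : ℝ) - 1) * (∑ i, N i - N o) := by
  classical
  set E : Finset (Fin q) := univ.erase o with hE
  have hEc : E.card = q - 1 := by rw [hE, card_erase_of_mem (mem_univ _), card_univ, Fintype.card_fin]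
  have hEne : E.Nonempty := card_pos.1 (by omega)
  obtain ⟨i, hi, himin⟩ := E.exists_min_image N hEne
  set E' : Finset (Fin q) := E.erase i with hE'
  have hEc' : E'.card = q - 2 := by rw [hE', card_erase_of_mem hi, hEc]; omega
  have hEne' : E'.Nonempty := card_pos.1 (by omega)
  obtain ⟨j, hj, hjmin⟩ := E'.exists_min_image N hEne'
  have hio : i ≠ o := (mem_erase.1 hi).1
  have hj1 := mem_erase.1 hj
  have hjo : j ≠ o := (mem_erase.1 hj1.2).1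
  refine ⟨i, j, hio, hjo, hj1.1.symm, ?_⟩
  have s1 : (E.card : ℝ) * N i ≤ ∑ k ∈ E, N k := by
    rw [← nsmul_eq_mul]
    exact card_nsmul_le_sum _ _ _ himin
  have s2 : (E'.card : ℝ) * N j ≤ ∑ k ∈ E', N k := by
    rw [← nsmul_eq_mul]
    exact card_nsmul_le_sum _ _ _ hjmin
  have s3 : N i + ∑ k ∈ E', N k = ∑ k ∈ E, N k := add_sum_erase _ _ hi
  have s4 : N o + ∑ k ∈ E, N k = ∑ k, N k := add_sum_erase _ _ (mem_univ o)
  have e1 : (E.card : ℝ) = (q : ℝ) - 1 := by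
    rw [hEc, Nat.cast_sub (by omega)]; norm_num
  have e2 : (E'.card : ℝ) = (q : ℝ) - 2 := by
    rw [hEc', Nat.cast_sub (by omega)]; norm_num
  rw [e1] at s1
  rw [e2] at s2
  have hqr : (3 : ℝ) ≤ q := by exact_mod_cast hq
  set T := ∑ k ∈ E, N k with hT
  have hT2 : ∑ k, N k - N o = T := by linarith
  rw [hT2, div_mul_eq_mul_div, le_div_iff₀ (by linarith)]
  have h1 : 0 < (q : ℝ) - 2 := by linarith
  have h2 : ((q : ℝ) - 2) * ((N i + N j) * ((q : ℝ) - 1)) ≤ ((q : ℝ) - 2) * (2 * T) := by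
    have h3 : ((q : ℝ) - 2) * N j ≤ T - N i := by linarith
    have h4 := mul_le_mul_of_nonneg_left h3 (by linarith : (0 : ℝ) ≤ (q : ℝ) - 1)
    have h5 := mul_le_mul_of_nonneg_left s1 (by linarith : (0 : ℝ) ≤ (q : ℝ) - 3)
    nlinarith
  exact le_of_mul_le_mul_left h2 h1

/-- the count for the smallest `a` -/
theorem countNear (lam : ℝ) (h0 : 0 < lam) (h2 : lam < 2) (hG : 4 / 5 < lam ∨ Generic lam) :
    ∃ δ0 σ0 : ℝ, 0 < δ0 ∧ 0 < σ0 ∧ ∃ C0 : ℝ, 0 < C0 ∧ ∀ X : ℕ, 1 ≤ X →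
      ((Tiny lam δ0 X).ncard : ℝ) ≤ C0 * (X : ℝ) ^ (lam / 2 - σ0) := by
  by_cases h43 : lam = 4 / 3
  · subst h43
    obtain ⟨δ, g1, g2, g3, C, hC, H⟩ := count43
    exact ⟨δ, δ, g1, g1, C, hC, H⟩
  · obtain ⟨δ, g1, g2, g3, C, hC, H⟩ := count_tiny lam h0 h2 (hG.imp (fun h => ⟨h, h43⟩) id)
    exact ⟨δ, δ, g1, g1, C, hC, H⟩

lemma tinyP_mono {lam β t δ δ' : ℝ} (h : δ ≤ δ') (X : ℕ) :
    TinyP lam β t δ X ⊆ TinyP lam β t δ' X := by
  intro u hu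
  refine ⟨hu.1, hu.2.1, hu.2.2.1, hu.2.2.2.trans ?_⟩
  have h1 : (1 : ℝ) ≤ (u.2.2 : ℝ) := by
    have := hu.1.2.2.1
    exact_mod_cast this
  exact mul_le_mul_of_nonneg_right (by linarith) (Real.log_nonneg h1)

theorem finset_pointsP (q : ℕ) (hq : 3 ≤ q) (θ : ℝ) (hθ0 : 0 < θ) (hθ1 : θ < q - 1)
    (hadm : 4 / 5 < 2 * θ / ((q : ℝ) - 1) ∨ Generic (2 * θ / ((q : ℝ) - 1))) :
    ∃ δ σ : ℝ, 0 < δ ∧ 0 < σ ∧ ∀ (α : Fin q → ℤ × ℤ),
    (∀ i j, i ≠ j → lf (α i) (α j) ≠ 0) → ∀ (S : Finset ℕ) (o : Fin q) (t : ℝ), 0 ≤ t →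
      t ≤ θ / q → ∃ C : ℝ, ∀ B : ℝ, 1 ≤ B → (ExcP S α o θ t δ B).Finite ∧
        ((ExcP S α o θ t δ B).ncard : ℝ) ≤
          C * B ^ ((θ + ((q : ℝ) - 2) * t) / ((q : ℝ) - 1) - σ) := by
  classical
  have hqr : (3 : ℝ) ≤ q := by exact_mod_cast hq
  have hq1 : (0 : ℝ) < (q : ℝ) - 1 := by linarith
  have hq0 : (0 : ℝ) < q := by linarith
  set lam : ℝ := 2 * θ / ((q : ℝ) - 1) with hlam
  set β : ℝ := 1 / ((q : ℝ) - 1) with hβ
  have hl0 : 0 < lam := by rw [hlam]; positivity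
  have hl2 : lam < 2 := by rw [hlam, div_lt_iff₀ hq1]; linarith
  have hβ0 : 0 < β := by rw [hβ]; positivity
  have hβ2 : β ≤ 1 / 2 := by
    rw [hβ]
    exact one_div_le_one_div_of_le (by norm_num) (by linarith)
  have hlβ : lam = 2 * β * θ := by rw [hlam, hβ]; ring
  obtain ⟨δ0, σ0, hδ0, hσ0, C0, hC0, H0⟩ := countNear lam hl0 hl2 hadm
  have hθq1 : θ / q < 1 := by rw [div_lt_one hq0]; linarith
  have hθqθ : θ / q < θ := by
    rw [div_lt_iff₀ hq0]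
    nlinarith
  set η : ℝ := min (1 - θ / q) (θ - θ / q) / 2 with hη
  have hη0 : 0 < η := by
    rw [hη]
    apply div_pos _ two_pos
    exact lt_min (by linarith) (by linarith)
  have hη1 : η < 1 - θ / q := by
    have h1 : min (1 - θ / q) (θ - θ / q) ≤ 1 - θ / q := min_le_left _ _
    rw [hη]; linarith
  have hη2 : η < θ - θ / q := by
    have h1 : min (1 - θ / q) (θ - θ / q) ≤ θ - θ / q := min_le_right _ _
    rw [hη]; linarith
  set α2 : ℝ := θ / q + η with hα2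
  have hα2θ : 0 < θ - α2 := by rw [hα2]; linarith
  have hO : (PG.mk lam β (δ0 / 4) α2 (β * (θ - α2))).Ok :=
    ⟨hl2, hβ0, by simp only; linarith, by simp only; positivity, by simp only; linarith,
      by simp only; positivity, by simp only; rw [hlβ]; linarith⟩
  have hμ0 : 0 < β * (θ - α2) := by positivity
  obtain ⟨δ, σ, d0, d1, s0, s1, H⟩ := countP hO hl0 ⌈2 / (β * (θ - α2))⌉₊
    (by
      have := Nat.le_ceil (2 / (β * (θ - α2)))
      rw [div_le_iff₀ hμ0] at this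
      exact this) δ0 σ0 hδ0 hσ0 le_rfl C0 hC0 H0
  simp only at H s1
  set δ1 : ℝ := min (min δ (σ / 2)) η with hδ1
  have k1 : δ1 ≤ δ := (min_le_left _ _).trans (min_le_left _ _)
  have k2 : δ1 ≤ σ / 2 := (min_le_left _ _).trans (min_le_right _ _)
  have k3 : δ1 ≤ η := min_le_right _ _
  have k0 : 0 < δ1 := by rw [hδ1]; positivity
  refine ⟨δ1 / 4, σ / 2, by positivity, by positivity, ?_⟩
  intro α hα S o t ht0 ht1
  obtain ⟨C1, hC1, HC1⟩ := H (t + δ1) (by linarith) (by rw [hα2]; linarith)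
  have hβt : 0 ≤ (1 - β) * t := mul_nonneg (by linarith) ht0
  have hβt1 : (1 - β) * t ≤ 1 := by
    have : t ≤ 1 := by linarith
    nlinarith
  set e : ℝ := lam / 2 + (1 - β) * t - σ / 2 with he
  have he0 : 0 ≤ e := by rw [he]; linarith
  have he1 : e ≤ 2 := by rw [he]; linarith
  have heq : (θ + ((q : ℝ) - 2) * t) / ((q : ℝ) - 1) - σ / 2 = e := by
    rw [he, hlβ, hβ]
    field_simp
    ring
  rw [heq]
  have H1 : ∀ X : ℕ, 1 ≤ X → ((TinyP lam β (t + δ1) δ1 X).ncard : ℝ) ≤ C1 * (X : ℝ) ^ e := by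
    intro X hX
    have hX1 : (1 : ℝ) ≤ X := by exact_mod_cast hX
    have g1 : ((TinyP lam β (t + δ1) δ1 X).ncard : ℝ) ≤
        ((TinyP lam β (t + δ1) δ X).ncard : ℝ) := by
      exact_mod_cast Set.ncard_le_ncard (tinyP_mono k1 X) (tinyP_finite _ _ _ _ _)
    refine g1.trans ((HC1 X hX).trans (mul_le_mul_of_nonneg_left ?_ hC1.le))
    apply Real.rpow_le_rpow_of_exponent_le hX1
    rw [he]
    have : (1 - β) * δ1 ≤ δ1 := by nlinarith
    nlinarith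
  have h4 : ∀ p : Fin q × Fin q, ∃ C : ℝ, 0 < C ∧ ((p.1 ≠ o ∧ p.2 ≠ o ∧ p.1 ≠ p.2) →
      ∀ B : ℝ, 1 ≤ B →
      ((Exc3P S (α o) (α p.1) (α p.2) lam β t (δ1 / 4) B).ncard : ℝ) ≤ C * B ^ e) := by
    intro p
    by_cases hp : p.1 ≠ o ∧ p.2 ≠ o ∧ p.1 ≠ p.2
    · obtain ⟨C, h1, h2⟩ := red3P S (α o) (α p.1) (α p.2) (hα _ _ hp.1.symm) (hα _ _ hp.2.2)
        (hα _ _ hp.2.1) lam β hl0 hl2 hβ0 hβ2 t ht0 δ1 k0 (by linarith) (k1.trans d1) e he0 he1
        C1 hC1 H1 (δ1 / 4) (by positivity) le_rfl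
      exact ⟨C, h1, fun _ => h2⟩
    · exact ⟨1, one_pos, fun h => absurd h hp⟩
  choose C hC hcount using h4
  refine ⟨∑ p, C p, fun B hB => ?_⟩
  have hB0 : 0 < B := by linarith
  have hfin : (ExcP S α o θ t (δ1 / 4) B).Finite := (box_finite B).subset fun x hx => hx.2.1
  refine ⟨hfin, ?_⟩
  set P : Finset (Fin q × Fin q) := univ.filter fun p => p.1 ≠ o ∧ p.2 ≠ o ∧ p.1 ≠ p.2 with hP
  have hsub : ExcP S α o θ t (δ1 / 4) B ⊆
      ⋃ p ∈ P, Exc3P S (α o) (α p.1) (α p.2) lam β t (δ1 / 4) B := by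
    rintro x ⟨h1, h2, h5, h6, h7⟩
    obtain ⟨i, j, hio, hjo, hij, hN⟩ := two_smallest' hq o (fun i => tr S (α i) x)
    rw [Set.mem_iUnion₂]
    refine ⟨(i, j), by rw [hP, mem_filter]; exact ⟨mem_univ _, hio, hjo, hij⟩, h1, h2, h5 o, h5 i,
      h5 j, h6, ?_⟩
    have hlog : 0 ≤ Real.log (ht x) := Real.log_natCast_nonneg _
    have h2β : 2 / ((q : ℝ) - 1) = 2 * β := by rw [hβ]; ring
    rw [h2β] at hN
    calc 2 * β * tr S (α o) x + tr S (α i) x + tr S (α j) x ≤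
          2 * β * tr S (α o) x + 2 * β * (∑ i, tr S (α i) x - tr S (α o) x) := by linarith
      _ = 2 * β * ∑ i, tr S (α i) x := by ring
      _ ≤ 2 * β * ((θ + δ1 / 4) * Real.log (ht x)) := by gcongr
      _ = (lam + 2 * β * (δ1 / 4)) * Real.log (ht x) := by rw [hlβ]; ring
      _ ≤ (lam + δ1 / 4) * Real.log (ht x) := by
          apply mul_le_mul_of_nonneg_right _ hlog
          have := mul_le_mul_of_nonneg_right (by linarith : 2 * β ≤ 1) (by positivity : 0 ≤ δ1 / 4)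
          linarith
  have hfin3 : ∀ p : Fin q × Fin q,
      (Exc3P S (α o) (α p.1) (α p.2) lam β t (δ1 / 4) B).Finite :=
    fun p => (box_finite B).subset fun x hx => hx.2.1
  have hunion : (⋃ p ∈ P, Exc3P S (α o) (α p.1) (α p.2) lam β t (δ1 / 4) B).Finite :=
    Set.Finite.biUnion P.finite_toSet fun p _ => hfin3 p
  have hle : (ExcP S α o θ t (δ1 / 4) B).ncard ≤
      ∑ p ∈ P, (Exc3P S (α o) (α p.1) (α p.2) lam β t (δ1 / 4) B).ncard :=
    (Set.ncard_le_ncard hsub hunion).trans (set_ncard_biUnion_le P _)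
  calc ((ExcP S α o θ t (δ1 / 4) B).ncard : ℝ) ≤
        ∑ p ∈ P, ((Exc3P S (α o) (α p.1) (α p.2) lam β t (δ1 / 4) B).ncard : ℝ) := by
        exact_mod_cast hle
    _ ≤ ∑ p ∈ P, C p * B ^ e :=
        sum_le_sum fun p hp => hcount p (mem_filter.1 hp).2 B hB
    _ ≤ ∑ p, C p * B ^ e :=
        sum_le_sum_of_subset_of_nonneg (subset_univ _) fun p _ _ =>
          mul_nonneg (hC p).le (Real.rpow_nonneg hB0.le _)
    _ = (∑ p, C p) * B ^ e := by rw [← sum_mul]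

end Pool.Agent.H541.SX
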