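import Mathlib
import Pool.Agent.H541.SX.FinP
import Pool.Agent.H541.SX.CountQ

/-!
# Finite sets of rational points of the line: all points `x` with `λ_∞(α_o, x) ≥ (1 - t) h(x)`,
# `t0 ≤ t ≤ θ / q`, and all `θ`
-/

namespace Pool.Agent.H541.SX

open Finset Pool.Agent.H785R2.ABC Pool.Agent.H541.SM

theorem finset_pointsQ (q : ℕ) (hq : 3 ≤ q) (θ : ℝ) (hθ0 : 0 < θ) (hθ1 : θ < q - 1)
    (t0 : ℝ) (ht00 : 0 ≤ t0)
    (hadm : 0 < t0 ∨ 4 / 5 < 2 * θ / ((q : ℝ) - 1) ∨ Generic (2 * θ / ((q : ℝ) - 1))) :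
    ∃ δ σ : ℝ, 0 < δ ∧ 0 < σ ∧ ∀ (α : Fin q → ℤ × ℤ),
    (∀ i j, i ≠ j → lf (α i) (α j) ≠ 0) → ∀ (S : Finset ℕ) (o : Fin q) (t : ℝ), t0 ≤ t →
      t ≤ θ / q → ∃ C : ℝ, ∀ B : ℝ, 1 ≤ B → (ExcP S α o θ t δ B).Finite ∧
        ((ExcP S α o θ t δ B).ncard : ℝ) ≤
          C * B ^ ((θ + ((q : ℝ) - 2) * t) / ((q : ℝ) - 1) - σ) := by
  classical
  have hqr : (3 : ℝ) ≤ q := by exact_mod_cast hq
  have hq1 : (0 : ℝ) < (q : ℝ) - 1 := by linarith
  have hq0 : (0 : ℝ) < q := by linarith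
  set lam : ℝ := 2 * θ / ((q : ℝ) - 1) with hlam
  set β : ℝ := 1 / ((q : ℝ) - 1) with hβ
  have hl0 : 0 < lam := by rw [hlam]; positivity
  have hl2 : lam < 2 := by rw [hlam, div_lt_iff₀ hq1]; linarith
  have hβ0 : 0 < β := by rw [hβ]; positivity
  have hβ2 : β ≤ 1 / 2 := by
    rw [hβ]
    exact one_div_le_one_div_of_le (by norm_num) (by linarith)
  have hlβ : lam = 2 * β * θ := by rw [hlam, hβ]; ring
  obtain ⟨δ0, σ0, hδ0, hσ0, C0, hC0, H0⟩ : ∃ δ0 σ0 : ℝ, 0 < δ0 ∧ 0 < σ0 ∧ ∃ C0 : ℝ, 0 < C0 ∧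
      ∀ X : ℕ, 1 ≤ X → ((Tiny lam δ0 X).ncard : ℝ) ≤
        C0 * (X : ℝ) ^ (lam / 2 + (1 - β) * t0 - σ0) := by
    rcases hadm with h | h
    · obtain ⟨δ0, g1, C0, g2, g3⟩ := countTriv lam hl0 ((1 - β) * t0 / 2)
        (by have : 0 < 1 - β := by linarith
            positivity)
      have : 0 < 1 - β := by linarith
      refine ⟨δ0, (1 - β) * t0 / 2, g1, by positivity, C0, g2, fun X hX => ?_⟩
      have e : lam / 2 + (1 - β) * t0 - (1 - β) * t0 / 2 = lam / 2 + (1 - β) * t0 / 2 := by ring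
      rw [e]
      exact g3 X hX
    · obtain ⟨δ0, σ0, g1, g2, C0, g3, g4⟩ := countNear lam hl0 hl2 h
      refine ⟨δ0, σ0, g1, g2, C0, g3, fun X hX => (g4 X hX).trans ?_⟩
      apply mul_le_mul_of_nonneg_left _ g3.le
      apply Real.rpow_le_rpow_of_exponent_le (by exact_mod_cast hX)
      have : 0 ≤ (1 - β) * t0 := mul_nonneg (by linarith) ht00
      linarith
  have hθq1 : θ / q < 1 := by rw [div_lt_one hq0]; linarith
  have hθqθ : θ / q < θ := by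
    rw [div_lt_iff₀ hq0]
    nlinarith
  set η : ℝ := min (1 - θ / q) (θ - θ / q) / 2 with hη
  have hη0 : 0 < η := by
    rw [hη]
    apply div_pos _ two_pos
    exact lt_min (by linarith) (by linarith)
  have hη1 : η < 1 - θ / q := by
    have h1 : min (1 - θ / q) (θ - θ / q) ≤ 1 - θ / q := min_le_left _ _
    rw [hη]; linarith
  have hη2 : η < θ - θ / q := by
    have h1 : min (1 - θ / q) (θ - θ / q) ≤ θ - θ / q := min_le_right _ _
    rw [hη]; linarith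
  set α2 : ℝ := θ / q + η with hα2
  have hα2θ : 0 < θ - α2 := by rw [hα2]; linarith
  have hO : (PG.mk lam β (δ0 / 4) α2 (β * (θ - α2))).Ok :=
    ⟨hl2, hβ0, by simp only; linarith, by simp only; positivity, by simp only; linarith,
      by simp only; positivity, by simp only; rw [hlβ]; linarith⟩
  have hμ0 : 0 < β * (θ - α2) := by positivity
  obtain ⟨δ, σ, d0, d1, s0, s1, H⟩ := countQ hO hl0 ⌈2 / (β * (θ - α2))⌉₊
    (by
      have := Nat.le_ceil (2 / (β * (θ - α2)))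
      rw [div_le_iff₀ hμ0] at this
      exact this) t0 ht00 δ0 σ0 hδ0 hσ0 le_rfl C0 hC0 H0
  simp only at H s1
  set δ1 : ℝ := min (min δ (σ / 2)) η with hδ1
  have k1 : δ1 ≤ δ := (min_le_left _ _).trans (min_le_left _ _)
  have k2 : δ1 ≤ σ / 2 := (min_le_left _ _).trans (min_le_right _ _)
  have k3 : δ1 ≤ η := min_le_right _ _
  have k0 : 0 < δ1 := by rw [hδ1]; positivity
  refine ⟨δ1 / 4, σ / 2, by positivity, by positivity, ?_⟩
  intro α hα S o t ht0' ht1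
  have ht0 : 0 ≤ t := ht00.trans ht0'
  obtain ⟨C1, hC1, HC1⟩ := H (t + δ1) (by linarith) (by rw [hα2]; linarith)
  have hβt : 0 ≤ (1 - β) * t := mul_nonneg (by linarith) ht0
  have hβt1 : (1 - β) * t ≤ 1 := by
    have : t ≤ 1 := by linarith
    nlinarith
  set e : ℝ := lam / 2 + (1 - β) * t - σ / 2 with he
  have he0 : 0 ≤ e := by rw [he]; linarith
  have he1 : e ≤ 2 := by rw [he]; linarith
  have heq : (θ + ((q : ℝ) - 2) * t) / ((q : ℝ) - 1) - σ / 2 = e := by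
    rw [he, hlβ, hβ]
    field_simp
    ring
  rw [heq]
  have H1 : ∀ X : ℕ, 1 ≤ X → ((TinyP lam β (t + δ1) δ1 X).ncard : ℝ) ≤ C1 * (X : ℝ) ^ e := by
    intro X hX
    have hX1 : (1 : ℝ) ≤ X := by exact_mod_cast hX
    have g1 : ((TinyP lam β (t + δ1) δ1 X).ncard : ℝ) ≤
        ((TinyP lam β (t + δ1) δ X).ncard : ℝ) := by
      exact_mod_cast Set.ncard_le_ncard (tinyP_mono k1 X) (tinyP_finite _ _ _ _ _)
    refine g1.trans ((HC1 X hX).trans (mul_le_mul_of_nonneg_left ?_ hC1.le))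
    apply Real.rpow_le_rpow_of_exponent_le hX1
    rw [he]
    have : (1 - β) * δ1 ≤ δ1 := by nlinarith
    nlinarith
  have h4 : ∀ p : Fin q × Fin q, ∃ C : ℝ, 0 < C ∧ ((p.1 ≠ o ∧ p.2 ≠ o ∧ p.1 ≠ p.2) →
      ∀ B : ℝ, 1 ≤ B →
      ((Exc3P S (α o) (α p.1) (α p.2) lam β t (δ1 / 4) B).ncard : ℝ) ≤ C * B ^ e) := by
    intro p
    by_cases hp : p.1 ≠ o ∧ p.2 ≠ o ∧ p.1 ≠ p.2
    · obtain ⟨C, h1, h2⟩ := red3P S (α o) (α p.1) (α p.2) (hα _ _ hp.1.symm) (hα _ _ hp.2.2)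
        (hα _ _ hp.2.1) lam β hl0 hl2 hβ0 hβ2 t ht0 δ1 k0 (by linarith) (k1.trans d1) e he0 he1
        C1 hC1 H1 (δ1 / 4) (by positivity) le_rfl
      exact ⟨C, h1, fun _ => h2⟩
    · exact ⟨1, one_pos, fun h => absurd h hp⟩
  choose C hC hcount using h4
  refine ⟨∑ p, C p, fun B hB => ?_⟩
  have hB0 : 0 < B := by linarith
  have hfin : (ExcP S α o θ t (δ1 / 4) B).Finite := (box_finite B).subset fun x hx => hx.2.1
  refine ⟨hfin, ?_⟩
  set P : Finset (Fin q × Fin q) := univ.filter fun p => p.1 ≠ o ∧ p.2 ≠ o ∧ p.1 ≠ p.2 with hP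
  have hsub : ExcP S α o θ t (δ1 / 4) B ⊆
      ⋃ p ∈ P, Exc3P S (α o) (α p.1) (α p.2) lam β t (δ1 / 4) B := by
    rintro x ⟨h1, h2, h5, h6, h7⟩
    obtain ⟨i, j, hio, hjo, hij, hN⟩ := two_smallest' hq o (fun i => tr S (α i) x)
    rw [Set.mem_iUnion₂]
    refine ⟨(i, j), by rw [hP, mem_filter]; exact ⟨mem_univ _, hio, hjo, hij⟩, h1, h2, h5 o, h5 i,
      h5 j, h6, ?_⟩
    have hlog : 0 ≤ Real.log (ht x) := Real.log_natCast_nonneg _
    have h2β : 2 / ((q : ℝ) - 1) = 2 * β := by rw [hβ]; ring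
    rw [h2β] at hN
    calc 2 * β * tr S (α o) x + tr S (α i) x + tr S (α j) x ≤
          2 * β * tr S (α o) x + 2 * β * (∑ i, tr S (α i) x - tr S (α o) x) := by linarith
      _ = 2 * β * ∑ i, tr S (α i) x := by ring
      _ ≤ 2 * β * ((θ + δ1 / 4) * Real.log (ht x)) := by gcongr
      _ = (lam + 2 * β * (δ1 / 4)) * Real.log (ht x) := by rw [hlβ]; ring
      _ ≤ (lam + δ1 / 4) * Real.log (ht x) := by
          apply mul_le_mul_of_nonneg_right _ hlog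
          have := mul_le_mul_of_nonneg_right (by linarith : 2 * β ≤ 1) (by positivity : 0 ≤ δ1 / 4)
          linarith
  have hfin3 : ∀ p : Fin q × Fin q,
      (Exc3P S (α o) (α p.1) (α p.2) lam β t (δ1 / 4) B).Finite :=
    fun p => (box_finite B).subset fun x hx => hx.2.1
  have hunion : (⋃ p ∈ P, Exc3P S (α o) (α p.1) (α p.2) lam β t (δ1 / 4) B).Finite :=
    Set.Finite.biUnion P.finite_toSet fun p _ => hfin3 p
  have hle : (ExcP S α o θ t (δ1 / 4) B).ncard ≤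
      ∑ p ∈ P, (Exc3P S (α o) (α p.1) (α p.2) lam β t (δ1 / 4) B).ncard :=
    (Set.ncard_le_ncard hsub hunion).trans (set_ncard_biUnion_le P _)
  calc ((ExcP S α o θ t (δ1 / 4) B).ncard : ℝ) ≤
        ∑ p ∈ P, ((Exc3P S (α o) (α p.1) (α p.2) lam β t (δ1 / 4) B).ncard : ℝ) := by
        exact_mod_cast hle
    _ ≤ ∑ p ∈ P, C p * B ^ e :=
        sum_le_sum fun p hp => hcount p (mem_filter.1 hp).2 B hB
    _ ≤ ∑ p, C p * B ^ e :=
        sum_le_sum_of_subset_of_nonneg (subset_univ _) fun p _ _ =>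
          mul_nonneg (hC p).le (Real.rpow_nonneg hB0.le _)
    _ = (∑ p, C p) * B ^ e := by rw [← sum_mul]

end Pool.Agent.H541.SX
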