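import Mathlib
import Pool.Agent.H541.SX.Fin2
import Pool.Agent.H541.SX.RedA

/-!
# Three rational points of the line: all points `x` with `λ_∞(α_o, x) ≥ (1 - t) h(x)`, `t ≤ 1 / 14`
-/

namespace Pool.Agent.H541.SX

open Finset Pool.Agent.H785R2.ABC Pool.Agent.H541.SM

/-- the exceptional points with `λ_∞(α_o, x) ≥ (1 - t) h(x)` -/
def ExcT {q : ℕ} (S : Finset ℕ) (α : Fin q → ℤ × ℤ) (o : Fin q) (θ t δ B : ℝ) : Set (ℤ × ℤ) :=
  {x | IsCoprime x.1 x.2 ∧ (ht x : ℝ) ≤ B ∧ (∀ i, lf (α i) x ≠ 0) ∧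
    (1 - t) * Real.log (ht x) ≤ lamInf (α o) x ∧
    ∑ i, tr S (α i) x ≤ (θ + δ) * Real.log (ht x)}

lemma tinyT_mono {t δ δ' : ℝ} (h : δ ≤ δ') (X : ℕ) : TinyT t δ X ⊆ TinyT t δ' X := by
  intro u hu
  refine ⟨hu.1, hu.2.1, hu.2.2.1, hu.2.2.2.trans ?_⟩
  have h1 : (1 : ℝ) ≤ (u.2.2 : ℝ) := by
    have := hu.1.2.2.1
    exact_mod_cast this
  exact Real.rpow_le_rpow_of_exponent_le h1 (by linarith)

theorem finset_pointsT : ∃ δ σ : ℝ, 0 < δ ∧ 0 < σ ∧ ∀ (α : Fin 3 → ℤ × ℤ),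
    (∀ i j, i ≠ j → lf (α i) (α j) ≠ 0) → ∀ (S : Finset ℕ) (o : Fin 3) (t : ℝ), 0 ≤ t →
      t ≤ 1 / 14 → ∃ C : ℝ, ∀ B : ℝ, 1 ≤ B → (ExcT S α o 1 t δ B).Finite ∧
        ((ExcT S α o 1 t δ B).ncard : ℝ) ≤ C * B ^ ((1 + t) / 2 - σ) := by
  obtain ⟨δ0, σ0, h1, h2, h3, h4, H⟩ := countA
  set δ1 : ℝ := min (min δ0 σ0) (1 / 1000) with hδ1
  have k1 : δ1 ≤ δ0 := (min_le_left _ _).trans (min_le_left _ _)
  have k2 : δ1 ≤ σ0 := (min_le_left _ _).trans (min_le_right _ _)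
  have k3 : δ1 ≤ 1 / 1000 := min_le_right _ _
  have k0 : 0 < δ1 := by rw [hδ1]; positivity
  refine ⟨δ1 / 4, σ0 / 2, by positivity, by positivity, ?_⟩
  intro α hα S o t ht0 ht1
  obtain ⟨C, hC, HC⟩ := H (t + δ1) (by linarith) (by linarith)
  have hne : ∀ k : Fin 3, k ≠ k + 1 ∧ k + 1 ≠ k + 2 ∧ k + 2 ≠ k := by decide
  obtain ⟨hne1, hne2, hne3⟩ := hne o
  obtain ⟨C', hC', HC'⟩ := red3t S (α o) (α (o + 1)) (α (o + 2)) (hα _ _ hne1) (hα _ _ hne2)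
    (hα _ _ hne3) t ht0 (by linarith) δ1 k0 k3 ((1 + t) / 2 - σ0 / 2) (by linarith) (by linarith)
    C hC (fun X hX => by
      have hX1 : (1 : ℝ) ≤ X := by exact_mod_cast hX
      have g1 : ((TinyT (t + δ1) δ1 X).ncard : ℝ) ≤ ((TinyT (t + δ1) δ0 X).ncard : ℝ) := by
        exact_mod_cast Set.ncard_le_ncard (tinyT_mono k1 X) (tinyT_finite _ _ _)
      refine g1.trans ((HC X hX).trans (mul_le_mul_of_nonneg_left ?_ hC.le))
      exact Real.rpow_le_rpow_of_exponent_le hX1 (by linarith))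
    (δ1 / 4) (by positivity) le_rfl
  refine ⟨C', fun B hB => ?_⟩
  have hfin : (ExcT S α o 1 t (δ1 / 4) B).Finite := (box_finite B).subset fun x hx => hx.2.1
  refine ⟨hfin, ?_⟩
  have hsub : ExcT S α o 1 t (δ1 / 4) B ⊆
      Exc3t S (α o) (α (o + 1)) (α (o + 2)) t (δ1 / 4) B := by
    rintro x ⟨g1, g2, g5, g6, g7⟩
    refine ⟨g1, g2, g5 _, g5 _, g5 _, g6, ?_⟩
    refine le_trans (le_of_eq ?_) g7
    rw [Fin.sum_univ_three]
    have ho3 : ∀ k : Fin 3, k = 0 ∨ k = 1 ∨ k = 2 := by decide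
    have ho := ho3 o
    rcases ho with rfl | rfl | rfl
    · rfl
    · have e1 : (1 : Fin 3) + 1 = 2 := by decide
      have e2 : (1 : Fin 3) + 2 = 0 := by decide
      rw [e1, e2]; ring
    · have e1 : (2 : Fin 3) + 1 = 0 := by decide
      have e2 : (2 : Fin 3) + 2 = 1 := by decide
      rw [e1, e2]; ring
  have hfin3 : (Exc3t S (α o) (α (o + 1)) (α (o + 2)) t (δ1 / 4) B).Finite :=
    (box_finite B).subset fun x hx => hx.2.1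
  calc ((ExcT S α o 1 t (δ1 / 4) B).ncard : ℝ) ≤
        ((Exc3t S (α o) (α (o + 1)) (α (o + 2)) t (δ1 / 4) B).ncard : ℝ) := by
        exact_mod_cast Set.ncard_le_ncard hsub hfin3
    _ ≤ C' * B ^ ((1 + t) / 2 - σ0 / 2) := HC' B hB

end Pool.Agent.H541.SX
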